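import Mathlib
import Pool.Agent.H28.VAL

/-!
Equalising the colour classes of an edge colouring.
-/

set_option autoImplicit false
set_option linter.unusedSectionVars false

namespace Pool.Agent.H55

open Finset SimpleGraph Pool.Agent.H28

section Eq

variable {V : Type*} [Fintype V]

open Classical in
/-- the set of vertices missing the colour `γ` -/
noncomputable def ms (H : SimpleGraph V) (D : ℕ) (c : Sym2 V → ℕ) (γ : ℕ) : Finset V :=
  Finset.univ.filter (fun v => Miss H D c v γ)

theorem mem_ms {H : SimpleGraph V} {D : ℕ} {c : Sym2 V → ℕ} {γ : ℕ} {v : V} :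
    v ∈ ms H D c γ ↔ Miss H D c v γ := by
  unfold ms
  simp

/-- Parity: the number of vertices missing a colour has the parity of `|V|`. -/
theorem ms_parity {H : SimpleGraph V} {D : ℕ} {c : Sym2 V → ℕ} (hc : IsEC H D c) {γ : ℕ}
    (hγ : γ < D) : Even ((ms H D c γ).card + Fintype.card V) := by
  classical
  let Hγ : SimpleGraph V :=
    { Adj := fun u v => H.Adj u v ∧ c s(u, v) = γ
      symm := ⟨fun u v h => ⟨h.1.symm, by rw [Sym2.eq_swap]; exact h.2⟩⟩
      loopless := ⟨fun u h => H.loopless.irrefl u h.1⟩ }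
  have hdeg : ∀ v, Hγ.degree v = if v ∈ ms H D c γ then 0 else 1 := by
    intro v
    by_cases h : v ∈ ms H D c γ
    · rw [if_pos h]
      rw [mem_ms] at h
      rw [← SimpleGraph.card_neighborFinset_eq_degree, Finset.card_eq_zero,
        Finset.eq_empty_iff_forall_notMem]
      intro w hw
      rw [SimpleGraph.mem_neighborFinset] at hw
      exact h.2 w hw.1 hw.2
    · rw [if_neg h]
      rw [mem_ms] at h
      have : ∃ w, H.Adj v w ∧ c s(v, w) = γ := by
        by_contra hcon
        push Not at hcon
        exact h ⟨hγ, hcon⟩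
      obtain ⟨w, hw⟩ := this
      rw [← SimpleGraph.card_neighborFinset_eq_degree, Finset.card_eq_one]
      refine ⟨w, ?_⟩
      ext x
      rw [SimpleGraph.mem_neighborFinset, Finset.mem_singleton]
      constructor
      · intro hx
        by_contra hne
        exact hc.2 v x w hx.1 hw.1 hne (hx.2.trans hw.2.symm)
      · rintro rfl
        exact hw
  have h1 := Hγ.sum_degrees_eq_twice_card_edges
  rw [Finset.sum_congr rfl (fun v _ => hdeg v)] at h1
  have h2 : ∑ v, (if v ∈ ms H D c γ then 0 else 1) + (ms H D c γ).card = Fintype.card V := by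
    rw [Finset.card_eq_sum_ones (ms H D c γ), ← Finset.sum_filter_add_sum_filter_not
      Finset.univ (fun v => v ∈ ms H D c γ)]
    have e1 : ∑ x ∈ Finset.univ.filter (fun v => v ∈ ms H D c γ),
        (if x ∈ ms H D c γ then 0 else 1) = 0 :=
      Finset.sum_eq_zero fun x hx => if_pos (Finset.mem_filter.1 hx).2
    have e2 : ∑ x ∈ Finset.univ.filter (fun v => ¬ v ∈ ms H D c γ),
        (if x ∈ ms H D c γ then 0 else 1) =
        (Finset.univ.filter (fun v => ¬ v ∈ ms H D c γ)).card := by
      rw [Finset.card_eq_sum_ones]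
      exact Finset.sum_congr rfl fun x hx => if_neg (Finset.mem_filter.1 hx).2
    rw [e1, e2, zero_add, ← Finset.card_eq_sum_ones]
    have := Finset.card_filter_add_card_filter_not (s := (Finset.univ : Finset V))
      (fun v => v ∈ ms H D c γ)
    simp only [Finset.filter_univ_mem, Finset.card_univ] at this
    omega
  rw [h1] at h2
  rw [← h2]
  exact ⟨(ms H D c γ).card + Hγ.edgeFinset.card, by ring⟩

theorem swp_miss_in_iff {H : SimpleGraph V} {D : ℕ} {c : Sym2 V → ℕ} {α β : ℕ}
    (hα : α < D) (hβ : β < D) {C : Set V} {u : V} (hu : u ∈ C) {γ : ℕ} :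
    Miss H D (swp C α β c) u γ ↔ Miss H D c u (Equiv.swap α β γ) := by
  constructor
  · rintro ⟨h1, h2⟩
    refine ⟨swap_lt hα hβ h1, fun v huv heq => h2 v huv ?_⟩
    rw [swp_in hu, heq, Equiv.swap_apply_self]
  · intro h
    have := swp_miss_in hα hβ hu h
    rwa [Equiv.swap_apply_self] at this

theorem swp_miss_out_iff {H : SimpleGraph V} {D : ℕ} {c : Sym2 V → ℕ} {α β : ℕ} {C : Set V}
    (hC : ∀ u v, (kem H c α β).Adj u v → u ∈ C → v ∈ C) {u : V} (hu : u ∉ C) {γ : ℕ} :
    Miss H D (swp C α β c) u γ ↔ Miss H D c u γ := by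
  constructor
  · rintro ⟨h1, h2⟩
    refine ⟨h1, fun v huv => ?_⟩
    have := h2 v huv
    rwa [swp_out hC hu huv] at this
  · exact swp_miss_out hC hu

/-- There is a Kempe component with a surplus of one or two. -/
theorem exists_comp {H : SimpleGraph V} {D : ℕ} {c : Sym2 V → ℕ} (hc : IsEC H D c) {α β : ℕ}
    (hlt : (ms H D c α).card < (ms H D c β).card) :
    ∃ C : Set V, (∀ u v, (kem H c α β).Adj u v → u ∈ C → v ∈ C) ∧
      {v | v ∈ C ∧ Miss H D c v α}.ncard < {v | v ∈ C ∧ Miss H D c v β}.ncard ∧
      {v | v ∈ C ∧ Miss H D c v β}.ncard ≤ {v | v ∈ C ∧ Miss H D c v α}.ncard + 2 := by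
  classical
  let K := kem H c α β
  have hsum : ∀ γ, (ms H D c γ).card = ∑ C : K.ConnectedComponent,
      ((ms H D c γ).filter (fun v => K.connectedComponentMk v = C)).card := by
    intro γ
    exact Finset.card_eq_sum_card_fiberwise (fun v _ => Finset.mem_univ _)
  have hex : ∃ C : K.ConnectedComponent,
      ((ms H D c α).filter (fun v => K.connectedComponentMk v = C)).card <
      ((ms H D c β).filter (fun v => K.connectedComponentMk v = C)).card := by
    by_contra hcon
    push Not at hcon
    rw [hsum α, hsum β] at hlt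
    exact absurd (Finset.sum_le_sum fun C _ => hcon C) (not_le.2 hlt)
  obtain ⟨C, hCex⟩ := hex
  have hset : ∀ γ, {v | v ∈ {v | K.connectedComponentMk v = C} ∧ Miss H D c v γ}.ncard =
      ((ms H D c γ).filter (fun v => K.connectedComponentMk v = C)).card := by
    intro γ
    rw [← Set.ncard_coe_finset]
    congr 1
    ext v
    simp only [Set.mem_ofPred_eq, Finset.coe_filter, mem_ms]
    tauto
  refine ⟨{v | K.connectedComponentMk v = C}, ?_, ?_, ?_⟩
  · intro u v huv hu
    have : K.connectedComponentMk v = K.connectedComponentMk u :=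
      (SimpleGraph.ConnectedComponent.sound (huv.reachable)).symm
    exact this.trans hu
  · rw [hset, hset]
    exact hCex
  · rw [hset, hset]
    -- the vertices of `C` missing `β` but not `α`
    by_contra hcon
    push Not at hcon
    have hsplit : ((ms H D c β).filter (fun v => K.connectedComponentMk v = C)).card ≤
        ((ms H D c α).filter (fun v => K.connectedComponentMk v = C)).card +
        (((ms H D c β).filter (fun v => K.connectedComponentMk v = C)) \
          ((ms H D c α).filter (fun v => K.connectedComponentMk v = C))).card := by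
      rw [add_comm]
      exact Finset.card_le_card_sdiff_add_card
    have h3 : 2 < (((ms H D c β).filter (fun v => K.connectedComponentMk v = C)) \
          ((ms H D c α).filter (fun v => K.connectedComponentMk v = C))).card := by omega
    rw [Finset.two_lt_card] at h3
    obtain ⟨x, hx, y, hy, z, hz, hxy, hxz, hyz⟩ := h3
    rw [Finset.mem_sdiff, Finset.mem_filter, mem_ms] at hx hy hz
    have r1 : K.Reachable x y := SimpleGraph.ConnectedComponent.exact (hx.1.2.trans hy.1.2.symm)
    have r2 : K.Reachable x z := SimpleGraph.ConnectedComponent.exact (hx.1.2.trans hz.1.2.symm)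
    exact three_ends K (fun v => kem_deg_two hc α β v) hxy hxz hyz
      (kem_deg_one_right hc hx.1.1) (kem_deg_one_right hc hy.1.1) (kem_deg_one_right hc hz.1.1)
      r1 r2

theorem equalize_aux {H : SimpleGraph V} {D T : ℕ} (hT : Even (T + Fintype.card V)) :
    ∀ (N : ℕ) (c : Sym2 V → ℕ), IsEC H D c → ∑ γ ∈ Finset.range D, (ms H D c γ).card = D * T →
    ∑ γ ∈ Finset.range D, (ms H D c γ).card ^ 2 = N →
    ∃ c : Sym2 V → ℕ, IsEC H D c ∧ ∀ γ, γ < D → (ms H D c γ).card = T := by
  classical
  intro N
  induction N using Nat.strong_induction_on with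
  | _ N ih =>
  intro c hc hsum hN
  by_cases hex : ∃ α β, α < D ∧ β < D ∧ (ms H D c α).card + 3 ≤ (ms H D c β).card
  · obtain ⟨α, β, hα, hβ, hαβ⟩ := hex
    have hne : α ≠ β := by
      rintro rfl
      omega
    obtain ⟨C, hC, h1, h2⟩ := exists_comp hc (α := α) (β := β) (by omega)
    set δ := {v | v ∈ C ∧ Miss H D c v β}.ncard - {v | v ∈ C ∧ Miss H D c v α}.ncard with hδ
    have hout : ∀ γ, (ms H D c γ).card = {v | v ∈ C ∧ Miss H D c v γ}.ncard +
        {v | v ∉ C ∧ Miss H D c v γ}.ncard := by
      intro γ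
      rw [← Set.ncard_coe_finset, ← Set.ncard_union_eq]
      · congr 1
        ext v
        simp only [Finset.mem_coe, mem_ms, Set.mem_union, Set.mem_ofPred_eq]
        tauto
      · rw [Set.disjoint_left]
        rintro v ⟨hv, _⟩ ⟨hv', _⟩
        exact hv' hv
    have hnew : ∀ γ, (ms H D (swp C α β c) γ).card =
        {v | v ∈ C ∧ Miss H D c v (Equiv.swap α β γ)}.ncard +
        {v | v ∉ C ∧ Miss H D c v γ}.ncard := by
      intro γ
      rw [← Set.ncard_coe_finset, ← Set.ncard_union_eq]
      · congr 1
        ext v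
        simp only [Finset.mem_coe, mem_ms, Set.mem_union, Set.mem_ofPred_eq]
        by_cases hv : v ∈ C
        · rw [swp_miss_in_iff hα hβ hv]
          tauto
        · rw [swp_miss_out_iff hC hv]
          tauto
      · rw [Set.disjoint_left]
        rintro v ⟨hv, _⟩ ⟨hv', _⟩
        exact hv' hv
    have hA : (ms H D (swp C α β c) α).card = (ms H D c α).card + δ := by
      rw [hnew, hout α, Equiv.swap_apply_left]
      omega
    have hB : (ms H D (swp C α β c) β).card + δ = (ms H D c β).card := by
      rw [hnew, hout β, Equiv.swap_apply_right]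
      omega
    have hO : ∀ γ, γ ≠ α → γ ≠ β → (ms H D (swp C α β c) γ).card = (ms H D c γ).card := by
      intro γ h3 h4
      rw [hnew, hout γ, Equiv.swap_apply_of_ne_of_ne h3 h4]
    have hsplit : ∀ f : ℕ → ℕ, ∑ γ ∈ Finset.range D, f γ =
        f α + f β + ∑ γ ∈ (Finset.range D).filter (fun γ => γ ≠ α ∧ γ ≠ β), f γ := by
      intro f
      have e1 : ((Finset.range D).erase α).erase β =
          (Finset.range D).filter (fun γ => γ ≠ α ∧ γ ≠ β) := by
        ext γ
        simp only [Finset.mem_erase, Finset.mem_filter]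
        tauto
      rw [← Finset.add_sum_erase (Finset.range D) f (Finset.mem_range.2 hα),
        ← Finset.add_sum_erase ((Finset.range D).erase α) f
          (Finset.mem_erase.2 ⟨hne.symm, Finset.mem_range.2 hβ⟩), e1]
      ring
    have hrest : ∀ g : ℕ → ℕ, ∑ γ ∈ (Finset.range D).filter (fun γ => γ ≠ α ∧ γ ≠ β),
        g (ms H D (swp C α β c) γ).card = ∑ γ ∈ (Finset.range D).filter (fun γ => γ ≠ α ∧ γ ≠ β),
        g (ms H D c γ).card := by
      intro g
      refine Finset.sum_congr rfl fun γ hγ => ?_
      rw [Finset.mem_filter] at hγ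
      rw [hO γ hγ.2.1 hγ.2.2]
    refine ih _ ?_ (swp C α β c) (swp_ec hc hα hβ hC) ?_ rfl
    · rw [← hN, hsplit (fun γ => (ms H D (swp C α β c) γ).card ^ 2),
        hsplit (fun γ => (ms H D c γ).card ^ 2), hrest (fun x => x ^ 2)]
      apply Nat.add_lt_add_right
      rw [hA, ← hB]
      have h5 : 0 < δ := by omega
      have h6 : δ ≤ 2 := by omega
      have h7 : (ms H D c α).card + 3 ≤ (ms H D (swp C α β c) β).card + δ := by
        rw [hB]; exact hαβ
      nlinarith
    · rw [← hsum, hsplit (fun γ => (ms H D (swp C α β c) γ).card),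
        hsplit (fun γ => (ms H D c γ).card), hrest (fun x => x), hA, ← hB]
      ring
  · push Not at hex
    refine ⟨c, hc, ?_⟩
    by_contra hcon
    push Not at hcon
    obtain ⟨γ, hγ, hne⟩ := hcon
    have hpar : ∀ γ, γ < D → ∃ t : ℤ, ((ms H D c γ).card : ℤ) - T = 2 * t := by
      intro γ hγ
      obtain ⟨s, hs⟩ := ms_parity hc hγ
      obtain ⟨s', hs'⟩ := hT
      exact ⟨s - s', by omega⟩
    rcases lt_or_gt_of_ne hne with h | h
    · -- some other colour is above
      have : ∃ β, β < D ∧ T < (ms H D c β).card := by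
        by_contra hc2
        push Not at hc2
        have h1 : ∑ γ ∈ Finset.range D, (ms H D c γ).card < ∑ _γ ∈ Finset.range D, T :=
          Finset.sum_lt_sum (fun β hβ => hc2 β (Finset.mem_range.1 hβ))
            ⟨γ, Finset.mem_range.2 hγ, h⟩
        rw [hsum] at h1
        simp at h1
      obtain ⟨β, hβ, hβT⟩ := this
      obtain ⟨t1, ht1⟩ := hpar γ hγ
      obtain ⟨t2, ht2⟩ := hpar β hβ
      have := hex γ β hγ hβ
      omega
    · have : ∃ β, β < D ∧ (ms H D c β).card < T := by
        by_contra hc2
        push Not at hc2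
        have h1 : ∑ _γ ∈ Finset.range D, T < ∑ γ ∈ Finset.range D, (ms H D c γ).card :=
          Finset.sum_lt_sum (fun β hβ => hc2 β (Finset.mem_range.1 hβ))
            ⟨γ, Finset.mem_range.2 hγ, h⟩
        rw [hsum] at h1
        simp at h1
      obtain ⟨β, hβ, hβT⟩ := this
      obtain ⟨t1, ht1⟩ := hpar γ hγ
      obtain ⟨t2, ht2⟩ := hpar β hβ
      have := hex β γ hβ hγ
      omega

/-- The colour classes can be equalised. -/
theorem equalize {H : SimpleGraph V} {D T : ℕ} (hT : Even (T + Fintype.card V))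
    (hcol : ECol H D)
    (hsum : (∑ v, ((D : ℤ) - (H.neighborSet v).ncard)) = D * T) :
    ∃ c : Sym2 V → ℕ, IsEC H D c ∧ ∀ γ, γ < D → (ms H D c γ).card = T := by
  classical
  obtain ⟨c, hc⟩ := hcol
  refine equalize_aux hT _ c hc ?_ rfl
  have h1 : ∀ v : V, (((Finset.range D).filter (Miss H D c v)).card : ℤ) =
      (D : ℤ) - (H.neighborSet v).ncard := by
    intro v
    have := card_miss hc v
    omega
  have h2 : (∑ γ ∈ Finset.range D, ((ms H D c γ).card : ℤ)) =
      ∑ v, (((Finset.range D).filter (Miss H D c v)).card : ℤ) := by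
    have e1 : ∀ γ, ((ms H D c γ).card : ℤ) = ∑ v, if Miss H D c v γ then 1 else 0 := by
      intro γ
      unfold ms
      rw [Finset.card_filter]
      push_cast
      rfl
    have e2 : ∀ v, (((Finset.range D).filter (Miss H D c v)).card : ℤ) =
        ∑ γ ∈ Finset.range D, if Miss H D c v γ then 1 else 0 := by
      intro v
      rw [Finset.card_filter]
      push_cast
      rfl
    simp only [e1, e2]
    rw [Finset.sum_comm]
  have h3 : ((∑ γ ∈ Finset.range D, (ms H D c γ).card : ℕ) : ℤ) = D * T := by
    push_cast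
    rw [h2, ← hsum]
    exact Finset.sum_congr rfl fun v _ => h1 v
  exact_mod_cast h3

end Eq

end Pool.Agent.H55
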