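import Mathlib

/-!
Multipartite graphs with prescribed numbers of edges between the parts and nearly regular
inside every part.
-/

set_option autoImplicit false
set_option linter.unusedSectionVars false

namespace Pool.Agent.H55

open Finset

section NearReg

variable {V P : Type*} [Fintype V] [DecidableEq V] [Fintype P] [LinearOrder P]

/-- the vertices of part `i` -/
def fib (π : V → P) (i : P) : Finset V := Finset.univ.filter (fun x => π x = i)

theorem mem_fib {π : V → P} {i : P} {x : V} : x ∈ fib π i ↔ π x = i := by simp [fib]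

/-- `h` is the adjacency matrix of a multipartite graph with `m i j` edges between the parts. -/
structure Val (π : V → P) (m : P → P → ℤ) (h : V → V → ℤ) : Prop where
  h01 : ∀ x y, h x y = 0 ∨ h x y = 1
  sym : ∀ x y, h x y = h y x
  par : ∀ x y, π x = π y → h x y = 0
  cnt : ∀ i j, ∑ x ∈ fib π i, ∑ y ∈ fib π j, h x y = m i j

theorem exists_val (π : V → P) (m : P → P → ℤ) (hm : ∀ i j, m i j = m j i) (hd : ∀ i, m i i = 0)
    (h0 : ∀ i j, 0 ≤ m i j) (h1 : ∀ i j, m i j ≤ (fib π i).card * (fib π j).card) :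
    ∃ h, Val π m h := by
  have hR : ∀ i j, ∃ R : Finset (V × V), R ⊆ fib π i ×ˢ fib π j ∧ R.card = (m i j).toNat := by
    intro i j
    apply Finset.exists_subset_card_eq
    rw [Finset.card_product]
    have := h1 i j
    have := h0 i j
    zify
    rw [Int.toNat_of_nonneg (h0 i j)]
    exact h1 i j
  choose R hR1 hR2 using hR
  have hcount : ∀ i j, i < j → ∑ x ∈ fib π i, ∑ y ∈ fib π j,
      (if (x, y) ∈ R i j then (1 : ℤ) else 0) = m i j := by
    intro i j _
    rw [← Finset.sum_product', Finset.sum_boole]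
    have : (fib π i ×ˢ fib π j).filter (fun x => (x.1, x.2) ∈ R i j) = R i j := by
      ext x
      rw [Finset.mem_filter]
      exact ⟨fun h => h.2, fun h => ⟨hR1 i j h, h⟩⟩
    rw [this, hR2]
    exact Int.toNat_of_nonneg (h0 i j)
  let h : V → V → ℤ := fun x y => if (π x < π y ∧ (x, y) ∈ R (π x) (π y)) ∨
    (π y < π x ∧ (y, x) ∈ R (π y) (π x)) then 1 else 0
  have hsym : ∀ x y, h x y = h y x := by
    intro x y
    simp only [h]
    congr 1
    rw [eq_iff_iff]
    tauto
  have hlt : ∀ i j, i < j → ∑ x ∈ fib π i, ∑ y ∈ fib π j, h x y = m i j := by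
    intro i j hij
    rw [← hcount i j hij]
    refine Finset.sum_congr rfl fun x hx => Finset.sum_congr rfl fun y hy => ?_
    rw [mem_fib] at hx hy
    simp only [h, hx, hy, hij, true_and, hij.not_gt, false_and, or_false]
  refine ⟨h, ⟨?_, hsym, ?_, ?_⟩⟩
  · intro x y
    simp only [h]
    split_ifs
    · right; rfl
    · left; rfl
  · intro x y hxy
    simp only [h, hxy, lt_irrefl, false_and, or_self, if_false]
  · intro i j
    rcases lt_trichotomy i j with hij | hij | hij
    · exact hlt i j hij
    · subst hij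
      rw [hd]
      refine Finset.sum_eq_zero fun x hx => Finset.sum_eq_zero fun y hy => ?_
      rw [mem_fib] at hx hy
      simp only [h, hx, hy, lt_irrefl, false_and, or_self, if_false]
    · rw [hm i j, ← hlt j i hij, Finset.sum_comm]
      exact Finset.sum_congr rfl fun x _ => Finset.sum_congr rfl fun y _ => hsym _ _

/-- matrix unit -/
def EE (a b x y : V) : ℤ := if x = a ∧ y = b then 1 else 0

theorem sum_EE (a b : V) (s t : Finset V) :
    ∑ x ∈ s, ∑ y ∈ t, EE a b x y = if a ∈ s ∧ b ∈ t then 1 else 0 := by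
  have : ∀ x y, EE a b x y = if x = a then (if y = b then 1 else 0) else 0 := by
    intro x y
    unfold EE
    by_cases h1 : x = a <;> by_cases h2 : y = b <;> simp [h1, h2]
  simp only [this]
  have h2 : ∀ x, (∑ y ∈ t, if x = a then (if y = b then (1 : ℤ) else 0) else 0) =
      if x = a then (if b ∈ t then 1 else 0) else 0 := by
    intro x
    by_cases h : x = a
    · simp [h]
    · simp [h]
  simp only [h2, Finset.sum_ite_eq']
  by_cases h1 : a ∈ s <;> by_cases h3 : b ∈ t <;> simp [h1, h3]

theorem row_EE (a b x : V) : ∑ y, EE a b x y = if x = a then 1 else 0 := by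
  unfold EE
  by_cases h : x = a <;> simp [h]

theorem nearreg_aux (π : V → P) (m : P → P → ℤ) : ∀ (N : ℕ) (h : V → V → ℤ), Val π m h →
    (∑ x, (∑ y, h x y) ^ 2).toNat = N →
    ∃ h', Val π m h' ∧ ∀ x y, π x = π y → ∑ w, h' x w ≤ (∑ w, h' y w) + 1 := by
  intro N
  induction N using Nat.strong_induction_on with
  | _ N ih =>
  intro h hv hN
  by_cases hex : ∃ u u', π u = π u' ∧ (∑ w, h u' w) + 2 ≤ ∑ w, h u w
  swap
  · push Not at hex
    refine ⟨h, hv, fun x y hxy => ?_⟩
    have := hex x y hxy
    omega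
  obtain ⟨u, u', huu, hdeg⟩ := hex
  have hne : u ≠ u' := by
    rintro rfl
    omega
  have hw : ∃ w, h u w = 1 ∧ h u' w = 0 := by
    by_contra hcon
    push Not at hcon
    have : ∑ w, h u w ≤ ∑ w, h u' w := by
      refine Finset.sum_le_sum fun w _ => ?_
      rcases hv.h01 u w with h1 | h1
      · rw [h1]
        rcases hv.h01 u' w with h2 | h2 <;> rw [h2]
        exact zero_le_one
      · have h2 := hcon w h1
        rcases hv.h01 u' w with h3 | h3
        · exact absurd h3 h2
        · rw [h1, h3]
    omega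
  obtain ⟨w, hw1, hw2⟩ := hw
  have hwp : π w ≠ π u := by
    intro h1
    have := hv.par u w h1.symm
    omega
  have hwu : w ≠ u := fun h1 => hwp (by rw [h1])
  have hwu' : w ≠ u' := fun h1 => hwp (by rw [h1, huu])
  let h' : V → V → ℤ := fun x y => h x y - EE u w x y - EE w u x y + EE u' w x y + EE w u' x y
  have hrow : ∀ x, ∑ y, h' x y = (∑ y, h x y) - (if x = u then 1 else 0) +
      (if x = u' then 1 else 0) := by
    intro x
    simp only [h', Finset.sum_add_distrib, Finset.sum_sub_distrib, row_EE]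
    ring
  have hv' : Val π m h' := by
    refine ⟨?_, ?_, ?_, ?_⟩
    · intro x y
      simp only [h', EE]
      by_cases c1 : x = u ∧ y = w
      · obtain ⟨rfl, rfl⟩ := c1
        simp [hw1, hne, hwu.symm, hwu']
      · by_cases c2 : x = w ∧ y = u
        · obtain ⟨rfl, rfl⟩ := c2
          simp [hv.sym x y, hw1, hne, hwu, hwu']
        · by_cases c3 : x = u' ∧ y = w
          · obtain ⟨rfl, rfl⟩ := c3
            simp [hw2, hne.symm, hwu.symm, hwu'.symm]
          · by_cases c4 : x = w ∧ y = u'
            · obtain ⟨rfl, rfl⟩ := c4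
              simp [hv.sym x y, hw2, hne.symm, hwu, hwu']
            · simp only [c1, c2, c3, c4, if_false, sub_zero, add_zero]
              exact hv.h01 x y
    · intro x y
      have e : ∀ a b, EE a b x y = EE b a y x := by
        intro a b
        unfold EE
        by_cases h1 : x = a <;> by_cases h2 : y = b <;> simp [h1, h2]
      simp only [h']
      rw [hv.sym x y, e u w, e w u, e u' w, e w u']
      ring
    · intro x y hxy
      have e : ∀ a b, π a ≠ π b → EE a b x y = 0 := by
        intro a b hab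
        unfold EE
        rw [if_neg]
        rintro ⟨rfl, rfl⟩
        exact hab hxy
      simp only [h']
      rw [hv.par x y hxy, e u w (fun h => hwp h.symm), e w u hwp,
        e u' w (fun h => hwp (by rw [huu, h])), e w u' (fun h => hwp (by rw [huu, h]))]
      ring
    · intro i j
      simp only [h', Finset.sum_add_distrib, Finset.sum_sub_distrib, sum_EE, hv.cnt, mem_fib, huu]
      ring
  refine ih _ ?_ h' hv' rfl
  rw [← hN]
  have hlt : ∑ x, (∑ y, h' x y) ^ 2 < ∑ x, (∑ y, h x y) ^ 2 := by
    simp only [hrow]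
    have hsum : ∀ x, ((∑ y, h x y) - (if x = u then 1 else 0) + (if x = u' then 1 else 0)) ^ 2 =
        (∑ y, h x y) ^ 2 + (if x = u then 1 - 2 * (∑ y, h u y) else 0) +
          (if x = u' then 1 + 2 * (∑ y, h u' y) else 0) := by
      intro x
      by_cases c1 : x = u
      · subst c1
        simp only [hne, if_true, if_false]
        ring
      · by_cases c2 : x = u'
        · subst c2
          simp only [c1, if_true, if_false]
          ring
        · simp only [c1, c2, if_false]
          ring
    simp only [hsum, Finset.sum_add_distrib, Finset.sum_ite_eq', Finset.mem_univ, if_true]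
    linarith
  have h0 : 0 ≤ ∑ x, (∑ y, h' x y) ^ 2 := Finset.sum_nonneg fun x _ => sq_nonneg _
  omega

theorem nearreg (π : V → P) (m : P → P → ℤ) (hm : ∀ i j, m i j = m j i) (hd : ∀ i, m i i = 0)
    (h0 : ∀ i j, 0 ≤ m i j) (h1 : ∀ i j, m i j ≤ (fib π i).card * (fib π j).card) :
    ∃ h, Val π m h ∧ ∀ x y, π x = π y → ∑ w, h x w ≤ (∑ w, h y w) + 1 := by
  obtain ⟨h, hv⟩ := exists_val π m hm hd h0 h1
  exact nearreg_aux π m _ h hv rfl

/-- sums of a nearly constant function -/
theorem near_le {s : Finset V} {f : V → ℤ} (hf : ∀ x ∈ s, ∀ y ∈ s, f x ≤ f y + 1) {c : ℤ}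
    (hc : ∑ x ∈ s, f x ≤ s.card * c) : ∀ x ∈ s, f x ≤ c := by
  intro x hx
  by_contra hcon
  push Not at hcon
  have : ∑ _y ∈ s, c < ∑ y ∈ s, f y :=
    Finset.sum_lt_sum (fun y hy => by have := hf x hx y hy; omega) ⟨x, hx, hcon⟩
  rw [Finset.sum_const, nsmul_eq_mul] at this
  linarith

theorem near_ge {s : Finset V} {f : V → ℤ} (hf : ∀ x ∈ s, ∀ y ∈ s, f x ≤ f y + 1) {c : ℤ}
    (hc : s.card * c ≤ ∑ x ∈ s, f x) : ∀ x ∈ s, c ≤ f x := by
  intro x hx
  by_contra hcon
  push Not at hcon
  have : ∑ y ∈ s, f y < ∑ _y ∈ s, c :=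
    Finset.sum_lt_sum (fun y hy => by have := hf y hy x hx; omega) ⟨x, hx, hcon⟩
  rw [Finset.sum_const, nsmul_eq_mul] at this
  linarith

end NearReg

end Pool.Agent.H55
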