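import Mathlib
import Pool.Agent.H28.VAL
import Pool.Agent.H28.Konig
import Pool.Agent.H55.Equalize
import Pool.Agent.H55.NearReg

/-!
From an equalised edge colouring of `G - V_p` to edge-disjoint perfect matchings of `G`.
-/

set_option autoImplicit false
set_option linter.unusedSectionVars false

namespace Pool.Agent.H55

open Finset SimpleGraph Pool.Agent.H28

section Asm

variable {V P : Type*} [Fintype V] [DecidableEq V] [Fintype P] [DecidableEq P]

theorem assemble (Z : Finset V) (H : SimpleGraph V) (k : ℕ)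
    (hHz : ∀ x y, H.Adj x y → x ∉ Z) (hk : 1 ≤ k)
    (hdeg1 : ∀ x, (H.neighborSet x).ncard ≤ k - 1)
    (hdeg2 : ∀ x, x ∉ Z → k ≤ (H.neighborSet x).ncard + Z.card)
    (hsum : (∑ x, ((k : ℤ) - (H.neighborSet x).ncard)) = k * (2 * Z.card : ℕ))
    (hev : Even (Fintype.card V)) :
    ∃ M : Fin k → SimpleGraph V, (∀ γ v, ∃! w, (M γ).Adj v w) ∧
      (∀ γ v w, (M γ).Adj v w → H.Adj v w ∨ (v ∉ Z ∧ w ∈ Z) ∨ (v ∈ Z ∧ w ∉ Z)) ∧
      ∀ γ γ', γ ≠ γ' → ∀ v w, (M γ).Adj v w → ¬ (M γ').Adj v w := by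
  classical
  set c := Z.card with hc
  have hcol : ECol H k := by
    have := vizing hdeg1
    have e : k - 1 + 1 = k := by omega
    rwa [e] at this
  obtain ⟨f, hf, hms⟩ := equalize (T := 2 * c) (by
    exact (even_two_mul c).add hev) hcol hsum
  -- vertices of `Z` miss everything
  have hZmiss : ∀ x ∈ Z, ∀ γ, γ < k → Miss H k f x γ := by
    intro x hx γ hγ
    exact ⟨hγ, fun v hv => absurd hx (hHz x v hv)⟩
  have hcardM : ∀ γ, γ < k → ((ms H k f γ) \ Z).card = c := by
    intro γ hγ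
    have hsub : Z ⊆ ms H k f γ := fun x hx => mem_ms.2 (hZmiss x hx γ hγ)
    rw [Finset.card_sdiff_of_subset hsub, hms γ hγ, ← hc]
    omega
  -- the bipartite graph between colours and vertices
  let R : (Fin k ⊕ V) → (Fin k ⊕ V) → Prop := fun x y =>
    ∃ (γ : Fin k) (v : V), x = Sum.inl γ ∧ y = Sum.inr v ∧ v ∉ Z ∧ Miss H k f v γ
  have hrow : ∀ a, {b | R a b}.ncard ≤ c := by
    intro a
    rcases a with γ | v
    · have h1 : {b | R (Sum.inl γ) b} ⊆ Sum.inr '' ((ms H k f γ \ Z : Finset V) : Set V) := by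
        rintro b ⟨γ', v, h1, h2, h3, h4⟩
        have : γ = γ' := Sum.inl_injective h1
        subst this
        refine ⟨v, ?_, h2.symm⟩
        rw [Finset.mem_coe, Finset.mem_sdiff, mem_ms]
        exact ⟨h4, h3⟩
      refine (Set.ncard_le_ncard h1 (Set.toFinite _)).trans ?_
      refine (Set.ncard_image_le (Set.toFinite _)).trans ?_
      rw [Set.ncard_coe_finset, hcardM γ γ.2]
    · have : {b | R (Sum.inr v) b} = ∅ := by
        rw [Set.eq_empty_iff_forall_notMem]
        rintro b ⟨γ', v, h1, _⟩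
        simp at h1
      rw [this]
      simp
  have hcolm : ∀ b, {a | R a b}.ncard ≤ c := by
    intro b
    rcases b with γ | v
    · have : {a | R a (Sum.inl γ)} = ∅ := by
        rw [Set.eq_empty_iff_forall_notMem]
        rintro a ⟨γ', v, _, h1, _⟩
        simp at h1
      rw [this]
      simp
    · by_cases hv : v ∈ Z
      · have : {a | R a (Sum.inr v)} = ∅ := by
          rw [Set.eq_empty_iff_forall_notMem]
          rintro a ⟨γ', v', _, h1, h2, _⟩
          have : v = v' := Sum.inr_injective h1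
          subst this
          exact h2 hv
        rw [this]
        simp
      · have h1 : ({a | R a (Sum.inr v)}).ncard ≤
            ((Finset.range k).filter (Miss H k f v) : Finset ℕ).card := by
          rw [← Set.ncard_coe_finset]
          apply Set.ncard_le_ncard_of_injOn (fun a => Sum.elim (fun γ : Fin k => (γ : ℕ)) (fun _ => 0) a)
          · rintro a ⟨γ, v', h1, h2, h3, h4⟩
            have : v = v' := Sum.inr_injective h2
            subst this
            subst h1
            simp only [Sum.elim_inl]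
            rw [Finset.mem_coe, Finset.mem_filter, Finset.mem_range]
            exact ⟨γ.2, h4⟩
          · rintro a ⟨γ, v', h1, h2, h3, h4⟩ a' ⟨γ', v'', h1', h2', h3', h4'⟩ heq
            subst h1
            subst h1'
            simp only [Sum.elim_inl] at heq
            rw [Fin.ext heq]
        have h2 := card_miss hf v
        have h3 := hdeg2 v hv
        omega
  obtain ⟨g, hg1, hg2, hg3⟩ := konig R c hrow hcolm
  -- enumeration of `Z`
  let e : Z ≃ Fin c := Z.equivFin
  obtain ⟨zt, hzt⟩ : ∃ zt : Fin k → V → ℕ, ∀ γ v, zt γ v = g (Sum.inl γ) (Sum.inr v) :=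
    ⟨_, fun _ _ => rfl⟩
  -- the partner relation into `Z`
  let B : Fin k → V → V → Prop := fun γ u v => u ∉ Z ∧ Miss H k f u γ ∧
    ∃ hv : v ∈ Z, (e ⟨v, hv⟩ : ℕ) = zt γ u
  have hRB : ∀ (γ : Fin k) u, u ∉ Z → Miss H k f u γ → R (Sum.inl γ) (Sum.inr u) := by
    intro γ u hu hm
    exact ⟨γ, u, rfl, rfl, hu, hm⟩
  have hB1 : ∀ (γ : Fin k) u, u ∉ Z → Miss H k f u γ → ∃ v, B γ u v := by
    intro γ u hu hm
    have h1 : zt γ u < c := by
      rw [hzt]
      exact hg1 _ _ (hRB γ u hu hm)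
    refine ⟨(e.symm ⟨zt γ u, h1⟩).1, hu, hm, (e.symm ⟨zt γ u, h1⟩).2, ?_⟩
    simp
  have hB2 : ∀ γ u v v', B γ u v → B γ u v' → v = v' := by
    rintro γ u v v' ⟨_, _, hv, h1⟩ ⟨_, _, hv', h2⟩
    have : e ⟨v, hv⟩ = e ⟨v', hv'⟩ := Fin.ext (h1.trans h2.symm)
    have := e.injective this
    exact congrArg Subtype.val this
  have hB3 : ∀ γ u u' v, B γ u v → B γ u' v → u = u' := by
    rintro γ u u' v ⟨hu, hm, hv, h1⟩ ⟨hu', hm', hv', h2⟩
    by_contra hne
    have h3 := hg2 (Sum.inl γ) (Sum.inr u) (Sum.inr u') (hRB γ u hu hm) (hRB γ u' hu' hm')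
      (fun h => hne (Sum.inr_injective h))
    apply h3
    rw [← hzt, ← hzt, ← h1, ← h2]
  have hB4 : ∀ (γ : Fin k) v, v ∈ Z → ∃ u, B γ u v := by
    intro γ v hv
    -- the map from missing vertices to `Fin c` is surjective
    have hsurj : ∀ t ∈ Finset.range c, ∃ u, ∃ hu : u ∈ ms H k f γ \ Z, t = zt γ u := by
      apply Finset.surj_on_of_inj_on_of_card_le (s := ms H k f γ \ Z) (t := Finset.range c)
        (fun u _ => zt γ u)
      · intro u hu
        rw [Finset.mem_sdiff, mem_ms] at hu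
        rw [Finset.mem_range, hzt]
        exact hg1 _ _ (hRB γ u hu.2 hu.1)
      · intro u u' hu hu' heq
        rw [Finset.mem_sdiff, mem_ms] at hu hu'
        by_contra hne
        have h3 := hg2 (Sum.inl γ) (Sum.inr u) (Sum.inr u') (hRB γ u hu.2 hu.1)
          (hRB γ u' hu'.2 hu'.1) (fun h => hne (Sum.inr_injective h))
        apply h3
        rw [← hzt, ← hzt]
        exact heq
      · rw [Finset.card_range, hcardM γ γ.2]
    obtain ⟨u, hu, hut⟩ := hsurj (e ⟨v, hv⟩ : ℕ) (Finset.mem_range.2 (e ⟨v, hv⟩).2)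
    rw [Finset.mem_sdiff, mem_ms] at hu
    exact ⟨u, hu.2, hu.1, hv, hut⟩
  let M : Fin k → SimpleGraph V := fun γ =>
    { Adj := fun u v => (H.Adj u v ∧ f s(u, v) = γ) ∨ B γ u v ∨ B γ v u
      symm := ⟨fun u v h => by
        rcases h with h | h | h
        · exact Or.inl ⟨h.1.symm, by rw [Sym2.eq_swap]; exact h.2⟩
        · exact Or.inr (Or.inr h)
        · exact Or.inr (Or.inl h)⟩
      loopless := ⟨fun u h => by
        rcases h with h | h | h
        · exact H.loopless.irrefl u h.1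
        · exact h.1 h.2.2.1
        · exact h.1 h.2.2.1⟩ }
  have hMadj : ∀ γ u v, (M γ).Adj u v ↔ (H.Adj u v ∧ f s(u, v) = γ) ∨ B γ u v ∨ B γ v u :=
    fun γ u v => Iff.rfl
  refine ⟨M, ?_, ?_, ?_⟩
  · intro γ v
    by_cases hv : v ∈ Z
    · obtain ⟨u, hu⟩ := hB4 γ v hv
      refine ⟨u, (hMadj _ _ _).2 (Or.inr (Or.inr hu)), ?_⟩
      intro w hw
      rcases (hMadj _ _ _).1 hw with h | h | h
      · exact absurd hv (hHz _ _ h.1)
      · exact absurd hv h.1
      · exact hB3 γ w u v h hu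
    · by_cases hm : Miss H k f v γ
      · obtain ⟨w, hw⟩ := hB1 γ v hv hm
        refine ⟨w, (hMadj _ _ _).2 (Or.inr (Or.inl hw)), ?_⟩
        intro w' hw'
        rcases (hMadj _ _ _).1 hw' with h | h | h
        · exact absurd h.2 (hm.2 w' h.1)
        · exact hB2 γ v w' w h hw
        · exact absurd h.2.2.1 hv
      · have : ∃ w, H.Adj v w ∧ f s(v, w) = γ := by
          by_contra hcon
          push Not at hcon
          exact hm ⟨γ.2, hcon⟩
        obtain ⟨w, hw⟩ := this
        refine ⟨w, (hMadj _ _ _).2 (Or.inl hw), ?_⟩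
        intro w' hw'
        rcases (hMadj _ _ _).1 hw' with h | h | h
        · by_contra hne
          exact hf.2 v w' w h.1 hw.1 hne (h.2.trans hw.2.symm)
        · exact absurd h.2.1 hm
        · exact absurd h.2.2.1 hv
  · intro γ v w h
    rcases (hMadj _ _ _).1 h with h | h | h
    · exact Or.inl h.1
    · exact Or.inr (Or.inl ⟨h.1, h.2.2.1⟩)
    · exact Or.inr (Or.inr ⟨h.2.2.1, h.1⟩)
  · intro γ γ' hne v w h h'
    have key : ∀ u x, B γ u x → ¬ B γ' u x := by
      rintro u x ⟨hu, hm, hx, h1⟩ ⟨_, hm', hx', h2⟩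
      have h3 := hg3 (Sum.inl γ) (Sum.inl γ') (Sum.inr u) (hRB γ u hu hm) (hRB γ' u hu hm')
        (fun h => hne (Sum.inl_injective h))
      apply h3
      rw [← hzt, ← hzt, ← h1, ← h2]
    have hZ : ∀ u x, B γ u x → ¬ B γ' x u := by
      rintro u x ⟨hu, _, _, _⟩ ⟨_, _, hx, _⟩
      exact hu hx
    have hZ' : ∀ δ u x, B δ u x → ¬ H.Adj u x := by
      rintro δ u x ⟨hu, _, hx, _⟩ hadj
      exact hHz x u hadj.symm hx
    rcases (hMadj _ _ _).1 h with h1 | h1 | h1 <;> rcases (hMadj _ _ _).1 h' with h2 | h2 | h2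
    · exact hne (Fin.ext (h1.2.symm.trans h2.2))
    · exact hZ' _ _ _ h2 h1.1
    · exact hZ' _ _ _ h2 h1.1.symm
    · exact hZ' _ _ _ h1 h2.1
    · exact key _ _ h1 h2
    · exact hZ _ _ h1 h2
    · exact hZ' _ _ _ h1 h2.1.symm
    · exact hZ _ _ h1 h2
    · exact key _ _ h1 h2

end Asm

end Pool.Agent.H55
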