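import Mathlib

/-!
Rounding a half-integral symmetric matrix to an integral symmetric matrix with the same row sums.
-/

set_option autoImplicit false
set_option linter.unusedSectionVars false

namespace Pool.Agent.H55

open Finset SimpleGraph

section Round

variable {P : Type*} [DecidableEq P]

/-- alternate `s, -s, s, …` along the edges of a walk -/
def opW {G : SimpleGraph P} : ∀ {u v : P}, G.Walk u v → ℤ → P → P → ℤ
  | _, _, .nil, _ => fun _ _ => 0
  | u, _, .cons (v := w) _ p, s => fun i j =>
      (if s(i, j) = s(u, w) then s else 0) + opW p (-s) i j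

theorem opW_symm {G : SimpleGraph P} {u v : P} (p : G.Walk u v) (s : ℤ) (i j : P) :
    opW p s i j = opW p s j i := by
  induction p generalizing s with
  | nil => rfl
  | cons h p ih =>
    simp only [opW]
    rw [ih, Sym2.eq_swap (a := i) (b := j)]

theorem opW_zero {G : SimpleGraph P} {u v : P} (p : G.Walk u v) (s : ℤ) (i j : P)
    (h : s(i, j) ∉ p.edges) : opW p s i j = 0 := by
  induction p generalizing s with
  | nil => rfl
  | cons h' p ih =>
    simp only [Walk.edges_cons, List.mem_cons, not_or] at h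
    simp only [opW, h.1, if_false, zero_add]
    exact ih _ h.2

theorem opW_one {G : SimpleGraph P} {u v : P} (p : G.Walk u v) (hp : p.IsTrail) (s : ℤ)
    (hs : s = 1 ∨ s = -1) (i j : P) (h : s(i, j) ∈ p.edges) :
    opW p s i j = 1 ∨ opW p s i j = -1 := by
  induction p generalizing s with
  | nil => simp at h
  | @cons a b _ h' p ih =>
    rw [Walk.isTrail_cons] at hp
    simp only [opW]
    by_cases he : s(i, j) = s(a, b)
    · rw [if_pos he, opW_zero p _ i j (by rw [he]; exact hp.2), add_zero]
      exact hs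
    · simp only [Walk.edges_cons, List.mem_cons] at h
      rw [if_neg he, zero_add]
      refine ih hp.1 (-s) (by rcases hs with h | h <;> simp [h]) (h.resolve_left he)

variable [Fintype P]

theorem opW_row {G : SimpleGraph P} {u v : P} (p : G.Walk u v) (s : ℤ) (i : P) :
    ∑ j, opW p s i j = (if i = u then s else 0) - (-1) ^ p.length * (if i = v then s else 0) := by
  induction p generalizing s with
  | nil => simp [opW]
  | @cons u w v h p ih =>
    simp only [opW, Finset.sum_add_distrib, ih, Walk.length_cons, pow_succ]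
    have : ∑ j, (if s(i, j) = s(u, w) then s else 0) =
        (if i = u then s else 0) + (if i = w then s else 0) := by
      have huw : u ≠ w := h.ne
      by_cases h1 : i = u
      · subst h1
        have : ∀ j, (if s(i, j) = s(i, w) then s else 0) = if j = w then s else 0 := by
          intro j
          by_cases hj : j = w
          · simp [hj]
          · rw [if_neg hj, if_neg]
            intro hh
            exact hj (Sym2.congr_right.1 hh)
        simp only [this]
        simp [huw]
      · by_cases h2 : i = w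
        · subst h2
          have : ∀ j, (if s(i, j) = s(u, i) then s else 0) = if j = u then s else 0 := by
            intro j
            by_cases hj : j = u
            · simp [hj, Sym2.eq_swap]
            · rw [if_neg hj, if_neg]
              intro hh
              rw [Sym2.eq_swap (a := u)] at hh
              exact hj (Sym2.congr_right.1 hh)
          simp only [this]
          simp [h1]
        · rw [if_neg h1, if_neg h2, add_zero]
          refine Finset.sum_eq_zero fun j _ => if_neg fun hh => ?_
          rw [Sym2.eq_iff] at hh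
          rcases hh with ⟨h3, _⟩ | ⟨h3, _⟩
          · exact h1 h3
          · exact h2 h3
    rw [this]
    split_ifs <;> ring

/-- The graph of odd entries. -/
def OG (y : P → P → ℤ) (hy : ∀ i j, y i j = y j i) : SimpleGraph P where
  Adj i j := i ≠ j ∧ Odd (y i j)
  symm := ⟨fun i j h => ⟨h.1.symm, by rw [hy]; exact h.2⟩⟩
  loopless := ⟨fun i h => h.1 rfl⟩

theorem even_degree (y : P → P → ℤ) (hy : ∀ i j, y i j = y j i) (hd : ∀ i, y i i = 0)
    (hrow : ∀ i, Even (∑ j, y i j)) (v : P) [Fintype ((OG y hy).neighborSet v)] :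
    Even ((OG y hy).degree v) := by
  classical
  have h1 : (OG y hy).degree v = (Finset.univ.filter (fun j => Odd (y v j))).card := by
    rw [← SimpleGraph.card_neighborFinset_eq_degree]
    congr 1
    ext j
    rw [SimpleGraph.mem_neighborFinset, Finset.mem_filter]
    constructor
    · intro h
      exact ⟨Finset.mem_univ _, h.2⟩
    · rintro ⟨_, h⟩
      refine ⟨?_, h⟩
      rintro rfl
      rw [hd] at h
      simp at h
  rw [h1]
  have h2 := hrow v
  have h3 : Even (∑ j, (y v j - if Odd (y v j) then 1 else 0)) := by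
    refine Finset.even_sum _ fun j _ => ?_
    by_cases h : Odd (y v j)
    · rw [if_pos h]
      exact h.sub_odd odd_one
    · rw [if_neg h, sub_zero]
      exact Int.not_odd_iff_even.1 h
  rw [Finset.sum_sub_distrib, Finset.sum_boole] at h3
  have h4 := h2.sub h3
  rw [sub_sub_cancel] at h4
  exact_mod_cast h4

theorem exists_closed_trail (G : SimpleGraph P) [DecidableRel G.Adj]
    (hG : ∀ v, Even (G.degree v)) {u b : P} (hub : G.Adj u b) :
    ∃ w : G.Walk u u, w.IsTrail ∧ 0 < w.length := by
  classical
  -- trails from `u` with positive length have bounded length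
  let S : Set ℕ := {n | ∃ v, ∃ w : G.Walk u v, w.IsTrail ∧ w.length = n}
  have hS1 : (1 : ℕ) ∈ S := ⟨b, .cons hub .nil, by simp, by simp⟩
  have hSb : BddAbove S := by
    refine ⟨G.edgeFinset.card, ?_⟩
    rintro n ⟨v, w, hw, rfl⟩
    exact hw.length_le_card_edgeFinset
  obtain ⟨v, w, hw, hlen⟩ := Nat.sSup_mem ⟨1, hS1⟩ hSb
  have hpos : 0 < w.length := by
    rw [hlen]
    exact le_csSup hSb hS1
  by_cases hvu : u = v
  · subst hvu
    exact ⟨w, hw, hpos⟩
  · exfalso
    have hodd : ¬ Even (w.edges.countP fun e => v ∈ e) := by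
      rw [hw.even_countP_edges_iff v]
      intro h
      exact (h hvu).2 rfl
    have hex : ∃ c, G.Adj v c ∧ s(v, c) ∉ w.edges := by
      by_contra hcon
      push Not at hcon
      apply hodd
      have : (w.edges.countP fun e => v ∈ e) = G.degree v := by
        rw [← SimpleGraph.card_incidenceFinset_eq_degree, List.countP_eq_length_filter]
        rw [← List.toFinset_card_of_nodup (hw.edges_nodup.filter _)]
        congr 1
        ext e
        rw [List.mem_toFinset, List.mem_filter, SimpleGraph.mem_incidenceFinset]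
        constructor
        · rintro ⟨h1, h2⟩
          exact ⟨w.edges_subset_edgeSet h1, by simpa using h2⟩
        · rintro ⟨h1, h2⟩
          refine ⟨?_, by simpa using h2⟩
          obtain ⟨c, rfl⟩ := Sym2.mem_iff_exists.1 h2
          exact hcon c h1
      rw [this]
      exact hG v
    obtain ⟨c, hc1, hc2⟩ := hex
    have hmem : w.length + 1 ∈ S := by
      refine ⟨c, w.concat hc1, ?_, by simp⟩
      rw [SimpleGraph.Walk.isTrail_def, SimpleGraph.Walk.edges_concat]
      exact hw.edges_nodup.concat hc2
    have := le_csSup hSb hmem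
    omega

omit [DecidableEq P] in
/-- A symmetric integral matrix with zero diagonal has even total sum. -/
theorem even_sum_symm (m : P → P → ℤ) (hm : ∀ i j, m i j = m j i) (hd : ∀ i, m i i = 0) :
    Even (∑ i, ∑ j, m i j) := by
  rw [← Finset.sum_product', ← ZMod.intCast_eq_zero_iff_even]
  push_cast
  refine Finset.sum_involution (fun a _ => (a.2, a.1)) ?_ ?_ ?_ ?_
  · rintro ⟨i, j⟩ _
    simp only
    rw [hm j i]
    exact CharTwo.add_self_eq_zero _
  · rintro ⟨i, j⟩ _ h heq
    simp only [Prod.mk.injEq] at heq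
    rw [heq.1] at h
    simp [hd] at h
  · rintro ⟨i, j⟩ _
    simp
  · rintro ⟨i, j⟩ _
    rfl


theorem trail_odd {y : P → P → ℤ} {hy : ∀ i j, y i j = y j i} {u v : P}
    (w : (OG y hy).Walk u v) {i j : P} (h : s(i, j) ∈ w.edges) : Odd (y i j) :=
  (w.edges_subset_edgeSet h : (OG y hy).Adj i j).2

/-- The parity of the entries after an alternating trail. -/
theorem trail_parity {y : P → P → ℤ} {hy : ∀ i j, y i j = y j i} {u v : P}
    (w : (OG y hy).Walk u v) (hw : w.IsTrail) (s : ℤ) (hs : s = 1 ∨ s = -1) (i j : P) :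
    Odd (y i j + opW w s i j) ↔ Odd (y i j) ∧ s(i, j) ∉ w.edges := by
  by_cases h : s(i, j) ∈ w.edges
  · have h1 := trail_odd w h
    have h2 : Odd (opW w s i j) := by
      rcases opW_one w hw s hs i j h with h3 | h3 <;> rw [h3]
      · exact odd_one
      · exact odd_one.neg
    constructor
    · intro h3
      exact absurd h3 (Int.not_odd_iff_even.2 (h1.add_odd h2))
    · rintro ⟨_, h3⟩
      exact absurd h h3
  · rw [opW_zero w s i j h, add_zero]
    tauto

theorem trail_bound {L U : P → P → ℤ} {y : P → P → ℤ} {hy : ∀ i j, y i j = y j i}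
    (hb : ∀ i j, 2 * L i j ≤ y i j ∧ y i j ≤ 2 * U i j) {u v : P}
    (w : (OG y hy).Walk u v) (hw : w.IsTrail) (s : ℤ) (hs : s = 1 ∨ s = -1) (i j : P) :
    2 * L i j ≤ y i j + opW w s i j ∧ y i j + opW w s i j ≤ 2 * U i j := by
  by_cases h : s(i, j) ∈ w.edges
  · have h1 := trail_odd w h
    obtain ⟨t, ht⟩ := h1
    have := hb i j
    rcases opW_one w hw s hs i j h with h3 | h3 <;> rw [h3] <;> omega
  · rw [opW_zero w s i j h, add_zero]
    exact hb i j

theorem round_aux (L U : P → P → ℤ) (hL : ∀ i j, L i j = L j i) (hU : ∀ i j, U i j = U j i)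
    (r : P → ℤ) (p : P) (hr : Even (∑ i, r i))
    (hLU : ∀ i j, i ≠ j → i ≠ p → j ≠ p → L i j < U i j) :
    ∀ (n : ℕ) (y : P → P → ℤ), (∀ i j, y i j = y j i) → (∀ i, y i i = 0) →
    (∀ i j, 2 * L i j ≤ y i j ∧ y i j ≤ 2 * U i j) → (∀ i, ∑ j, y i j = 2 * r i) →
    (Finset.univ.filter (fun x : P × P => Odd (y x.1 x.2))).card = n →
    ∃ m : P → P → ℤ, (∀ i j, m i j = m j i) ∧ (∀ i, m i i = 0) ∧
      (∀ i j, L i j ≤ m i j ∧ m i j ≤ U i j) ∧ ∀ i, ∑ j, m i j = r i := by
  intro n
  induction n using Nat.strong_induction_on with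
  | _ n ih =>
  intro y hy hd hb hrow hn
  by_cases hodd : ∃ a b, Odd (y a b)
  swap
  · push Not at hodd
    have heven : ∀ i j, 2 * (y i j / 2) = y i j := fun i j =>
      Int.two_mul_ediv_two_of_even (Int.not_odd_iff_even.1 (hodd i j))
    refine ⟨fun i j => y i j / 2, fun i j => by beta_reduce; rw [hy], fun i => by simp [hd],
      fun i j => ?_, fun i => ?_⟩
    · have := hb i j
      have := heven i j
      beta_reduce
      constructor <;> omega
    · have h1 := hrow i
      have h2 : ∑ j, y i j = 2 * ∑ j, y i j / 2 := by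
        rw [Finset.mul_sum]
        exact Finset.sum_congr rfl fun j _ => (heven i j).symm
      linarith
  -- the reduction principle
  have key : ∀ y' : P → P → ℤ, (∀ i j, y' i j = y' j i) →
      (∀ i j, 2 * L i j ≤ y' i j ∧ y' i j ≤ 2 * U i j) → (∀ i, ∑ j, y' i j = 2 * r i) →
      (∀ i j, Odd (y' i j) → Odd (y i j)) → (∃ a b, Odd (y a b) ∧ ¬ Odd (y' a b)) →
      (∀ i, y' i i = 0) →
      ∃ m : P → P → ℤ, (∀ i j, m i j = m j i) ∧ (∀ i, m i i = 0) ∧
      (∀ i j, L i j ≤ m i j ∧ m i j ≤ U i j) ∧ ∀ i, ∑ j, m i j = r i := by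
    intro y' h1 h2 h3 h4 h5 h6
    refine ih _ ?_ y' h1 h6 h2 h3 rfl
    rw [← hn]
    apply Finset.card_lt_card
    rw [Finset.ssubset_iff_of_subset]
    · obtain ⟨a, b, hab, hab'⟩ := h5
      exact ⟨(a, b), by simp [hab], by simpa using hab'⟩
    · intro x hx
      rw [Finset.mem_filter] at hx ⊢
      exact ⟨hx.1, h4 _ _ hx.2⟩
  -- diagonal entries are not touched by walks
  have hdiag : ∀ {u v : P} (w : (OG y hy).Walk u v) (s : ℤ) (i : P), opW w s i i = 0 := by
    intro u v w s i
    apply opW_zero
    intro h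
    exact (w.edges_subset_edgeSet h : (OG y hy).Adj i i).1 rfl
  -- closed trails of even length
  have even_red : ∀ {u : P} (w : (OG y hy).Walk u u), w.IsTrail → 0 < w.length →
      Even w.length → ∃ m : P → P → ℤ, (∀ i j, m i j = m j i) ∧ (∀ i, m i i = 0) ∧
      (∀ i j, L i j ≤ m i j ∧ m i j ≤ U i j) ∧ ∀ i, ∑ j, m i j = r i := by
    intro u w hw hpos hev
    refine key (fun i j => y i j + opW w 1 i j) (fun i j => by rw [hy, opW_symm]) ?_ ?_ ?_ ?_ ?_
    · exact trail_bound hb w hw 1 (Or.inl rfl)
    · intro i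
      rw [Finset.sum_add_distrib, hrow, opW_row, hev.neg_one_pow]
      ring
    · intro i j h
      exact ((trail_parity w hw 1 (Or.inl rfl) i j).1 h).1
    · cases w with
      | nil => simp at hpos
      | @cons a b _ h q =>
        refine ⟨u, b, h.2, fun hcon => ?_⟩
        exact ((trail_parity _ hw 1 (Or.inl rfl) u b).1 hcon).2 (by simp)
    · intro i
      simp only [hd, hdiag, add_zero]
  classical
  have hdegG : ∀ v, Even ((OG y hy).degree v) := by
    intro v
    apply even_degree _ hy hd
    intro i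
    rw [hrow]
    exact even_two_mul _
  -- a starting vertex
  obtain ⟨u, b, hup, hub⟩ : ∃ u b, u ≠ p ∧ (OG y hy).Adj u b := by
    obtain ⟨a, b, hab⟩ := hodd
    have hne : a ≠ b := by
      rintro rfl
      rw [hd] at hab
      simp at hab
    by_cases hap : a = p
    · exact ⟨b, a, fun h => hne (hap.trans h.symm), ⟨hne.symm, by rw [hy]; exact hab⟩⟩
    · exact ⟨a, b, hap, ⟨hne, hab⟩⟩
  obtain ⟨w1, hw1, hw1pos⟩ := exists_closed_trail (OG y hy) hdegG hub
  by_cases hev1 : Even w1.length
  · exact even_red w1 hw1 hw1pos hev1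
  rw [Nat.not_even_iff_odd] at hev1
  -- the residual
  obtain ⟨y1, hy1def⟩ : ∃ y1 : P → P → ℤ, ∀ i j, y1 i j = y i j + opW w1 1 i j :=
    ⟨_, fun _ _ => rfl⟩
  have hy1 : ∀ i j, y1 i j = y1 j i := fun i j => by rw [hy1def, hy1def, hy, opW_symm]
  have hd1 : ∀ i, y1 i i = 0 := fun i => by rw [hy1def, hd, hdiag, add_zero]
  have hrow1 : ∀ i, ∑ j, y1 i j = 2 * (r i + if i = u then 1 else 0) := by
    intro i
    simp only [hy1def]
    rw [Finset.sum_add_distrib, hrow, opW_row, hev1.neg_one_pow]
    ring
  have hpar1 : ∀ i j, Odd (y1 i j) ↔ Odd (y i j) ∧ s(i, j) ∉ w1.edges := by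
    intro i j
    rw [hy1def]
    exact trail_parity w1 hw1 1 (Or.inl rfl) i j
  have hle : OG y1 hy1 ≤ OG y hy := by
    intro a b hab
    exact ⟨hab.1, ((hpar1 a b).1 hab.2).1⟩
  have hdegG1 : ∀ v, Even ((OG y1 hy1).degree v) := by
    intro v
    apply even_degree _ hy1 hd1
    intro i
    rw [hrow1]
    exact even_two_mul _
  -- the residual is non empty
  have hne1 : ∃ a b, (OG y1 hy1).Adj a b := by
    by_contra hcon
    push Not at hcon
    have heven : ∀ i j, 2 * (y1 i j / 2) = y1 i j := fun i j => by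
      apply Int.two_mul_ediv_two_of_even
      rw [← Int.not_odd_iff_even]
      intro hodd'
      by_cases hij : i = j
      · subst hij
        rw [hd1] at hodd'
        simp at hodd'
      · exact hcon i j ⟨hij, hodd'⟩
    have h1 := even_sum_symm (fun i j => y1 i j / 2) (fun i j => by beta_reduce; rw [hy1])
      (fun i => by simp [hd1])
    have h2 : ∑ i, ∑ j, y1 i j / 2 = (∑ i, r i) + 1 := by
      have h3 : ∀ i, ∑ j, y1 i j / 2 = r i + if i = u then 1 else 0 := by
        intro i
        have h4 := hrow1 i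
        have h5 : ∑ j, y1 i j = 2 * ∑ j, y1 i j / 2 := by
          rw [Finset.mul_sum]
          exact Finset.sum_congr rfl fun j _ => (heven i j).symm
        linarith
      simp only [h3, Finset.sum_add_distrib]
      simp
    rw [h2] at h1
    exact (Int.not_odd_iff_even.2 h1) (hr.add_odd odd_one)
  have hdisj : ∀ {v : P} (w2 : (OG y1 hy1).Walk v v) (e : Sym2 P), e ∈ w2.edges →
      e ∉ w1.edges := by
    intro v w2 e he
    induction e with
    | _ i j =>
      have h1 : (OG y1 hy1).Adj i j := w2.edges_subset_edgeSet he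
      exact ((hpar1 i j).1 h1.2).2
  by_cases hcase : ∃ v ∈ w1.support, ∃ b, (OG y1 hy1).Adj v b
  · -- two odd closed trails with a common vertex
    obtain ⟨v, hv, b, hvb⟩ := hcase
    obtain ⟨w2, hw2, hw2pos⟩ := exists_closed_trail (OG y1 hy1) hdegG1 hvb
    by_cases hev2 : Even w2.length
    · exact even_red (w2.mapLe hle) ((SimpleGraph.Walk.isTrail_mapLe hle).2 hw2) (by simpa using hw2pos)
        (by simpa using hev2)
    rw [Nat.not_even_iff_odd] at hev2
    refine even_red ((w1.rotate v hv).append (w2.mapLe hle)) ?_ ?_ ?_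
    · rw [SimpleGraph.Walk.isTrail_def, SimpleGraph.Walk.edges_append,
        SimpleGraph.Walk.edges_mapLe_eq_edges, List.nodup_append]
      refine ⟨(hw1.rotate hv).edges_nodup, hw2.edges_nodup, ?_⟩
      intro e he e' he' heq
      subst heq
      exact hdisj w2 e he' ((w1.rotate_edges v hv).perm.mem_iff.1 he)
    · simp
      omega
    · simp
      exact hev1.add_odd hev2
  · -- two odd closed trails in different components
    push Not at hcase
    obtain ⟨v, b, hvp, hvb⟩ : ∃ v b, v ≠ p ∧ (OG y1 hy1).Adj v b := by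
      obtain ⟨a, b, hab⟩ := hne1
      by_cases hap : a = p
      · exact ⟨b, a, fun h => hab.1 (hap.trans h.symm), hab.symm⟩
      · exact ⟨a, b, hap, hab⟩
    obtain ⟨w2, hw2, hw2pos⟩ := exists_closed_trail (OG y1 hy1) hdegG1 hvb
    by_cases hev2 : Even w2.length
    · exact even_red (w2.mapLe hle) ((SimpleGraph.Walk.isTrail_mapLe hle).2 hw2) (by simpa using hw2pos)
        (by simpa using hev2)
    rw [Nat.not_even_iff_odd] at hev2
    have husup : u ∈ w1.support := w1.start_mem_support
    have hvsup : v ∉ w1.support := fun h => hcase v h b hvb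
    have huv : u ≠ v := by
      rintro rfl
      exact hvsup husup
    have huv1 : s(u, v) ∉ w1.edges := fun h => hvsup (w1.snd_mem_support_of_mem_edges h)
    have huv2 : s(u, v) ∉ w2.edges := fun h => by
      have : (OG y1 hy1).Adj u v := w2.edges_subset_edgeSet h
      exact hcase u husup v this
    have hyuv : ¬ Odd (y u v) := by
      intro h
      exact hcase u husup v ⟨huv, (hpar1 u v).2 ⟨h, huv1⟩⟩
    have hlu := hLU u v huv hup hvp
    -- the sign
    obtain ⟨s, hs, hs1, hs2⟩ : ∃ s : ℤ, (s = 1 ∨ s = -1) ∧ 2 * L u v ≤ y u v - 2 * s ∧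
        y u v - 2 * s ≤ 2 * U u v := by
      have h1 := hb u v
      rw [Int.not_odd_iff_even] at hyuv
      obtain ⟨t, ht⟩ := hyuv
      by_cases h2 : y u v ≤ 2 * U u v - 2
      · exact ⟨-1, Or.inr rfl, by omega, by omega⟩
      · exact ⟨1, Or.inl rfl, by omega, by omega⟩
    obtain ⟨c, hc⟩ : ∃ c : P → P → ℤ, ∀ i j, c i j = if s(i, j) = s(u, v) then -2 * s else 0 :=
      ⟨_, fun _ _ => rfl⟩
    have hcsymm : ∀ i j, c i j = c j i := fun i j => by
      rw [hc, hc, Sym2.eq_swap (a := i) (b := j)]
    have hcrow : ∀ i, ∑ j, c i j = (if i = u then -2 * s else 0) + if i = v then -2 * s else 0 := by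
      intro i
      have := opW_row (G := ⊤) (SimpleGraph.Walk.cons (show (⊤ : SimpleGraph P).Adj u v from huv)
        SimpleGraph.Walk.nil) (-2 * s) i
      simp only [opW, add_zero, SimpleGraph.Walk.length_cons, SimpleGraph.Walk.length_nil, zero_add,
        pow_one] at this
      simp only [hc]
      rw [this]
      ring
    let w2' := w2.mapLe hle
    have hw2' : w2'.IsTrail := (SimpleGraph.Walk.isTrail_mapLe hle).2 hw2
    have hw2e : w2'.edges = w2.edges := SimpleGraph.Walk.edges_mapLe_eq_edges ..
    have hw2l : w2'.length = w2.length := SimpleGraph.Walk.length_mapLe ..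
    have hent : ∀ i j, (s(i, j) ∈ w1.edges ∧ opW w2' s i j = 0 ∧ c i j = 0) ∨
        (s(i, j) ∈ w2'.edges ∧ opW w1 s i j = 0 ∧ c i j = 0) ∨
        (s(i, j) ∉ w1.edges ∧ s(i, j) ∉ w2'.edges ∧ opW w1 s i j = 0 ∧ opW w2' s i j = 0) := by
      intro i j
      by_cases h1 : s(i, j) ∈ w1.edges
      · left
        refine ⟨h1, opW_zero _ _ _ _ (fun h => ?_), ?_⟩
        · rw [hw2e] at h
          exact hdisj w2 _ h h1
        · rw [hc, if_neg]
          intro h
          rw [h] at h1
          exact huv1 h1
      · by_cases h2 : s(i, j) ∈ w2'.edges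
        · right; left
          refine ⟨h2, opW_zero _ _ _ _ h1, ?_⟩
          rw [hc, if_neg]
          intro h
          rw [h, hw2e] at h2
          exact huv2 h2
        · right; right
          exact ⟨h1, h2, opW_zero _ _ _ _ h1, opW_zero _ _ _ _ h2⟩
    have hcpar : ∀ i j, Even (c i j) := by
      intro i j
      rw [hc]
      split_ifs
      · rw [neg_mul]
        exact (even_two_mul _).neg
      · exact Even.zero
    refine key (fun i j => y i j + opW w1 s i j + opW w2' s i j + c i j) (fun i j => ?_) ?_ ?_ ?_ ?_ ?_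
    · beta_reduce
      rw [hy, opW_symm w1, opW_symm w2', hcsymm]
    · intro i j
      beta_reduce
      rcases hent i j with ⟨h1, h2, h3⟩ | ⟨h1, h2, h3⟩ | ⟨h1, h2, h3, h4⟩
      · rw [h2, h3, add_zero, add_zero]
        exact trail_bound hb w1 hw1 s hs i j
      · rw [h2, h3, add_zero, add_zero]
        exact trail_bound hb w2' hw2' s hs i j
      · rw [h3, h4, add_zero, add_zero, hc]
        split_ifs with h5
        · rw [Sym2.eq_iff] at h5
          rcases h5 with ⟨rfl, rfl⟩ | ⟨rfl, rfl⟩
          · constructor <;> linarith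
          · rw [hy, hL, hU]
            constructor <;> linarith
        · rw [add_zero]
          exact hb i j
    · intro i
      simp only [Finset.sum_add_distrib]
      rw [hrow, opW_row, opW_row, hcrow, hev1.neg_one_pow, hw2l, hev2.neg_one_pow]
      split_ifs <;> ring
    · intro i j h
      beta_reduce at h
      rcases hent i j with ⟨h1, h2, h3⟩ | ⟨h1, h2, h3⟩ | ⟨h1, h2, h3, h4⟩
      · exact trail_odd w1 h1
      · exact trail_odd w2' h1
      · rw [h3, h4, add_zero, add_zero] at h
        have := h.sub_even (hcpar i j)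
        rwa [add_sub_cancel_right] at this
    · have h1 : 0 < w1.length := hw1pos
      obtain ⟨a, b, hab⟩ : ∃ a b, s(a, b) ∈ w1.edges := by
        cases hw : w1 with
        | nil => rw [hw] at h1; simp at h1
        | @cons a b _ h q => exact ⟨u, b, by simp⟩
      refine ⟨a, b, trail_odd w1 hab, ?_⟩
      have h2 := trail_parity w1 hw1 s hs a b
      rcases hent a b with ⟨h3, h4, h5⟩ | ⟨h3, h4, h5⟩ | ⟨h3, h4, h5, h6⟩
      · beta_reduce
        rw [h4, h5, add_zero, add_zero, h2]
        exact fun h => h.2 hab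
      · exfalso
        rw [hw2e] at h3
        exact hdisj w2 _ h3 hab
      · exact absurd hab h3
    · intro i
      beta_reduce
      rw [hd, hdiag, hdiag, hc, if_neg]
      · simp
      · intro h
        rw [Sym2.eq_iff] at h
        rcases h with ⟨h1, h2⟩ | ⟨h1, h2⟩
        · exact huv (h1.symm.trans h2)
        · exact huv (h2.symm.trans h1)

/-- Rounding: a half-integral symmetric solution can be replaced by an integral one. -/
theorem round (L U : P → P → ℤ) (hL : ∀ i j, L i j = L j i) (hU : ∀ i j, U i j = U j i)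
    (r : P → ℤ) (p : P) (hr : Even (∑ i, r i))
    (hLU : ∀ i j, i ≠ j → i ≠ p → j ≠ p → L i j < U i j) (y : P → P → ℤ)
    (hy : ∀ i j, y i j = y j i) (hd : ∀ i, y i i = 0)
    (hb : ∀ i j, 2 * L i j ≤ y i j ∧ y i j ≤ 2 * U i j) (hrow : ∀ i, ∑ j, y i j = 2 * r i) :
    ∃ m : P → P → ℤ, (∀ i j, m i j = m j i) ∧ (∀ i, m i i = 0) ∧
      (∀ i j, L i j ≤ m i j ∧ m i j ≤ U i j) ∧ ∀ i, ∑ j, m i j = r i :=
  round_aux L U hL hU r p hr hLU _ y hy hd hb hrow rfl

end Round

end Pool.Agent.H55
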