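import Mathlib

/-!
Integral matrices with prescribed row sums, column sums and entrywise bounds
(Hoffman's theorem for transportation problems).
-/

set_option autoImplicit false

namespace Pool.Agent.H55

open Finset

section Transport

variable {P Q : Type*} [Fintype P] [Fintype Q] [DecidableEq P] [DecidableEq Q]

/-- contribution of an entry to the cut `(I, J)` -/
def cutE (l u : ℤ) (a b : Prop) [Decidable a] [Decidable b] : ℤ :=
  if a ∧ b then u else if ¬ a ∧ ¬ b then -l else 0

/-- the cut function -/
def cutG (l u : P → Q → ℤ) (r : P → ℤ) (s : Q → ℤ) (I : Finset P) (J : Finset Q) : ℤ :=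
  (∑ i, ∑ j, cutE (l i j) (u i j) (i ∈ I) (j ∈ J)) + (∑ i, if i ∈ I then - r i else 0) +
    ∑ j, if j ∈ J then 0 else s j

theorem cutE_sub (l u : ℤ) (h : l ≤ u) (a b a' b' : Prop) [Decidable a] [Decidable b]
    [Decidable a'] [Decidable b'] :
    cutE l u (a ∧ a') (b ∨ b') + cutE l u (a ∨ a') (b ∧ b') ≤ cutE l u a b + cutE l u a' b' := by
  unfold cutE
  by_cases ha : a <;> by_cases hb : b <;> by_cases ha' : a' <;> by_cases hb' : b' <;>
    simp [ha, hb, ha', hb'] <;> linarith

theorem cutE_sub_strict (l u : ℤ) (a b a' b' : Prop) [Decidable a] [Decidable b]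
    [Decidable a'] [Decidable b'] (ha : a) (hb : b) (ha' : ¬ a') (hb' : ¬ b') :
    cutE l u (a ∧ a') (b ∨ b') + cutE l u (a ∨ a') (b ∧ b') + (u - l) ≤
      cutE l u a b + cutE l u a' b' := by
  unfold cutE
  simp [ha, hb, ha', hb']

theorem cutG_sub (l u : P → Q → ℤ) (r : P → ℤ) (s : Q → ℤ) (hlu : ∀ i j, l i j ≤ u i j)
    (I I' : Finset P) (J J' : Finset Q) (i0 : P) (j0 : Q) (h1 : i0 ∈ I) (h2 : j0 ∈ J)
    (h3 : i0 ∉ I') (h4 : j0 ∉ J') :
    cutG l u r s (I ∩ I') (J ∪ J') + cutG l u r s (I ∪ I') (J ∩ J') + (u i0 j0 - l i0 j0) ≤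
      cutG l u r s I J + cutG l u r s I' J' := by
  have e1 : ∑ i, ∑ j, (cutE (l i j) (u i j) (i ∈ I ∩ I') (j ∈ J ∪ J') +
      cutE (l i j) (u i j) (i ∈ I ∪ I') (j ∈ J ∩ J') +
      (if i = i0 then if j = j0 then u i0 j0 - l i0 j0 else 0 else 0)) ≤
      ∑ i, ∑ j, (cutE (l i j) (u i j) (i ∈ I) (j ∈ J) +
        cutE (l i j) (u i j) (i ∈ I') (j ∈ J')) := by
    refine Finset.sum_le_sum fun i _ => Finset.sum_le_sum fun j _ => ?_
    simp only [Finset.mem_inter, Finset.mem_union]
    by_cases hi : i = i0
    · by_cases hj : j = j0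
      · subst hi; subst hj
        simp only [if_true]
        exact cutE_sub_strict _ _ _ _ _ _ h1 h2 h3 h4
      · simp only [hi, hj, if_true, if_false, add_zero]
        exact cutE_sub _ _ (hlu _ _) _ _ _ _
    · simp only [hi, if_false, add_zero]
      exact cutE_sub _ _ (hlu _ _) _ _ _ _
  have e2 : (∑ i, if i ∈ I ∩ I' then - r i else 0) + (∑ i, if i ∈ I ∪ I' then - r i else 0) =
      (∑ i, if i ∈ I then - r i else 0) + (∑ i, if i ∈ I' then - r i else 0) := by
    rw [← Finset.sum_add_distrib, ← Finset.sum_add_distrib]
    refine Finset.sum_congr rfl fun i _ => ?_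
    by_cases h : i ∈ I <;> by_cases h' : i ∈ I' <;> simp [h, h']
  have e3 : (∑ j, if j ∈ J ∪ J' then 0 else s j) + (∑ j, if j ∈ J ∩ J' then 0 else s j) =
      (∑ j, if j ∈ J then 0 else s j) + (∑ j, if j ∈ J' then 0 else s j) := by
    rw [← Finset.sum_add_distrib, ← Finset.sum_add_distrib]
    refine Finset.sum_congr rfl fun i _ => ?_
    by_cases h : i ∈ J <;> by_cases h' : i ∈ J' <;> simp [h, h']
  simp only [Finset.sum_add_distrib] at e1
  have e4 : (∑ i, ∑ j, if i = i0 then if j = j0 then u i0 j0 - l i0 j0 else 0 else 0) =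
      u i0 j0 - l i0 j0 := by
    simp
  rw [e4] at e1
  unfold cutG
  linarith

theorem cutE_u (l u : ℤ) (a b : Prop) [Decidable a] [Decidable b] :
    cutE l (u - 1) a b = cutE l u a b - if a ∧ b then 1 else 0 := by
  unfold cutE
  by_cases ha : a <;> by_cases hb : b <;> simp [ha, hb]

theorem cutE_l (l u : ℤ) (a b : Prop) [Decidable a] [Decidable b] :
    cutE (l + 1) u a b = cutE l u a b - if ¬ a ∧ ¬ b then 1 else 0 := by
  unfold cutE
  by_cases ha : a <;> by_cases hb : b <;> simp [ha, hb] <;> ring

theorem cutG_u (l u : P → Q → ℤ) (r : P → ℤ) (s : Q → ℤ) (I : Finset P) (J : Finset Q)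
    (i0 : P) (j0 : Q) :
    cutG l (fun i j => if i = i0 ∧ j = j0 then u i j - 1 else u i j) r s I J =
      cutG l u r s I J - if i0 ∈ I ∧ j0 ∈ J then 1 else 0 := by
  have e : (∑ i, ∑ j, cutE (l i j) (if i = i0 ∧ j = j0 then u i j - 1 else u i j) (i ∈ I) (j ∈ J))
      = (∑ i, ∑ j, cutE (l i j) (u i j) (i ∈ I) (j ∈ J)) - if i0 ∈ I ∧ j0 ∈ J then 1 else 0 := by
    have : ∀ i j, cutE (l i j) (if i = i0 ∧ j = j0 then u i j - 1 else u i j) (i ∈ I) (j ∈ J) =
        cutE (l i j) (u i j) (i ∈ I) (j ∈ J) -
          (if i = i0 then if j = j0 then (if i0 ∈ I ∧ j0 ∈ J then 1 else 0) else 0 else 0) := by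
      intro i j
      by_cases hi : i = i0
      · by_cases hj : j = j0
        · subst hi; subst hj
          simp only [and_self, if_true]
          exact cutE_u _ _ _ _
        · simp [hj]
      · simp [hi]
    simp only [this, Finset.sum_sub_distrib]
    congr 1
    simp
  unfold cutG
  rw [e]
  ring

theorem cutG_l (l u : P → Q → ℤ) (r : P → ℤ) (s : Q → ℤ) (I : Finset P) (J : Finset Q)
    (i0 : P) (j0 : Q) :
    cutG (fun i j => if i = i0 ∧ j = j0 then l i j + 1 else l i j) u r s I J =
      cutG l u r s I J - if i0 ∉ I ∧ j0 ∉ J then 1 else 0 := by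
  have e : (∑ i, ∑ j, cutE (if i = i0 ∧ j = j0 then l i j + 1 else l i j) (u i j) (i ∈ I) (j ∈ J))
      = (∑ i, ∑ j, cutE (l i j) (u i j) (i ∈ I) (j ∈ J)) - if i0 ∉ I ∧ j0 ∉ J then 1 else 0 := by
    have : ∀ i j, cutE (if i = i0 ∧ j = j0 then l i j + 1 else l i j) (u i j) (i ∈ I) (j ∈ J) =
        cutE (l i j) (u i j) (i ∈ I) (j ∈ J) -
          (if i = i0 then if j = j0 then (if i0 ∉ I ∧ j0 ∉ J then 1 else 0) else 0 else 0) := by
      intro i j
      by_cases hi : i = i0
      · by_cases hj : j = j0
        · subst hi; subst hj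
          simp only [and_self, if_true]
          exact cutE_l _ _ _ _
        · simp [hj]
      · simp [hi]
    simp only [this, Finset.sum_sub_distrib]
    congr 1
    simp
  unfold cutG
  rw [e]
  ring

theorem transport_aux (r : P → ℤ) (s : Q → ℤ) (hrs : ∑ i, r i = ∑ j, s j) :
    ∀ (N : ℕ) (l u : P → Q → ℤ), (∀ i j, l i j ≤ u i j) →
    (∑ i, ∑ j, (u i j - l i j)) = N → (∀ I J, 0 ≤ cutG l u r s I J) →
    ∃ x : P → Q → ℤ, (∀ i j, l i j ≤ x i j ∧ x i j ≤ u i j) ∧ (∀ i, ∑ j, x i j = r i) ∧
      ∀ j, ∑ i, x i j = s j := by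
  intro N
  induction N with
  | zero =>
    intro l u hlu hN hcut
    have heq : ∀ i j, l i j = u i j := by
      intro i j
      have h1 : ∀ i ∈ (Finset.univ : Finset P), 0 ≤ ∑ j, (u i j - l i j) := fun i _ =>
        Finset.sum_nonneg fun j _ => by have := hlu i j; linarith
      have h2 := (Finset.sum_eq_zero_iff_of_nonneg h1).1 (by simpa using hN) i (Finset.mem_univ _)
      have h3 := (Finset.sum_eq_zero_iff_of_nonneg (fun j _ => by have := hlu i j; linarith)).1 h2 j
        (Finset.mem_univ _)
      linarith
    refine ⟨l, fun i j => ⟨le_refl _, hlu i j⟩, ?_, ?_⟩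
    · intro i
      apply le_antisymm
      · have h := hcut ({i}ᶜ) ∅
        have e1 : (∑ a, ∑ b, cutE (l a b) (u a b) (a ∈ ({i}ᶜ : Finset P)) (b ∈ (∅ : Finset Q))) =
            - ∑ j, l i j := by
          have : ∀ a b, cutE (l a b) (u a b) (a ∈ ({i}ᶜ : Finset P)) (b ∈ (∅ : Finset Q)) =
              if a = i then - l i b else 0 := by
            intro a b
            unfold cutE
            by_cases h : a = i
            · subst h; simp
            · simp [h]
          simp only [this]
          rw [Finset.sum_comm]
          simp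
        have e2 : (∑ a, if a ∈ ({i}ᶜ : Finset P) then - r a else 0) = r i - ∑ a, r a := by
          have : ∀ a, (if a ∈ ({i}ᶜ : Finset P) then - r a else 0) =
              (if a = i then r a else 0) - r a := by
            intro a
            by_cases h : a = i
            · subst h; simp
            · simp [h]
          simp only [this, Finset.sum_sub_distrib]
          simp
        unfold cutG at h
        rw [e1, e2] at h
        simp at h
        linarith
      · have h := hcut {i} Finset.univ
        have e1 : (∑ a, ∑ b, cutE (l a b) (u a b) (a ∈ ({i} : Finset P))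
            (b ∈ (Finset.univ : Finset Q))) = ∑ j, u i j := by
          have : ∀ a b, cutE (l a b) (u a b) (a ∈ ({i} : Finset P)) (b ∈ (Finset.univ : Finset Q)) =
              if a = i then u i b else 0 := by
            intro a b
            unfold cutE
            by_cases h : a = i
            · subst h; simp
            · simp [h]
          simp only [this]
          rw [Finset.sum_comm]
          simp
        have e2 : (∑ a, if a ∈ ({i} : Finset P) then - r a else 0) = - r i := by
          simp
        unfold cutG at h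
        rw [e1, e2] at h
        simp at h
        have : ∑ j, l i j = ∑ j, u i j := Finset.sum_congr rfl fun j _ => heq i j
        linarith
    · intro j
      apply le_antisymm
      · have h := hcut ∅ ({j}ᶜ)
        have e1 : (∑ a, ∑ b, cutE (l a b) (u a b) (a ∈ (∅ : Finset P)) (b ∈ ({j}ᶜ : Finset Q))) =
            - ∑ i, l i j := by
          have : ∀ a b, cutE (l a b) (u a b) (a ∈ (∅ : Finset P)) (b ∈ ({j}ᶜ : Finset Q)) =
              if b = j then - l a j else 0 := by
            intro a b
            unfold cutE
            by_cases h : b = j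
            · subst h; simp
            · simp [h]
          simp only [this]
          simp
        have e2 : (∑ b, if b ∈ ({j}ᶜ : Finset Q) then 0 else s b) = s j := by
          have : ∀ b, (if b ∈ ({j}ᶜ : Finset Q) then 0 else s b) =
              (if b = j then s b else 0) := by
            intro b
            by_cases h : b = j
            · subst h; simp
            · simp [h]
          simp only [this]
          simp
        unfold cutG at h
        rw [e1, e2] at h
        simp at h
        linarith
      · have h := hcut Finset.univ {j}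
        have e1 : (∑ a, ∑ b, cutE (l a b) (u a b) (a ∈ (Finset.univ : Finset P))
            (b ∈ ({j} : Finset Q))) = ∑ i, u i j := by
          have : ∀ a b, cutE (l a b) (u a b) (a ∈ (Finset.univ : Finset P)) (b ∈ ({j} : Finset Q)) =
              if b = j then u a j else 0 := by
            intro a b
            unfold cutE
            by_cases h : b = j
            · subst h; simp
            · simp [h]
          simp only [this]
          simp
        have e2 : (∑ b, if b ∈ ({j} : Finset Q) then 0 else s b) = (∑ b, s b) - s j := by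
          have : ∀ b, (if b ∈ ({j} : Finset Q) then 0 else s b) =
              s b - (if b = j then s b else 0) := by
            intro b
            by_cases h : b = j
            · subst h; simp
            · simp [h]
          simp only [this, Finset.sum_sub_distrib]
          simp
        unfold cutG at h
        rw [e1, e2] at h
        simp at h
        have : ∑ i, l i j = ∑ i, u i j := Finset.sum_congr rfl fun i _ => heq i j
        linarith
  | succ N ih =>
    intro l u hlu hN hcut
    have hex : ∃ i0 j0, l i0 j0 < u i0 j0 := by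
      by_contra hcon
      push Not at hcon
      have : ∑ i, ∑ j, (u i j - l i j) = 0 :=
        Finset.sum_eq_zero fun i _ => Finset.sum_eq_zero fun j _ => by
          have h1 := hlu i j
          have h2 := hcon i j
          linarith
      rw [this] at hN
      push_cast at hN
      have : (0 : ℤ) ≤ N := by positivity
      linarith
    obtain ⟨i0, j0, h0⟩ := hex
    have hsum1 : (∑ i, ∑ j, if i = i0 ∧ j = j0 then (1 : ℤ) else 0) = 1 := by
      have : ∀ i j, (if i = i0 ∧ j = j0 then (1 : ℤ) else 0) =
          if i = i0 then if j = j0 then 1 else 0 else 0 := by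
        intro i j
        by_cases hi : i = i0 <;> by_cases hj : j = j0 <;> simp [hi, hj]
      simp only [this]
      simp
    by_cases hA : ∀ I J, 0 ≤ cutG l (fun i j => if i = i0 ∧ j = j0 then u i j - 1 else u i j) r s I J
    · obtain ⟨x, hx1, hx2, hx3⟩ := ih l _ (by
        intro i j
        by_cases h : i = i0 ∧ j = j0
        · simp only [h, and_self, if_true]
          have := h0
          linarith
        · simp only [h, if_false]
          exact hlu i j) (by
        have : ∀ i j, (if i = i0 ∧ j = j0 then u i j - 1 else u i j) - l i j =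
            (u i j - l i j) - if i = i0 ∧ j = j0 then 1 else 0 := by
          intro i j
          split_ifs <;> ring
        simp only [this]
        have h5 : ∑ i, ∑ j, ((u i j - l i j) - if i = i0 ∧ j = j0 then (1 : ℤ) else 0) =
            (∑ i, ∑ j, (u i j - l i j)) - ∑ i, ∑ j, if i = i0 ∧ j = j0 then (1 : ℤ) else 0 := by
          rw [← Finset.sum_sub_distrib]
          refine Finset.sum_congr rfl fun i _ => ?_
          rw [← Finset.sum_sub_distrib]
        rw [h5, hN, hsum1]
        push_cast
        ring) hA
      refine ⟨x, fun i j => ⟨(hx1 i j).1, le_trans (hx1 i j).2 ?_⟩, hx2, hx3⟩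
      split_ifs <;> linarith
    · by_cases hB : ∀ I J, 0 ≤ cutG (fun i j => if i = i0 ∧ j = j0 then l i j + 1 else l i j) u r s I J
      · obtain ⟨x, hx1, hx2, hx3⟩ := ih _ u (by
          intro i j
          by_cases h : i = i0 ∧ j = j0
          · simp only [h, and_self, if_true]
            have := h0
            linarith
          · simp only [h, if_false]
            exact hlu i j) (by
          have : ∀ i j, u i j - (if i = i0 ∧ j = j0 then l i j + 1 else l i j) =
              (u i j - l i j) - if i = i0 ∧ j = j0 then 1 else 0 := by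
            intro i j
            split_ifs <;> ring
          simp only [this]
          have h5 : ∑ i, ∑ j, ((u i j - l i j) - if i = i0 ∧ j = j0 then (1 : ℤ) else 0) =
              (∑ i, ∑ j, (u i j - l i j)) - ∑ i, ∑ j, if i = i0 ∧ j = j0 then (1 : ℤ) else 0 := by
            rw [← Finset.sum_sub_distrib]
            refine Finset.sum_congr rfl fun i _ => ?_
            rw [← Finset.sum_sub_distrib]
          rw [h5, hN, hsum1]
          push_cast
          ring) hB
        refine ⟨x, fun i j => ⟨le_trans ?_ (hx1 i j).1, (hx1 i j).2⟩, hx2, hx3⟩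
        split_ifs <;> linarith
      · exfalso
        push Not at hA hB
        obtain ⟨I, J, hIJ⟩ := hA
        obtain ⟨I', J', hIJ'⟩ := hB
        rw [cutG_u] at hIJ
        rw [cutG_l] at hIJ'
        have g1 := hcut I J
        have g2 := hcut I' J'
        have c1 : i0 ∈ I ∧ j0 ∈ J := by
          by_contra hc
          simp only [hc, if_false] at hIJ
          linarith
        have c2 : i0 ∉ I' ∧ j0 ∉ J' := by
          by_contra hc
          simp only [hc, if_false] at hIJ'
          linarith
        simp only [c1, and_self, if_true] at hIJ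
        rw [if_pos c2] at hIJ'
        have := cutG_sub l u r s hlu I I' J J' i0 j0 c1.1 c1.2 c2.1 c2.2
        have g3 := hcut (I ∩ I') (J ∪ J')
        have g4 := hcut (I ∪ I') (J ∩ J')
        linarith

/-- Hoffman's theorem for transportation matrices. -/
theorem transport (l u : P → Q → ℤ) (r : P → ℤ) (s : Q → ℤ) (hlu : ∀ i j, l i j ≤ u i j)
    (hrs : ∑ i, r i = ∑ j, s j) (hcut : ∀ I J, 0 ≤ cutG l u r s I J) :
    ∃ x : P → Q → ℤ, (∀ i j, l i j ≤ x i j ∧ x i j ≤ u i j) ∧ (∀ i, ∑ j, x i j = r i) ∧
      ∀ j, ∑ i, x i j = s j := by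
  have h0 : 0 ≤ ∑ i, ∑ j, (u i j - l i j) :=
    Finset.sum_nonneg fun i _ => Finset.sum_nonneg fun j _ => by have := hlu i j; linarith
  exact transport_aux r s hrs (∑ i, ∑ j, (u i j - l i j)).toNat l u hlu
    (by rw [Int.toNat_of_nonneg h0]) hcut

end Transport

end Pool.Agent.H55
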