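import Mathlib
import Pool.Agent.H55.Transport
import Pool.Agent.H55.Round

/-!
Existence of the part-level matrix of a `k`-regular spanning subgraph of a complete multipartite
graph in which every vertex outside the largest part has a neighbour in the largest part.
-/

set_option autoImplicit false
set_option linter.unusedSectionVars false

namespace Pool.Agent.H55

open Finset

section Arith

theorem arith1 (n k c w x y v S : ℤ) (hn : n = w + x + y + v) (hw : 0 ≤ w) (hx : 0 ≤ x)
    (hy : 0 ≤ y) (hv : 0 ≤ v) (hk : k ≤ n - c) (hS : S ≤ c * w)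
    (hf : k * (2 * w - n) ≤ w ^ 2 - S) : 0 ≤ (w + x) * (w + y) - S + k * (v - w) := by
  subst hn
  rcases le_or_gt k w with h | h
  · nlinarith [mul_nonneg (sub_nonneg.2 h) (add_nonneg hx hy), mul_nonneg hx hy]
  · nlinarith [mul_nonneg (sub_nonneg.2 h.le) hv, mul_nonneg hx hy,
      mul_nonneg hw (sub_nonneg.2 hk)]

theorem arith2 (n k c w x y v S : ℤ) (hn : n = w + x + y + v) (hw : 0 ≤ w) (hx : c ≤ x)
    (hy : 0 ≤ y) (hv : 0 ≤ v) (hk : k ≤ n - c) (hk1 : 1 ≤ k) (hc : 1 ≤ c) (hS : S ≤ c * w) :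
    0 ≤ (w + x) * (w + y) - S - (y + v) + k * (v - w) := by
  subst hn
  obtain ⟨x', rfl⟩ : ∃ x', x = c + x' := ⟨x - c, by ring⟩
  have hx' : 0 ≤ x' := by linarith
  rcases le_or_gt k w with h | h
  · nlinarith [mul_nonneg hw (sub_nonneg.2 h), mul_nonneg hw hx', mul_nonneg hw hy,
      mul_nonneg (sub_nonneg.2 hc) hy, mul_nonneg hx' hy, mul_nonneg (sub_nonneg.2 hk1) hv]
  · have h1 : w ≤ k - 1 := by omega
    nlinarith [mul_nonneg hw (sub_nonneg.2 hk), mul_nonneg (sub_nonneg.2 hc) hy,
      mul_nonneg hx' hy, mul_nonneg (sub_nonneg.2 h1) hv]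

theorem arith4 (n k c w x y v S : ℤ) (hn : n = w + x + y + v) (hw : 0 ≤ w) (hx : 0 ≤ x)
    (hy : 0 ≤ y) (hv : c ≤ v) (hk : k ≤ n - c) (hk2 : 2 ≤ k) (hc : 1 ≤ c) (hck : c ≤ k)
    (hkc : n - c ≤ k * c) (hS : S ≤ c * w) :
    0 ≤ (w + x) * (w + y) - S - (x + y + 2 * (v - c)) + k * (v - w) := by
  obtain ⟨v', rfl⟩ : ∃ v', v = c + v' := ⟨v - c, by ring⟩
  have hv' : 0 ≤ v' := by linarith
  obtain ⟨R, hR⟩ : ∃ R, R = x + y := ⟨_, rfl⟩
  have hR0 : 0 ≤ R := by linarith
  have h0 : (w - k) * (w - c) + (w - 1) * R + (k - 2) * v' ≤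
      (w + x) * (w + y) - S - (x + y + 2 * (c + v' - c)) + k * (c + v' - w) := by
    subst hR
    nlinarith [mul_nonneg hx hy]
  refine le_trans ?_ h0
  rcases le_or_gt k w with h | h
  · have h1 : 0 ≤ (w - k) * (w - c) := mul_nonneg (by linarith) (by linarith)
    have h2 : 0 ≤ (w - 1) * R := mul_nonneg (by linarith) hR0
    have h3 : 0 ≤ (k - 2) * v' := mul_nonneg (by linarith) hv'
    linarith
  · have h1 : w ≤ k - 1 := by omega
    obtain ⟨N, hN⟩ : ∃ N, N = n - c := ⟨_, rfl⟩
    have hN' : N = w + R + v' := by rw [hN, hn, hR]; ring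
    have hkN : k ≤ N := by rw [hN]; exact hk
    have hkcN : N ≤ k * c := by rw [hN]; exact hkc
    have h2 : (w - k) * (w - c) + (w - 1) * (N - w) ≤
        (w - k) * (w - c) + (w - 1) * R + (k - 2) * v' := by
      have : v' = N - w - R := by linarith
      subst this
      nlinarith [mul_nonneg (sub_nonneg.2 h1) hv']
    refine le_trans ?_ h2
    have h3 : (w - k) * (w - c) + (w - 1) * (N - w) = (k * c - N) + w * (N - k - c + 1) := by ring
    rw [h3]
    rcases le_or_gt 0 (N - k - c + 1) with h4 | h4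
    · have := mul_nonneg hw h4
      linarith
    · have h5 : (k - 1) * (N - k - c + 1) ≤ w * (N - k - c + 1) := by nlinarith
      have h6 : 0 ≤ (k * c - N) + (k - 1) * (N - k - c + 1) := by nlinarith
      linarith

end Arith

section Exist

variable {P : Type*} [Fintype P] [DecidableEq P]

/-- upper bounds -/
def Ub (a : P → ℤ) (i j : P) : ℤ := if i = j then 0 else a i * a j

/-- lower bounds -/
def Lb (a : P → ℤ) (z : P) (i j : P) : ℤ :=
  (if j = z then (if i = z then 0 else a i) else 0) + (if i = z then (if j = z then 0 else a j) else 0)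

theorem sum_U (a : P → ℤ) (I J : Finset P) :
    ∑ i ∈ I, ∑ j ∈ J, Ub a i j = (∑ i ∈ I, a i) * (∑ j ∈ J, a j) - ∑ i ∈ I ∩ J, a i ^ 2 := by
  have h1 : ∀ i j, Ub a i j = a i * a j - if j = i then a i ^ 2 else 0 := by
    intro i j
    unfold Ub
    by_cases h : i = j
    · subst h
      simp
      ring
    · have h' : ¬ j = i := fun e => h e.symm
      simp [h, h']
  simp only [h1, Finset.sum_sub_distrib]
  rw [Finset.sum_mul_sum]
  congr 1
  rw [← Finset.filter_mem_eq_inter, Finset.sum_filter]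
  refine Finset.sum_congr rfl fun i _ => ?_
  rw [Finset.sum_ite_eq']

theorem sum_L (a : P → ℤ) (z : P) (I J : Finset P) :
    ∑ i ∈ I, ∑ j ∈ J, Lb a z i j =
      (if z ∈ J then (∑ i ∈ I, a i) - (if z ∈ I then a z else 0) else 0) +
      (if z ∈ I then (∑ j ∈ J, a j) - (if z ∈ J then a z else 0) else 0) := by
  unfold Lb
  simp only [Finset.sum_add_distrib]
  congr 1
  · simp only [Finset.sum_ite_eq']
    by_cases h : z ∈ J
    · simp only [h, if_true]
      have : ∀ i, (if i = z then 0 else a i) = a i - if i = z then a i else 0 := by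
        intro i
        split_ifs <;> ring
      simp only [this, Finset.sum_sub_distrib, Finset.sum_ite_eq']
    · simp [h]
  · have : ∀ i, (∑ j ∈ J, if i = z then (if j = z then 0 else a j) else 0) =
        if i = z then (∑ j ∈ J, a j) - (if z ∈ J then a z else 0) else 0 := by
      intro i
      by_cases hi : i = z
      · simp only [hi, if_true]
        have : ∀ j, (if j = z then 0 else a j) = a j - if j = z then a j else 0 := by
          intro j
          split_ifs <;> ring
        simp only [this, Finset.sum_sub_distrib, Finset.sum_ite_eq']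
      · simp [hi]
    simp only [this, Finset.sum_ite_eq']

theorem cutG_formula (a : P → ℤ) (z : P) (r : P → ℤ) (I J : Finset P) :
    cutG (Lb a z) (Ub a) r r I J = (∑ i ∈ I, ∑ j ∈ J, Ub a i j) -
      (∑ i ∈ Iᶜ, ∑ j ∈ Jᶜ, Lb a z i j) - (∑ i ∈ I, r i) + ∑ j ∈ Jᶜ, r j := by
  unfold cutG
  have h1 : ∀ i j, cutE (Lb a z i j) (Ub a i j) (i ∈ I) (j ∈ J) =
      (if i ∈ I then (if j ∈ J then Ub a i j else 0) else 0) -
        (if i ∈ Iᶜ then (if j ∈ Jᶜ then Lb a z i j else 0) else 0) := by
    intro i j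
    unfold cutE
    by_cases hi : i ∈ I <;> by_cases hj : j ∈ J <;> simp [hi, hj]
  have h2 : (∑ i, ∑ j, cutE (Lb a z i j) (Ub a i j) (i ∈ I) (j ∈ J)) =
      (∑ i ∈ I, ∑ j ∈ J, Ub a i j) - (∑ i ∈ Iᶜ, ∑ j ∈ Jᶜ, Lb a z i j) := by
    simp only [h1, Finset.sum_sub_distrib]
    congr 1
    · rw [← Finset.sum_subset (Finset.subset_univ I)]
      · refine Finset.sum_congr rfl fun i hi => ?_
        simp only [hi, if_true]
        rw [← Finset.sum_filter]
        simp only [Finset.filter_univ_mem]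
      · intro i _ hi
        simp [hi]
    · rw [← Finset.sum_subset (Finset.subset_univ Iᶜ)]
      · refine Finset.sum_congr rfl fun i hi => ?_
        simp only [hi, if_true]
        rw [← Finset.sum_filter]
        simp only [Finset.filter_univ_mem]
      · intro i _ hi
        simp only [hi, if_false, Finset.sum_const_zero]
  rw [h2]
  have h3 : (∑ i, if i ∈ I then - r i else 0) = - ∑ i ∈ I, r i := by
    rw [← Finset.sum_filter]
    simp
  have h4 : (∑ j, if j ∈ J then 0 else r j) = ∑ j ∈ Jᶜ, r j := by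
    have : ∀ j, (if j ∈ J then 0 else r j) = if j ∈ Jᶜ then r j else 0 := by
      intro j
      by_cases h : j ∈ J <;> simp [h]
    simp only [this]
    rw [← Finset.sum_filter]
    simp only [Finset.filter_univ_mem]
  rw [h3, h4]
  ring

theorem exists_matrix (a : P → ℤ) (z : P) (n k : ℤ) (ha : ∀ i, 1 ≤ a i) (haz : ∀ i, a i ≤ a z)
    (hn : n = ∑ i, a i) (hk : k ≤ n - a z) (hk2 : 2 ≤ k) (hck : a z ≤ k)
    (hkc : n - a z ≤ k * a z) (hev : Even (k * n))
    (hW : ∀ W : Finset P, z ∈ W →
      k * (2 * (∑ i ∈ W, a i) - n) ≤ (∑ i ∈ W, a i) ^ 2 - ∑ i ∈ W, a i ^ 2) :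
    ∃ m : P → P → ℤ, (∀ i j, m i j = m j i) ∧ (∀ i, m i i = 0) ∧
      (∀ i j, 0 ≤ m i j ∧ m i j ≤ a i * a j) ∧ (∀ i, ∑ j, m i j = k * a i) ∧
      ∀ i, i ≠ z → a i ≤ m i z := by
  have ha0 : ∀ i, 0 ≤ a i := fun i => by have := ha i; linarith
  have hUs : ∀ i j, Ub a i j = Ub a j i := by
    intro i j
    unfold Ub
    by_cases h : i = j
    · subst h; rfl
    · have h' : ¬ j = i := fun e => h e.symm
      simp only [h, h', if_false]
      ring
  have hLs : ∀ i j, Lb a z i j = Lb a z j i := by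
    intro i j
    unfold Lb
    ring
  have hLU : ∀ i j, Lb a z i j ≤ Ub a i j := by
    intro i j
    unfold Lb Ub
    by_cases hi : i = z
    · by_cases hj : j = z
      · simp [hi, hj]
      · have : ¬ z = j := fun e => hj e.symm
        simp only [hi, hj, this, if_true, if_false, zero_add]
        have h1 := ha z
        have h2 := ha0 j
        nlinarith
    · by_cases hj : j = z
      · simp only [hi, hj, if_true, if_false, add_zero]
        have h1 := ha z
        have h2 := ha0 i
        nlinarith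
      · simp only [hi, hj, if_false, add_zero]
        split_ifs
        · exact le_refl _
        · exact mul_nonneg (ha0 i) (ha0 j)
  have hLnn : ∀ i j, 0 ≤ Lb a z i j := by
    intro i j
    unfold Lb
    have h1 := ha0 i
    have h2 := ha0 j
    split_ifs <;> linarith
  have hUle : ∀ i j, Ub a i j ≤ a i * a j := by
    intro i j
    unfold Ub
    split_ifs
    · exact mul_nonneg (ha0 i) (ha0 j)
    · exact le_refl _
  have hcut : ∀ I J, 0 ≤ cutG (Lb a z) (Ub a) (fun i => k * a i) (fun i => k * a i) I J := by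
    intro I J
    rw [cutG_formula, sum_U, sum_L]
    -- the four weights
    obtain ⟨w, hw⟩ : ∃ w, w = ∑ i ∈ I ∩ J, a i := ⟨_, rfl⟩
    obtain ⟨x, hx⟩ : ∃ x, x = ∑ i ∈ I \ J, a i := ⟨_, rfl⟩
    obtain ⟨y, hy⟩ : ∃ y, y = ∑ i ∈ J \ I, a i := ⟨_, rfl⟩
    obtain ⟨v, hv⟩ : ∃ v, v = ∑ i ∈ (I ∪ J)ᶜ, a i := ⟨_, rfl⟩
    obtain ⟨S, hS⟩ : ∃ S, S = ∑ i ∈ I ∩ J, a i ^ 2 := ⟨_, rfl⟩
    have hw0 : 0 ≤ w := by rw [hw]; exact Finset.sum_nonneg fun i _ => ha0 i
    have hx0 : 0 ≤ x := by rw [hx]; exact Finset.sum_nonneg fun i _ => ha0 i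
    have hy0 : 0 ≤ y := by rw [hy]; exact Finset.sum_nonneg fun i _ => ha0 i
    have hv0 : 0 ≤ v := by rw [hv]; exact Finset.sum_nonneg fun i _ => ha0 i
    have hS0 : S ≤ a z * w := by
      rw [hS, hw, Finset.mul_sum]
      refine Finset.sum_le_sum fun i _ => ?_
      have := haz i
      have := ha0 i
      nlinarith
    have hI : ∑ i ∈ I, a i = w + x := by
      rw [hw, hx, Finset.sum_inter_add_sum_sdiff]
    have hJ : ∑ i ∈ J, a i = w + y := by
      rw [hw, hy, Finset.inter_comm, Finset.sum_inter_add_sum_sdiff]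
    have hIc : ∑ i ∈ Iᶜ, a i = y + v := by
      rw [← Finset.sum_inter_add_sum_sdiff Iᶜ J, hy, hv]
      congr 2
      · ext i
        simp [and_comm]
      · ext i
        simp
    have hJc : ∑ i ∈ Jᶜ, a i = x + v := by
      rw [← Finset.sum_inter_add_sum_sdiff Jᶜ I, hx, hv]
      congr 2
      · ext i
        simp [and_comm]
      · ext i
        simp [and_comm]
    have hnn : n = w + x + y + v := by
      rw [hn, ← Finset.sum_add_sum_compl I, hI, hIc]
      ring
    have hr1 : ∑ i ∈ I, k * a i = k * (w + x) := by rw [← Finset.mul_sum, hI]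
    have hr2 : ∑ i ∈ Jᶜ, k * a i = k * (x + v) := by rw [← Finset.mul_sum, hJc]
    rw [hr1, hr2, hI, hJ, hIc, hJc, ← hS]
    by_cases hzI : z ∈ I
    · by_cases hzJ : z ∈ J
      · have h1 : z ∉ Iᶜ := by simp [hzI]
        have h2 : z ∉ Jᶜ := by simp [hzJ]
        simp only [h1, h2, if_false]
        have h3 := hW (I ∩ J) (Finset.mem_inter.2 ⟨hzI, hzJ⟩)
        rw [← hw, ← hS] at h3
        have := arith1 n k (a z) w x y v S hnn hw0 hx0 hy0 hv0 hk hS0 h3
        linarith
      · have h1 : z ∉ Iᶜ := by simp [hzI]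
        have h2 : z ∈ Jᶜ := by simp [hzJ]
        simp only [h1, h2, if_false, if_true]
        have h3 : a z ≤ x := by
          rw [hx]
          exact Finset.single_le_sum (f := a) (fun i _ => ha0 i) (by simp [hzI, hzJ])
        have := arith2 n k (a z) w x y v S hnn hw0 h3 hy0 hv0 hk (by linarith) (ha z) hS0
        linarith
    · by_cases hzJ : z ∈ J
      · have h1 : z ∈ Iᶜ := by simp [hzI]
        have h2 : z ∉ Jᶜ := by simp [hzJ]
        simp only [h1, h2, if_false, if_true]
        have h3 : a z ≤ y := by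
          rw [hy]
          exact Finset.single_le_sum (f := a) (fun i _ => ha0 i) (by simp [hzI, hzJ])
        have := arith2 n k (a z) w y x v S (by rw [hnn]; ring) hw0 h3 hx0 hv0 hk (by linarith)
          (ha z) hS0
        linarith
      · have h1 : z ∈ Iᶜ := by simp [hzI]
        have h2 : z ∈ Jᶜ := by simp [hzJ]
        simp only [h1, h2, if_true]
        have h3 : a z ≤ v := by
          rw [hv]
          exact Finset.single_le_sum (f := a) (fun i _ => ha0 i) (by simp [hzI, hzJ])
        have := arith4 n k (a z) w x y v S hnn hw0 hx0 hy0 h3 hk hk2 (ha z) hck hkc hS0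
        linarith
  obtain ⟨x, hx1, hx2, hx3⟩ := transport (Lb a z) (Ub a) (fun i => k * a i) (fun i => k * a i)
    hLU rfl hcut
  obtain ⟨m, hm1, hm2, hm3, hm4⟩ := round (Lb a z) (Ub a) hLs hUs (fun i => k * a i) z
    (by rw [← Finset.mul_sum, ← hn]; exact hev)
    (by
      intro i j hij hi hj
      unfold Lb Ub
      simp only [hi, hj, hij, if_false, add_zero]
      have h1 := ha i
      have h2 := ha j
      nlinarith)
    (fun i j => x i j + x j i) (fun i j => add_comm _ _)
    (by
      intro i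
      have h1 := hx1 i i
      have h2 : Lb a z i i = 0 := by
        unfold Lb
        by_cases h : i = z <;> simp [h]
      have h3 : Ub a i i = 0 := by simp [Ub]
      rw [h2, h3] at h1
      have : x i i = 0 := le_antisymm h1.2 h1.1
      simp [this])
    (by
      intro i j
      have h1 := hx1 i j
      have h2 := hx1 j i
      rw [hLs j i, hUs j i] at h2
      beta_reduce
      constructor <;> linarith)
    (by
      intro i
      rw [Finset.sum_add_distrib, hx2, hx3]
      ring)
  refine ⟨m, hm1, hm2, fun i j => ⟨(hLnn i j).trans (hm3 i j).1, (hm3 i j).2.trans (hUle i j)⟩,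
    hm4, ?_⟩
  intro i hi
  have h1 := (hm3 i z).1
  have h2 : Lb a z i z = a i := by
    unfold Lb
    simp [hi]
  rw [h2] at h1
  exact h1

end Exist

end Pool.Agent.H55
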