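import Mathlib
import Pool.Agent.H55.Parts
import Pool.Agent.H55.Assemble

/-!
The construction of edge-disjoint perfect matchings in complete multipartite graphs.
-/

set_option autoImplicit false
set_option linter.unusedSectionVars false

namespace Pool.Agent.H55

open Finset SimpleGraph Pool.Agent.H28

section Con

variable {V P : Type*} [Fintype V] [DecidableEq V] [Fintype P] [LinearOrder P]

theorem sum_fib (π : V → P) (F : V → ℤ) : ∑ x, F x = ∑ i, ∑ x ∈ fib π i, F x := by
  unfold fib
  exact (Finset.sum_fiberwise Finset.univ π F).symm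

theorem card_fib (π : V → P) : (Fintype.card V : ℤ) = ∑ i, ((fib π i).card : ℤ) := by
  have := sum_fib π (fun _ => 1)
  simp only [Finset.sum_const, Finset.card_univ, nsmul_eq_mul, mul_one] at this
  exact this

theorem construct (π : V → P) (z : P) (k : ℕ) (hpos : ∀ i, 1 ≤ (fib π i).card)
    (hmax : ∀ i, (fib π i).card ≤ (fib π z).card)
    (hk : k + (fib π z).card ≤ Fintype.card V) (hck : (fib π z).card ≤ k)
    (hkc : Fintype.card V ≤ k * (fib π z).card + (fib π z).card)
    (hev : Even (Fintype.card V)) (h2c : 2 * (fib π z).card ≤ Fintype.card V)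
    (hW : ∀ W : Finset P, z ∈ W →
      (k : ℤ) * (2 * (∑ i ∈ W, ((fib π i).card : ℤ)) - Fintype.card V) ≤
        (∑ i ∈ W, ((fib π i).card : ℤ)) ^ 2 - ∑ i ∈ W, ((fib π i).card : ℤ) ^ 2) :
    ∃ M : Fin k → SimpleGraph V, (∀ γ v, ∃! w, (M γ).Adj v w) ∧
      (∀ γ v w, (M γ).Adj v w → π v ≠ π w) ∧
      ∀ γ γ', γ ≠ γ' → ∀ v w, (M γ).Adj v w → ¬ (M γ').Adj v w := by
  classical
  have hc1 := hpos z
  set c := (fib π z).card with hc
  set n := Fintype.card V with hn
  rcases eq_or_lt_of_le h2c with h2 | h2
  · -- the case `n = 2 c`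
    have hkeq : k = c := by omega
    have hdeg0 : ∀ x : V, ((⊥ : SimpleGraph V).neighborSet x).ncard = 0 := by
      intro x
      have : (⊥ : SimpleGraph V).neighborSet x = ∅ := by
        rw [Set.eq_empty_iff_forall_notMem]
        intro y hy
        simp at hy
      rw [this]
      simp
    obtain ⟨M, h1, h3, h4⟩ := assemble (fib π z) (⊥ : SimpleGraph V) k
      (fun x y h => by simp at h) (by omega) (fun x => by rw [hdeg0]; omega)
      (fun x _ => by rw [hdeg0]; omega)
      (by
        simp only [hdeg0]
        rw [← hc, h2]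
        simp
        ring)
      hev
    refine ⟨M, h1, ?_, h4⟩
    intro γ v w h
    rcases h3 γ v w h with h5 | ⟨h5, h6⟩ | ⟨h5, h6⟩
    · simp at h5
    · rw [mem_fib] at h5 h6
      rw [h6]
      exact h5
    · rw [mem_fib] at h5 h6
      rw [h5]
      exact fun e => h6 e.symm
  · -- the case `2 c < n`
    have hk2 : 2 ≤ k := by
      by_contra hcon
      have : k ≤ 1 := by omega
      have h3 : k * c ≤ 1 * c := Nat.mul_le_mul_right c this
      omega
    obtain ⟨m, hm1, hm2, hm3, hm4, hm5⟩ := exists_matrix (fun i => ((fib π i).card : ℤ)) z (n : ℤ)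
      (k : ℤ) (fun i => by exact_mod_cast hpos i) (fun i => by exact_mod_cast hmax i)
      (card_fib π) (by rw [← hc]; omega) (by exact_mod_cast hk2) (by rw [← hc]; exact_mod_cast hck)
      (by rw [← hc]; zify at hkc; linarith) (by
        have : Even (k * n) := hev.mul_left k
        exact_mod_cast this) hW
    obtain ⟨m', hm'⟩ : ∃ m' : P → P → ℤ, ∀ i j, m' i j = if i = z ∨ j = z then 0 else m i j :=
      ⟨_, fun _ _ => rfl⟩
    obtain ⟨h, hv, hnear⟩ := nearreg π m' (by
        intro i j
        rw [hm', hm', hm1 i j]
        congr 1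
        rw [eq_iff_iff]
        tauto) (by
        intro i
        rw [hm', hm2]
        simp) (by
        intro i j
        rw [hm']
        split_ifs
        · exact le_refl _
        · exact (hm3 i j).1) (by
        intro i j
        rw [hm']
        split_ifs
        · positivity
        · exact (hm3 i j).2)
    -- degrees
    have hsumfib : ∀ i, ∑ x ∈ fib π i, ∑ y, h x y = ∑ j, m' i j := by
      intro i
      have : ∀ x, ∑ y, h x y = ∑ j, ∑ y ∈ fib π j, h x y := fun x => sum_fib π _
      simp only [this]
      rw [Finset.sum_comm]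
      exact Finset.sum_congr rfl fun j _ => hv.cnt i j
    have hm'z : ∑ j, m' z j = 0 := Finset.sum_eq_zero fun j _ => by rw [hm']; simp
    have hm'row : ∀ i, i ≠ z → ∑ j, m' i j = k * (fib π i).card - m i z := by
      intro i hi
      have : ∀ j, m' i j = m i j - if j = z then m i j else 0 := by
        intro j
        rw [hm']
        by_cases hj : j = z <;> simp [hi, hj]
      simp only [this, Finset.sum_sub_distrib, hm4]
      simp
    have hnn : ∀ x y, 0 ≤ h x y := by
      intro x y
      rcases hv.h01 x y with h3 | h3 <;> rw [h3]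
      exact zero_le_one
    let H : SimpleGraph V :=
      { Adj := fun x y => h x y = 1
        symm := ⟨fun x y hxy => by rw [hv.sym]; exact hxy⟩
        loopless := ⟨fun x hx => by
          have h3 : h x x = 1 := hx
          rw [hv.par x x rfl] at h3
          norm_num at h3⟩ }
    have hHadj : ∀ x y, H.Adj x y ↔ h x y = 1 := fun x y => Iff.rfl
    have hdeg : ∀ x, ((H.neighborSet x).ncard : ℤ) = ∑ y, h x y := by
      intro x
      have e1 : H.neighborSet x = ((Finset.univ.filter (fun y => h x y = 1) : Finset V) : Set V) := by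
        ext y
        simp [hHadj]
      rw [e1, Set.ncard_coe_finset, Finset.card_filter]
      push_cast
      refine Finset.sum_congr rfl fun y _ => ?_
      rcases hv.h01 x y with h3 | h3 <;> rw [h3] <;> simp
    have hle : ∀ x, π x ≠ z → ∑ y, h x y ≤ k - 1 := by
      intro x hx
      refine near_le (s := fib π (π x)) (f := fun x => ∑ y, h x y) ?_ ?_ x (mem_fib.2 rfl)
      · intro x hx y hy
        rw [mem_fib] at hx hy
        exact hnear x y (hx.trans hy.symm)
      · rw [hsumfib, hm'row _ hx]
        have := hm5 _ hx
        linarith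
    have hge : ∀ x, π x ≠ z → (k : ℤ) - c ≤ ∑ y, h x y := by
      intro x hx
      refine near_ge (s := fib π (π x)) (f := fun x => ∑ y, h x y) ?_ ?_ x (mem_fib.2 rfl)
      · intro x hx y hy
        rw [mem_fib] at hx hy
        exact hnear x y (hx.trans hy.symm)
      · rw [hsumfib, hm'row _ hx]
        have := (hm3 (π x) z).2
        rw [← hc] at this
        linarith
    have hz0 : ∀ x, π x = z → ∀ y, h x y = 0 := by
      intro x hx y
      have h3 : ∑ x ∈ fib π z, ∑ y, h x y = 0 := by rw [hsumfib, hm'z]
      have h4 := (Finset.sum_eq_zero_iff_of_nonneg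
        (fun x _ => Finset.sum_nonneg fun y _ => hnn x y)).1 h3 x (mem_fib.2 hx)
      exact (Finset.sum_eq_zero_iff_of_nonneg (fun y _ => hnn x y)).1 h4 y (Finset.mem_univ _)
    have hcolz : ∑ i, m i z = k * c := by
      have := hm4 z
      rw [← this]
      exact Finset.sum_congr rfl fun i _ => hm1 i z
    obtain ⟨M, h1, h3, h4⟩ := assemble (fib π z) H k
      (by
        intro x y hxy hx
        rw [mem_fib] at hx
        rw [hHadj, hz0 x hx y] at hxy
        norm_num at hxy) (by omega) (by
        intro x
        have h5 := hdeg x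
        by_cases hx : π x = z
        · have : ∑ y, h x y = 0 := Finset.sum_eq_zero fun y _ => hz0 x hx y
          rw [this] at h5
          omega
        · have := hle x hx
          omega) (by
        intro x hx
        rw [mem_fib] at hx
        have h5 := hdeg x
        have := hge x hx
        omega) (by
        simp only [hdeg]
        rw [Finset.sum_sub_distrib, sum_fib π (fun x => ∑ y, h x y)]
        simp only [hsumfib]
        have e1 : ∑ i, ∑ j, m' i j = ∑ i, (k * ((fib π i).card : ℤ) - m i z) - k * c := by
          rw [← Finset.add_sum_erase _ _ (Finset.mem_univ z),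
            ← Finset.add_sum_erase _ (fun i => k * ((fib π i).card : ℤ) - m i z) (Finset.mem_univ z)]
          rw [hm'z, hm2, ← hc]
          have : ∑ i ∈ Finset.univ.erase z, ∑ j, m' i j =
              ∑ i ∈ Finset.univ.erase z, (k * ((fib π i).card : ℤ) - m i z) :=
            Finset.sum_congr rfl fun i hi => hm'row i (Finset.ne_of_mem_erase hi)
          rw [this]
          ring
        rw [e1, Finset.sum_sub_distrib, ← Finset.mul_sum, ← card_fib π, hcolz]
        simp only [Finset.sum_const, Finset.card_univ, nsmul_eq_mul]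
        push_cast
        rw [← hn, ← hc]
        ring) hev
    refine ⟨M, h1, ?_, h4⟩
    intro γ v w hvw
    rcases h3 γ v w hvw with h5 | ⟨h5, h6⟩ | ⟨h5, h6⟩
    · intro e
      rw [hHadj, hv.par v w e] at h5
      norm_num at h5
    · rw [mem_fib] at h5 h6
      rw [h6]
      exact h5
    · rw [mem_fib] at h5 h6
      rw [h5]
      exact fun e => h6 e.symm

end Con

end Pool.Agent.H55
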