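import Mathlib
import Pool.Agent.H55.NearReg

/-!
Upper bounds for the number of edge-disjoint perfect matchings in complete multipartite graphs.
-/

set_option autoImplicit false
set_option linter.unusedSectionVars false

namespace Pool.Agent.H55

open Finset SimpleGraph

section Nec

variable {V P : Type*} [Fintype V] [DecidableEq V] [Fintype P] [DecidableEq P]

/-- `k` pairwise disjoint perfect matchings inside the complete multipartite graph of `π` -/
structure Fam (π : V → P) (k : ℕ) (g : Fin k → V → V) : Prop where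
  inv : ∀ t v, g t (g t v) = v
  par : ∀ t v, π (g t v) ≠ π v
  dis : ∀ s t v, g s v = g t v → s = t

theorem Fam.inj {π : V → P} {k : ℕ} {g : Fin k → V → V} (hg : Fam π k g) (t : Fin k) :
    Function.Injective (g t) := by
  intro v w h
  rw [← hg.inv t v, h, hg.inv]

theorem Fam.even {π : V → P} {k : ℕ} {g : Fin k → V → V} (hg : Fam π k g) (hk : 1 ≤ k) :
    Even (Fintype.card V) := by
  have t : Fin k := ⟨0, hk⟩
  have h := Finset.sum_involution (s := (Finset.univ : Finset V)) (f := fun _ => (1 : ZMod 2))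
    (fun v _ => g t v) (fun v _ => by exact CharTwo.add_self_eq_zero _)
    (fun v _ _ h => hg.par t v (by rw [h])) (fun _ _ => Finset.mem_univ _)
    (fun v _ => hg.inv t v)
  simp only [Finset.sum_const, Finset.card_univ, nsmul_eq_mul, mul_one] at h
  exact (ZMod.natCast_eq_zero_iff_even).1 h

theorem Fam.deg {π : V → P} {k : ℕ} {g : Fin k → V → V} (hg : Fam π k g) (v : V) :
    k + (Finset.univ.filter (fun x => π x = π v)).card ≤ Fintype.card V := by
  have h1 : k ≤ (Finset.univ.filter (fun x => ¬ π x = π v)).card := by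
    have : (Finset.univ.image (fun t : Fin k => g t v)).card = k := by
      rw [Finset.card_image_of_injective _ (fun s t h => hg.dis s t v h)]
      simp
    rw [← this]
    apply Finset.card_le_card
    intro x hx
    rw [Finset.mem_image] at hx
    obtain ⟨t, _, rfl⟩ := hx
    simp only [Finset.mem_filter, Finset.mem_univ, true_and]
    exact hg.par t v
  have h2 := Finset.card_filter_add_card_filter_not (s := (Finset.univ : Finset V))
    (fun x => π x = π v)
  rw [Finset.card_univ] at h2
  omega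

theorem Fam.two {π : V → P} {k : ℕ} {g : Fin k → V → V} (hg : Fam π k g) (hk : 1 ≤ k) (i : P) :
    2 * (Finset.univ.filter (fun x => π x = i)).card ≤ Fintype.card V := by
  have t : Fin k := ⟨0, hk⟩
  have h1 : (Finset.univ.filter (fun x => π x = i)).card ≤
      (Finset.univ.filter (fun x => ¬ π x = i)).card := by
    apply Finset.card_le_card_of_injOn (g t)
    · intro x hx
      simp only [Finset.coe_filter, Finset.mem_univ, true_and, Set.mem_ofPred_eq] at hx ⊢
      rw [← hx]
      exact hg.par t x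
    · exact (hg.inj t).injOn
  have h2 := Finset.card_filter_add_card_filter_not (s := (Finset.univ : Finset V))
    (fun x => π x = i)
  rw [Finset.card_univ] at h2
  omega

theorem Fam.count {π : V → P} {k : ℕ} {g : Fin k → V → V} (hg : Fam π k g) (W : Finset P) :
    (k : ℤ) * (2 * (Finset.univ.filter (fun x => π x ∈ W)).card - Fintype.card V) ≤
      ((Finset.univ.filter (fun x : V × V => π x.1 ∈ W ∧ π x.2 ∈ W ∧ π x.1 ≠ π x.2)).card : ℤ) := by
  set S : Finset V := Finset.univ.filter (fun x => π x ∈ W) with hS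
  have hA : ∀ t : Fin k, (2 * S.card : ℤ) - Fintype.card V ≤ (S.filter (fun v => g t v ∈ S)).card := by
    intro t
    have h1 : (S.filter (fun v => ¬ g t v ∈ S)).card ≤ (Sᶜ).card := by
      apply Finset.card_le_card_of_injOn (g t)
      · intro x hx
        rw [Finset.mem_coe, Finset.mem_filter] at hx
        rw [Finset.mem_coe, Finset.mem_compl]
        exact hx.2
      · exact (hg.inj t).injOn
    have h2 := Finset.card_filter_add_card_filter_not (s := S) (fun v => g t v ∈ S)
    have h3 := Finset.card_compl_add_card S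
    omega
  have hsum : (k : ℤ) * (2 * S.card - Fintype.card V) ≤
      ∑ t : Fin k, ((S.filter (fun v => g t v ∈ S)).card : ℤ) := by
    have : ∑ _t : Fin k, ((2 * S.card : ℤ) - Fintype.card V) ≤
        ∑ t : Fin k, ((S.filter (fun v => g t v ∈ S)).card : ℤ) :=
      Finset.sum_le_sum fun t _ => hA t
    rw [Finset.sum_const, Finset.card_univ, Fintype.card_fin, nsmul_eq_mul] at this
    exact this
  refine hsum.trans ?_
  rw [← Nat.cast_sum]
  rw [← Finset.card_sigma]
  rw [Nat.cast_le]
  apply Finset.card_le_card_of_injOn (fun x => (x.2, g x.1 x.2))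
  · rintro ⟨t, v⟩ hx
    rw [Finset.mem_coe, Finset.mem_sigma, Finset.mem_filter] at hx
    rw [Finset.mem_coe, Finset.mem_filter]
    have h1 := hx.2.1
    have h2 := hx.2.2
    rw [hS, Finset.mem_filter] at h1 h2
    exact ⟨Finset.mem_univ _, h1.2, h2.2, fun h => hg.par t v h.symm⟩
  · rintro ⟨t, v⟩ _ ⟨t', v'⟩ _ h
    simp only [Prod.mk.injEq] at h
    obtain ⟨rfl, h⟩ := h
    have := hg.dis t t' v h
    subst this
    rfl

/-- counting ordered adjacent pairs inside a union of parts -/
theorem count_pairs {P : Type*} [Fintype P] [LinearOrder P] (π : V → P) (W : Finset P) :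
    ((Finset.univ.filter (fun x : V × V => π x.1 ∈ W ∧ π x.2 ∈ W ∧ π x.1 ≠ π x.2)).card : ℤ) =
      (∑ i ∈ W, ((fib π i).card : ℤ)) ^ 2 - ∑ i ∈ W, ((fib π i).card : ℤ) ^ 2 := by
  have hS : ∀ W : Finset P, (Finset.univ.filter (fun x => π x ∈ W)) =
      W.biUnion (fun i => fib π i) := by
    intro W
    ext x
    simp [mem_fib]
  have h1 : (Finset.univ.filter (fun x : V × V => π x.1 ∈ W ∧ π x.2 ∈ W ∧ π x.1 ≠ π x.2)) ∪
      (W.biUnion (fun i => fib π i ×ˢ fib π i)) =
      (Finset.univ.filter (fun x => π x ∈ W)) ×ˢ (Finset.univ.filter (fun x => π x ∈ W)) := by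
    ext ⟨x, y⟩
    simp only [Finset.mem_union, Finset.mem_filter, Finset.mem_univ, true_and, Finset.mem_biUnion,
      Finset.mem_product, mem_fib]
    constructor
    · rintro (⟨h1, h2, _⟩ | ⟨i, hi, rfl, h2⟩)
      · exact ⟨h1, h2⟩
      · exact ⟨hi, by rw [h2]; exact hi⟩
    · rintro ⟨h1, h2⟩
      by_cases h : π x = π y
      · exact Or.inr ⟨π x, h1, rfl, h.symm⟩
      · exact Or.inl ⟨h1, h2, h⟩
  have h2 : Disjoint (Finset.univ.filter
      (fun x : V × V => π x.1 ∈ W ∧ π x.2 ∈ W ∧ π x.1 ≠ π x.2))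
      (W.biUnion (fun i => fib π i ×ˢ fib π i)) := by
    rw [Finset.disjoint_left]
    rintro ⟨x, y⟩ hx hy
    simp only [Finset.mem_filter, Finset.mem_univ, true_and, Finset.mem_biUnion,
      Finset.mem_product, mem_fib] at hx hy
    obtain ⟨i, _, h3, h4⟩ := hy
    exact hx.2.2 (h3.trans h4.symm)
  have h3 := congrArg Finset.card h1
  rw [Finset.card_union_of_disjoint h2, Finset.card_product, hS W, Finset.card_biUnion,
    Finset.card_biUnion] at h3
  · have h4 : ((∑ u ∈ W, (fib π u ×ˢ fib π u).card : ℕ) : ℤ) =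
        ∑ i ∈ W, ((fib π i).card : ℤ) ^ 2 := by
      push_cast
      refine Finset.sum_congr rfl fun i _ => ?_
      rw [Finset.card_product]
      push_cast
      ring
    have h5 := congrArg (fun x : ℕ => (x : ℤ)) h3
    simp only [Nat.cast_add, Nat.cast_mul] at h5
    rw [h4] at h5
    push_cast at h5
    rw [sq (∑ i ∈ W, ((fib π i).card : ℤ)), ← h5]
    ring
  · intro i _ j _ hij
    rw [Function.onFun, Finset.disjoint_left]
    intro x hx hy
    rw [mem_fib] at hx hy
    exact hij (hx.symm.trans hy)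
  · intro i _ j _ hij
    rw [Function.onFun, Finset.disjoint_left]
    rintro ⟨x, y⟩ hx hy
    rw [Finset.mem_product, mem_fib] at hx hy
    exact hij (hx.1.symm.trans hy.1)

theorem card_filter_mem {P : Type*} [Fintype P] [LinearOrder P] (π : V → P) (W : Finset P) :
    ((Finset.univ.filter (fun x => π x ∈ W)).card : ℤ) = ∑ i ∈ W, ((fib π i).card : ℤ) := by
  have hS : (Finset.univ.filter (fun x => π x ∈ W)) = W.biUnion (fun i => fib π i) := by
    ext x
    simp [mem_fib]
  rw [hS, Finset.card_biUnion]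
  · push_cast
    rfl
  · intro i _ j _ hij
    rw [Function.onFun, Finset.disjoint_left]
    intro x hx hy
    rw [mem_fib] at hx hy
    exact hij (hx.symm.trans hy)

end Nec

section Arith

/-- If the inequality holds for all final segments, it holds for all sets of parts. -/
theorem segments {P : Type*} [Fintype P] [LinearOrder P] (a : P → ℤ) (n k : ℤ) (hk : 0 ≤ k)
    (hn : 0 ≤ n) (ha : ∀ i, 1 ≤ a i) (hmono : Monotone a)
    (hseg : ∀ W : Finset P, (∀ i ∈ W, ∀ j, i ≤ j → j ∈ W) → W.Nonempty →
      k * (2 * (∑ i ∈ W, a i) - n) ≤ (∑ i ∈ W, a i) ^ 2 - ∑ i ∈ W, a i ^ 2)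
    (W : Finset P) :
    k * (2 * (∑ i ∈ W, a i) - n) ≤ (∑ i ∈ W, a i) ^ 2 - ∑ i ∈ W, a i ^ 2 := by
  classical
  -- the objective
  obtain ⟨F, hF⟩ : ∃ F : Finset P → ℤ, ∀ W, F W = (∑ i ∈ W, a i) ^ 2 - (∑ i ∈ W, a i ^ 2) -
      k * (2 * (∑ i ∈ W, a i) - n) := ⟨_, fun _ => rfl⟩
  -- rank of a set: number of pairs `(i, j)` with `i ≤ j`, `j ∈ W`
  obtain ⟨ρ, hρ⟩ : ∃ ρ : Finset P → ℕ, ∀ W, ρ W = ∑ j ∈ W, (Finset.univ.filter (fun i => i < j)).card :=
    ⟨_, fun _ => rfl⟩
  -- lexicographic minimiser
  obtain ⟨W0, _, hW0⟩ := Finset.exists_min_image (Finset.univ : Finset (Finset P)) F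
    ⟨∅, Finset.mem_univ _⟩
  obtain ⟨W1, hW1, hW1'⟩ := Finset.exists_max_image
    (Finset.univ.filter (fun W => F W = F W0)) ρ ⟨W0, by simp⟩
  rw [Finset.mem_filter] at hW1
  have hmin : ∀ W, F W1 ≤ F W := fun W => by rw [hW1.2]; exact hW0 W (Finset.mem_univ _)
  have hup : ∀ i ∈ W1, ∀ j, i ≤ j → j ∈ W1 := by
    intro i hi j hij
    by_contra hj
    have hne : i ≠ j := by
      rintro rfl
      exact hj hi
    have hlt : i < j := lt_of_le_of_ne hij hne
    -- removing `i`
    have e1 : ∑ x ∈ W1, a x = a i + ∑ x ∈ W1.erase i, a x := (Finset.add_sum_erase _ _ hi).symm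
    have e2 : ∑ x ∈ W1, a x ^ 2 = a i ^ 2 + ∑ x ∈ W1.erase i, a x ^ 2 :=
      (Finset.add_sum_erase _ (fun x => a x ^ 2) hi).symm
    have hj' : j ∉ W1.erase i := fun h => hj (Finset.mem_of_mem_erase h)
    have e3 : ∑ x ∈ insert j (W1.erase i), a x = a j + ∑ x ∈ W1.erase i, a x :=
      Finset.sum_insert hj'
    have e4 : ∑ x ∈ insert j (W1.erase i), a x ^ 2 = a j ^ 2 + ∑ x ∈ W1.erase i, a x ^ 2 :=
      Finset.sum_insert hj'
    set s := ∑ x ∈ W1.erase i, a x with hs
    set q := ∑ x ∈ W1.erase i, a x ^ 2 with hq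
    have h1 := hmin (W1.erase i)
    have h2 := hmin (insert j (W1.erase i))
    rw [hF, hF, e1, e2, ← hs, ← hq] at h1
    have hle : a i ≤ a j := hmono hij
    have h5 : 1 ≤ a i := ha i
    have h3 : a i * (s - k) ≤ 0 := by nlinarith
    have h6 : s - k ≤ 0 := by
      by_contra hcon
      push Not at hcon
      have : 0 < a i * (s - k) := by positivity
      linarith
    have h4 : F (insert j (W1.erase i)) ≤ F W1 := by
      rw [hF, hF, e1, e2, e3, e4]
      nlinarith [mul_nonneg (sub_nonneg.2 hle) (neg_nonneg.2 h6)]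
    have h7 : F (insert j (W1.erase i)) = F W0 := by
      rw [← hW1.2]
      exact le_antisymm h4 h2
    have h8 := hW1' _ (Finset.mem_filter.2 ⟨Finset.mem_univ _, h7⟩)
    rw [hρ, hρ, Finset.sum_insert hj', ← Finset.add_sum_erase W1 _ hi] at h8
    have h9 : (Finset.univ.filter (fun l => l < i)).card < (Finset.univ.filter (fun l => l < j)).card := by
      apply Finset.card_lt_card
      rw [Finset.ssubset_iff_of_subset]
      · exact ⟨i, by simpa using hlt, by simp⟩
      · intro l hl
        rw [Finset.mem_filter] at hl ⊢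
        exact ⟨hl.1, hl.2.trans hlt⟩
    omega
  have hpos : 0 ≤ F W1 := by
    rcases Finset.eq_empty_or_nonempty W1 with h | h
    · rw [hF, h]
      simp
      positivity
    · have := hseg W1 hup h
      rw [hF]
      linarith
  have := hmin W
  rw [hF W] at this
  linarith

end Arith

end Pool.Agent.H55
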