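import Mathlib

namespace H55PW

/-- there is a two-colouring of `ℤ` with no two `P`-points at distance `M` and no translate of
`{0, D, D + D'}` disjoint from `P`. -/
def Av (M D D' : ℤ) : Prop :=
  ∃ P : ℤ → Prop, (∀ x, P x → ¬ P (x + M)) ∧ ∀ x, P x ∨ P (x + D) ∨ P (x + D + D')

/-- arithmetic certificate of avoidability -/
def Cert (M D1 D2 D3 : ℤ) : Prop :=
  ∃ n i ρ m H1 H2 H3 : ℤ, 0 < n ∧ ρ ≤ m ∧ m ≤ n - ρ ∧ 0 ≤ H1 ∧ 0 ≤ H2 ∧ 0 ≤ H3 ∧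
    H1 + H2 + H3 = 3 * ρ - n ∧ n ∣ i * M - m ∧ n ∣ H1 - ρ + i * D1 ∧ n ∣ H2 - ρ + i * D2 ∧
    n ∣ H3 - ρ + i * D3

theorem cert_av {M D1 D2 D3 : ℤ} (hD : D1 + D2 + D3 = 0) (h : Cert M D1 D2 D3) :
    Av M D1 D2 := by
  obtain ⟨n, i, ρ, m, H1, H2, H3, hn, hm1, hm2, h1, h2, h3, hs, ⟨c0, hc0⟩, ⟨c1, hc1⟩, ⟨c2, hc2⟩,
    ⟨c3, hc3⟩⟩ := h
  refine ⟨fun x => (i * x) % n < ρ, ?_, ?_⟩
  · intro x hx hx'
    have hr0 := Int.emod_nonneg (i * x) hn.ne'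
    have hr1 := Int.emod_lt_of_pos (i * x) hn
    have hs0 := Int.emod_nonneg (i * (x + M)) hn.ne'
    have hs1 := Int.emod_lt_of_pos (i * (x + M)) hn
    have e1 := Int.emod_add_mul_ediv (i * x) n
    have e2 := Int.emod_add_mul_ediv (i * (x + M)) n
    set r := (i * x) % n
    set s := (i * (x + M)) % n
    set q := (i * x) / n
    set q' := (i * (x + M)) / n
    have key : s = r + m + n * (c0 + q - q') := by linear_combination e2 - e1 + hc0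
    rcases lt_trichotomy (c0 + q - q') 0 with hk | hk | hk
    · nlinarith
    · rw [hk] at key; linarith
    · nlinarith
  · intro x
    by_contra hcon
    push Not at hcon
    obtain ⟨ha, hb, hc⟩ := hcon
    have a1 := Int.emod_lt_of_pos (i * x) hn
    have b1 := Int.emod_lt_of_pos (i * (x + D1)) hn
    have d1 := Int.emod_lt_of_pos (i * (x + D1 + D2)) hn
    have e1 := Int.emod_add_mul_ediv (i * x) n
    have e2 := Int.emod_add_mul_ediv (i * (x + D1)) n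
    have e3 := Int.emod_add_mul_ediv (i * (x + D1 + D2)) n
    set r := (i * x) % n
    set s := (i * (x + D1)) % n
    set t := (i * (x + D1 + D2)) % n
    set q1 := (i * x) / n
    set q2 := (i * (x + D1)) / n
    set q3 := (i * (x + D1 + D2)) / n
    -- s - r = ρ - H1 + n * t1
    have k1 : s - r = ρ - H1 + n * (c1 + q1 - q2) := by linear_combination e2 - e1 + hc1
    have k2 : t - s = ρ - H2 + n * (c2 + q2 - q3) := by linear_combination e3 - e2 + hc2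
    have k3 : r - t = ρ - H3 + n * (c3 + q3 - q1) := by
      linear_combination e1 - e3 + hc3 - i * hD
    have t1 : 0 ≤ c1 + q1 - q2 := by
      by_contra hneg
      push Not at hneg
      nlinarith
    have t2 : 0 ≤ c2 + q2 - q3 := by
      by_contra hneg
      push Not at hneg
      nlinarith
    have t3 : 0 ≤ c3 + q3 - q1 := by
      by_contra hneg
      push Not at hneg
      nlinarith
    have hsum : n * ((c1 + q1 - q2) + (c2 + q2 - q3) + (c3 + q3 - q1)) = -n := by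
      linear_combination (-1 : ℤ) * k1 - k2 - k3 + hs
    nlinarith

theorem Cert.swap12 {M D1 D2 D3 : ℤ} (h : Cert M D1 D2 D3) : Cert M D2 D1 D3 := by
  obtain ⟨n, i, ρ, m, H1, H2, H3, hn, hm1, hm2, h1, h2, h3, hs, hc0, hc1, hc2, hc3⟩ := h
  exact ⟨n, i, ρ, m, H2, H1, H3, hn, hm1, hm2, h2, h1, h3, by linarith, hc0, hc2, hc1, hc3⟩

theorem Cert.swap23 {M D1 D2 D3 : ℤ} (h : Cert M D1 D2 D3) : Cert M D1 D3 D2 := by
  obtain ⟨n, i, ρ, m, H1, H2, H3, hn, hm1, hm2, h1, h2, h3, hs, hc0, hc1, hc2, hc3⟩ := h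
  exact ⟨n, i, ρ, m, H1, H3, H2, hn, hm1, hm2, h1, h3, h2, by linarith, hc0, hc1, hc3, hc2⟩

theorem Cert.neg {M D1 D2 D3 : ℤ} (h : Cert M (-D1) (-D2) (-D3)) : Cert M D1 D2 D3 := by
  obtain ⟨n, i, ρ, m, H1, H2, H3, hn, hm1, hm2, h1, h2, h3, hs, ⟨c0, hc0⟩, ⟨c1, hc1⟩, ⟨c2, hc2⟩,
    ⟨c3, hc3⟩⟩ := h
  exact ⟨n, -i, ρ, n - m, H1, H2, H3, hn, by linarith, by linarith, h1, h2, h3, hs,
    ⟨-c0 - 1, by linear_combination (-1 : ℤ) * hc0⟩, ⟨c1, by linear_combination hc1⟩,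
    ⟨c2, by linear_combination hc2⟩, ⟨c3, by linear_combination hc3⟩⟩

/-- only two of the three congruences are needed -/
theorem Cert.mk' {M D1 D2 D3 : ℤ} (hD : D1 + D2 + D3 = 0) (n i ρ m H1 H2 H3 : ℤ) (hn : 0 < n)
    (hm1 : ρ ≤ m) (hm2 : m ≤ n - ρ) (h1 : 0 ≤ H1) (h2 : 0 ≤ H2) (h3 : 0 ≤ H3)
    (hs : H1 + H2 + H3 = 3 * ρ - n) (hc0 : n ∣ i * M - m) (hc1 : n ∣ H1 - ρ + i * D1)
    (hc3 : n ∣ H3 - ρ + i * D3) : Cert M D1 D2 D3 := by
  refine ⟨n, i, ρ, m, H1, H2, H3, hn, hm1, hm2, h1, h2, h3, hs, hc0, hc1, ?_, hc3⟩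
  obtain ⟨c1, hc1⟩ := hc1
  obtain ⟨c3, hc3⟩ := hc3
  exact ⟨-1 - c1 - c3, by linear_combination hs - hc1 - hc3 + i * hD⟩

end H55PW
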