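import Mathlib
import Pool.Agent.H55.PWCert

namespace H55PW

/-- the generic certificate (with `n = 2 M`) -/
def G (M D1 D2 D3 : ℤ) : Prop :=
  ∃ a h1 h2 h3 : ℤ, a % 2 = 1 ∧ 0 ≤ h1 ∧ 0 ≤ h2 ∧ 0 ≤ h3 ∧ h1 + h2 + h3 = M ∧
    2 * M ∣ h1 - M + a * D1 ∧ 2 * M ∣ h2 - M + a * D2 ∧ 2 * M ∣ h3 - M + a * D3

theorem G.cert {M D1 D2 D3 : ℤ} (hM : 0 < M) (h : G M D1 D2 D3) : Cert M D1 D2 D3 := by
  obtain ⟨a, h1, h2, h3, ha, p1, p2, p3, hs, c1, c2, c3⟩ := h
  refine ⟨2 * M, a, M, M, h1, h2, h3, by linarith, le_refl _, by linarith, p1, p2, p3,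
    by linarith, ?_, c1, c2, c3⟩
  obtain ⟨k, hk⟩ : ∃ k, a = 2 * k + 1 := ⟨a / 2, by omega⟩
  exact ⟨k, by rw [hk]; ring⟩

theorem G.swap12 {M D1 D2 D3 : ℤ} (h : G M D1 D2 D3) : G M D2 D1 D3 := by
  obtain ⟨a, h1, h2, h3, ha, p1, p2, p3, hs, c1, c2, c3⟩ := h
  exact ⟨a, h2, h1, h3, ha, p2, p1, p3, by linarith, c2, c1, c3⟩

theorem G.swap23 {M D1 D2 D3 : ℤ} (h : G M D1 D2 D3) : G M D1 D3 D2 := by
  obtain ⟨a, h1, h2, h3, ha, p1, p2, p3, hs, c1, c2, c3⟩ := h
  exact ⟨a, h1, h3, h2, ha, p1, p3, p2, by linarith, c1, c3, c2⟩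

theorem G.mk' {M D1 D2 D3 : ℤ} (hD : D1 + D2 + D3 = 0) (a h1 h2 h3 : ℤ) (ha : a % 2 = 1)
    (p1 : 0 ≤ h1) (p2 : 0 ≤ h2) (p3 : 0 ≤ h3) (hs : h1 + h2 + h3 = M)
    (c1 : 2 * M ∣ h1 - M + a * D1) (c3 : 2 * M ∣ h3 - M + a * D3) : G M D1 D2 D3 := by
  refine ⟨a, h1, h2, h3, ha, p1, p2, p3, hs, c1, ?_, c3⟩
  obtain ⟨k1, e1⟩ := c1
  obtain ⟨k3, e3⟩ := c3
  exact ⟨-1 - k1 - k3, by linear_combination hs - e1 - e3 + a * hD⟩

theorem line {M Da Dc p q r t : ℤ}
    (hB : ∃ α β γ, α * M + β * Da + γ * Dc = 1) (hw : 1 ≤ p + q)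
    (hrel : -p * Da + q * Dc = r * M) (hg : ∃ x y z, x * r + y * p + z * q = 1)
    (ht : ∃ e, q - p - t = r + 2 * e) :
    ∃ a ha hb hc : ℤ, a % 2 = 1 ∧ ha + hb + hc = M ∧ -p * ha + q * hc = t * M ∧ 0 ≤ hb ∧
      hb ≤ 2 * (p + q) - 1 ∧ 2 * M ∣ ha - M + a * Da ∧ 2 * M ∣ hc - M + a * Dc := by
  obtain ⟨α, β, γ, hB⟩ := hB
  obtain ⟨x, y, z, hg⟩ := hg
  obtain ⟨e, he⟩ := ht
  -- Lemma Y
  set a0 := 1 + 2 * (e * x) with ha0
  set ka := -(e * y) with hka
  set kc := e * z with hkc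
  have hY : a0 * r = (q - p - t) + 2 * (p * ka - q * kc) := by
    rw [ha0, hka, hkc, he]
    linear_combination 2 * e * hg
  set A := M - a0 * Da - 2 * M * ka with hA
  set C := M - a0 * Dc - 2 * M * kc with hC
  set B := M - A - C with hBdef
  set b := β * q + γ * p with hb
  have hb1 : b * Da = q - M * (α * q + γ * r) := by
    rw [hb]; linear_combination q * hB - γ * hrel
  have hb2 : b * Dc = p - M * (α * p - β * r) := by
    rw [hb]; linear_combination p * hB + β * hrel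
  have hF : -p * A + q * C = t * M := by
    rw [hA, hC]
    linear_combination (-a0) * hrel - M * hY
  set w := p + q with hwdef
  set j := B / (2 * w) with hj
  have hj1 := Int.emod_nonneg B (show (2 * w) ≠ 0 by omega)
  have hj2 := Int.emod_lt_of_pos B (show 0 < 2 * w by omega)
  have hj3 := Int.emod_add_mul_ediv B (2 * w)
  rw [← hj] at hj3
  refine ⟨a0 - 2 * j * b, A + 2 * j * q, B - 2 * j * w, C + 2 * j * p, ?_, ?_, ?_, ?_, ?_, ?_, ?_⟩
  · have : a0 - 2 * j * b = 1 + 2 * (e * x - j * b) := by rw [ha0]; ring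
    rw [this]; omega
  · rw [hBdef, hwdef]; ring
  · linear_combination hF
  · nlinarith
  · nlinarith
  · exact ⟨-ka + j * (α * q + γ * r), by rw [hA]; linear_combination (-2 * j) * hb1⟩
  · exact ⟨-kc + j * (α * p - β * r), by rw [hC]; linear_combination (-2 * j) * hb2⟩

theorem ineq1 {M w : ℤ} (hM : 14 ≤ M) (hw : 1 ≤ w) (h : w * (w + 1) ≤ 2 * M) :
    2 * w - 1 ≤ M := by
  rcases le_or_gt w 4 with h1 | h1
  · linarith
  · nlinarith

theorem ineq2 {M p q : ℤ} (hM : 14 ≤ M) (hp : 0 ≤ p) (hpq : p ≤ q) (hq : 2 ≤ q)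
    (h : (p + q) * (p + q + 1) ≤ 2 * M) : q * (2 * (p + q) - 1) ≤ (q - 1) * M := by
  rcases eq_or_lt_of_le hq with h2 | h2
  · subst h2
    nlinarith
  · have h3 : 3 * (2 * (p + q) - 1) ≤ 2 * M := by
      rcases le_or_gt (p + q) 4 with h1 | h1
      · linarith
      · nlinarith
    nlinarith [mul_nonneg (show 0 ≤ q - 3 by omega) (show 0 ≤ 2 * (p + q) - 1 by omega),
      mul_nonneg (show 0 ≤ q - 1 by omega) (show 0 ≤ 2 * M - 3 * (2 * (p + q) - 1) by omega)]

theorem core {M Da Db Dc p q r : ℤ} (hM : 14 ≤ M) (hD : Da + Db + Dc = 0)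
    (hB : ∃ α β γ, α * M + β * Da + γ * Dc = 1) (hp : 0 ≤ p) (hq : 0 ≤ q) (hw1 : 1 ≤ p + q)
    (hw : (p + q) * (p + q + 1) ≤ 2 * M) (hrel : -p * Da + q * Dc = r * M)
    (hg : ∃ x y z, x * r + y * p + z * q = 1) :
    G M Da Db Dc ∨ (∃ c, Dc - Da = (2 * c + 1) * M) ∨ (∃ c, Dc = 2 * c * M) ∨
      (∃ c, Da = 2 * c * M) := by
  have hi1 := ineq1 hM hw1 hw
  rcases Int.even_or_odd' (p + q + r) with ⟨e, he | he⟩
  · -- t = 0
    left
    obtain ⟨a, ha, hb, hc, o, hs, hF, b0, b1, c1, c3⟩ := line (t := 0) hB hw1 hrel hg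
      ⟨q - e, by linarith⟩
    have w1 : (p + q) * ha = q * (M - hb) := by linear_combination q * hs - hF
    have w2 : (p + q) * hc = p * (M - hb) := by linear_combination p * hs + hF
    have n1 : 0 ≤ ha := by
      by_contra hneg; push Not at hneg
      nlinarith [mul_nonneg hq (show 0 ≤ M - hb by linarith)]
    have n3 : 0 ≤ hc := by
      by_contra hneg; push Not at hneg
      nlinarith [mul_nonneg hp (show 0 ≤ M - hb by linarith)]
    exact G.mk' hD a ha hb hc o n1 b0 n3 hs c1 c3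
  · by_cases hA : p ≤ q ∧ 2 ≤ q
    · left
      obtain ⟨a, ha, hb, hc, o, hs, hF, b0, b1, c1, c3⟩ := line (t := 1) hB hw1 hrel hg
        ⟨q - e - 1, by linarith⟩
      have hi2 := ineq2 hM hp hA.1 hA.2 hw
      have w1 : (p + q) * ha = q * (M - hb) - M := by linear_combination q * hs - hF
      have w2 : (p + q) * hc = p * (M - hb) + M := by linear_combination p * hs + hF
      have n1 : 0 ≤ ha := by
        by_contra hneg; push Not at hneg
        nlinarith [mul_nonneg hq (show 0 ≤ 2 * (p + q) - 1 - hb by linarith)]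
      have n3 : 0 ≤ hc := by
        by_contra hneg; push Not at hneg
        nlinarith [mul_nonneg hp (show 0 ≤ M - hb by linarith)]
      exact G.mk' hD a ha hb hc o n1 b0 n3 hs c1 c3
    · by_cases hA' : q ≤ p ∧ 2 ≤ p
      · left
        obtain ⟨a, ha, hb, hc, o, hs, hF, b0, b1, c1, c3⟩ := line (t := -1) hB hw1 hrel hg
          ⟨q - e, by linarith⟩
        have hi2 := ineq2 (p := q) (q := p) hM hq hA'.1 hA'.2 (by rw [add_comm q p]; exact hw)
        have w1 : (p + q) * ha = q * (M - hb) + M := by linear_combination q * hs - hF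
        have w2 : (p + q) * hc = p * (M - hb) - M := by linear_combination p * hs + hF
        have n1 : 0 ≤ ha := by
          by_contra hneg; push Not at hneg
          nlinarith [mul_nonneg hq (show 0 ≤ M - hb by linarith)]
        have n3 : 0 ≤ hc := by
          by_contra hneg; push Not at hneg
          nlinarith [mul_nonneg hp (show 0 ≤ 2 * (p + q) - 1 - hb by linarith)]
        exact G.mk' hD a ha hb hc o n1 b0 n3 hs c1 c3
      · right
        have hp1 : p ≤ 1 := by omega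
        have hq1 : q ≤ 1 := by omega
        have hp' : p = 0 ∨ p = 1 := by omega
        have hq' : q = 0 ∨ q = 1 := by omega
        rcases hp' with rfl | rfl <;> rcases hq' with rfl | rfl
        · omega
        · right; left
          exact ⟨e, by linear_combination hrel + M * he⟩
        · right; right
          exact ⟨-e, by linear_combination (-1 : ℤ) * hrel - M * he⟩
        · left
          exact ⟨e - 1, by linear_combination hrel + M * he⟩

theorem core' {M Da Db Dc p q r : ℤ} (hM : 14 ≤ M) (hD : Da + Db + Dc = 0)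
    (hB : ∃ α β γ, α * M + β * Da + γ * Dc = 1) (hp : 0 ≤ p) (hq : 0 ≤ q) (hw1 : 1 ≤ p + q)
    (hw : (p + q) * (p + q + 1) ≤ 2 * M) (hrel : -p * Da + q * Dc = r * M) :
    G M Da Db Dc ∨ (∃ c, Dc - Da = (2 * c + 1) * M) ∨ (∃ c, Dc = 2 * c * M) ∨
      (∃ c, Da = 2 * c * M) := by
  set d : ℤ := ((Int.gcd p q : ℕ) : ℤ) with hd
  set g : ℤ := ((Int.gcd r d : ℕ) : ℤ) with hgdef
  have hd0 : d ≠ 0 := by
    intro h0
    rw [hd] at h0
    have : Int.gcd p q = 0 := by exact_mod_cast h0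
    rw [Int.gcd_eq_zero_iff] at this
    omega
  have hgr : g ∣ r := Int.gcd_dvd_left ..
  have hgd : g ∣ d := Int.gcd_dvd_right ..
  have hgp : g ∣ p := hgd.trans (Int.gcd_dvd_left ..)
  have hgq : g ∣ q := hgd.trans (Int.gcd_dvd_right ..)
  have hg0 : 0 < g := by
    have : (0 : ℤ) ≤ g := by positivity
    rcases this.lt_or_eq with h | h
    · exact h
    · exfalso
      rw [← h] at hgd
      exact hd0 (zero_dvd_iff.mp hgd)
  obtain ⟨r', hr'⟩ := hgr
  obtain ⟨p', hp'⟩ := hgp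
  obtain ⟨q', hq'⟩ := hgq
  have bez1 := Int.gcd_eq_gcd_ab p q
  have bez2 := Int.gcd_eq_gcd_ab r d
  rw [← hd] at bez1
  rw [← hgdef] at bez2
  have hp'0 : 0 ≤ p' := by
    by_contra hneg; push Not at hneg; nlinarith
  have hq'0 : 0 ≤ q' := by
    by_contra hneg; push Not at hneg; nlinarith
  have hw' : 1 ≤ p' + q' := by
    by_contra hneg; push Not at hneg
    have : p' + q' = 0 := by omega
    have h1 : p' = 0 := by omega
    have h2 : q' = 0 := by omega
    rw [h1] at hp'; rw [h2] at hq'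
    simp at hp' hq'
    omega
  have hle : p' + q' ≤ p + q := by
    rw [hp', hq']; nlinarith
  have hww : (p' + q') * (p' + q' + 1) ≤ 2 * M := by nlinarith
  have hrel' : -p' * Da + q' * Dc = r' * M := by
    have : g * (-p' * Da + q' * Dc) = g * (r' * M) := by
      rw [hp', hq', hr'] at hrel
      linear_combination hrel
    exact mul_left_cancel₀ hg0.ne' this
  refine core hM hD hB hp'0 hq'0 hw' hww hrel' ?_
  refine ⟨Int.gcdA r d, Int.gcdA p q * Int.gcdB r d, Int.gcdB p q * Int.gcdB r d, ?_⟩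
  have : g * (Int.gcdA r d * r' + Int.gcdA p q * Int.gcdB r d * p' + Int.gcdB p q * Int.gcdB r d * q')
      = g * 1 := by
    linear_combination (-(Int.gcdA r d)) * hr' - Int.gcdA p q * Int.gcdB r d * hp'
      - Int.gcdB p q * Int.gcdB r d * hq' - bez2 - Int.gcdB r d * bez1
  exact mul_left_cancel₀ hg0.ne' this

end H55PW
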