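import Mathlib
import Pool.Agent.H55.PWGen

namespace H55PW

theorem exists_s (M : ℕ) (hM : 1 ≤ M) : ∃ s : ℕ, s * (s + 1) ≤ 2 * M ∧ 2 * M < (s + 1) * (s + 2) := by
  classical
  have hex : ∃ s : ℕ, 2 * M < (s + 1) * (s + 2) := ⟨M, by nlinarith⟩
  refine ⟨Nat.find hex, ?_, Nat.find_spec hex⟩
  rcases Nat.eq_zero_or_pos (Nat.find hex) with h0 | h0
  · rw [h0]; omega
  · have := Nat.find_min hex (m := Nat.find hex - 1) (by omega)
    push Not at this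
    have e1 : Nat.find hex - 1 + 1 = Nat.find hex := by omega
    have e2 : Nat.find hex - 1 + 2 = Nat.find hex + 1 := by omega
    rw [e1, e2] at this
    exact this

theorem pigeon (M : ℕ) (hM : 1 ≤ M) (D1 D2 : ℤ) :
    ∃ s : ℕ, s * (s + 1) ≤ 2 * M ∧ ∃ x y : ℤ, (x ≠ 0 ∨ y ≠ 0) ∧ -s ≤ x ∧ x ≤ s ∧ -s ≤ y ∧ y ≤ s ∧
      -s ≤ x - y ∧ x - y ≤ s ∧ (M : ℤ) ∣ x * D1 + y * D2 := by
  obtain ⟨s, hs1, hs2⟩ := exists_s M hM
  refine ⟨s, hs1, ?_⟩
  let S : Finset (Σ _ : ℕ, ℕ) := (Finset.range (s + 1)).sigma (fun i => Finset.range (i + 1))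
  let f : (Σ _ : ℕ, ℕ) → ℤ := fun p => ((p.1 : ℤ) * D1 + (p.2 : ℤ) * D2) % M
  have hMpos : (0 : ℤ) < M := by exact_mod_cast hM
  have hcard : M < S.card := by
    have : S.card = ∑ i ∈ Finset.range (s + 1), (i + 1) := by
      simp [S, Finset.card_sigma]
    rw [this]
    have h2 : (∑ i ∈ Finset.range (s + 1), (i + 1)) * 2 = (s + 1) * (s + 2) := by
      have := Finset.sum_range_id_mul_two (s + 2)
      rw [Finset.sum_range_succ'] at this
      simp at this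
      rw [this]; ring
    omega
  have hmap : ∀ p ∈ S, f p ∈ (Finset.range M).image (fun k : ℕ => (k : ℤ)) := by
    intro p _
    have h0 := Int.emod_nonneg ((p.1 : ℤ) * D1 + (p.2 : ℤ) * D2) hMpos.ne'
    have h1 := Int.emod_lt_of_pos ((p.1 : ℤ) * D1 + (p.2 : ℤ) * D2) hMpos
    rw [Finset.mem_image]
    refine ⟨(f p).toNat, ?_, ?_⟩
    · rw [Finset.mem_range]
      have : ((f p).toNat : ℤ) = f p := Int.toNat_of_nonneg h0
      zify
      rw [this]; exact h1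
    · exact Int.toNat_of_nonneg h0
  have hlt : ((Finset.range M).image (fun k : ℕ => (k : ℤ))).card < S.card := by
    refine lt_of_le_of_lt Finset.card_image_le ?_
    rw [Finset.card_range]; exact hcard
  obtain ⟨p, hp, p', hp', hne, heq⟩ := Finset.exists_ne_map_eq_of_card_lt_of_maps_to hlt hmap
  obtain ⟨i, j⟩ := p
  obtain ⟨i', j'⟩ := p'
  simp only [S, Finset.mem_sigma, Finset.mem_range] at hp hp'
  have hne' : ¬ (i = i' ∧ j = j') := by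
    rintro ⟨rfl, rfl⟩
    exact hne rfl
  refine ⟨(i : ℤ) - i', (j : ℤ) - j', ?_, ?_, ?_, ?_, ?_, ?_, ?_, ?_⟩
  · omega
  · omega
  · omega
  · omega
  · omega
  · omega
  · omega
  · have h1 : ((i : ℤ) * D1 + (j : ℤ) * D2) % M = ((i' : ℤ) * D1 + (j' : ℤ) * D2) % M := heq
    have h3 : (M : ℤ) ∣ ((i : ℤ) * D1 + (j : ℤ) * D2) - ((i' : ℤ) * D1 + (j' : ℤ) * D2) :=
      Int.dvd_of_emod_eq_zero (Int.emod_eq_emod_iff_emod_sub_eq_zero.mp h1)
    have h4 : ((i : ℤ) - i') * D1 + ((j : ℤ) - j') * D2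
        = ((i : ℤ) * D1 + (j : ℤ) * D2) - ((i' : ℤ) * D1 + (j' : ℤ) * D2) := by ring
    rw [h4]; exact h3

/-- exceptional situations -/
def Exc (M D1 D2 D3 : ℤ) : Prop :=
  (∃ c, D1 - D2 = (2 * c + 1) * M) ∨ (∃ c, D2 - D3 = (2 * c + 1) * M) ∨
  (∃ c, D3 - D1 = (2 * c + 1) * M) ∨ (∃ c, D1 = 2 * c * M) ∨ (∃ c, D2 = 2 * c * M) ∨
  (∃ c, D3 = 2 * c * M)

theorem Exc.swap12 {M D1 D2 D3 : ℤ} (h : Exc M D1 D2 D3) : Exc M D2 D1 D3 := by
  rcases h with ⟨c, h⟩ | ⟨c, h⟩ | ⟨c, h⟩ | h | h | h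
  · exact Or.inl ⟨-c - 1, by linear_combination (-1 : ℤ) * h⟩
  · exact Or.inr (Or.inr (Or.inl ⟨-c - 1, by linear_combination (-1 : ℤ) * h⟩))
  · exact Or.inr (Or.inl ⟨-c - 1, by linear_combination (-1 : ℤ) * h⟩)
  · exact Or.inr (Or.inr (Or.inr (Or.inr (Or.inl h))))
  · exact Or.inr (Or.inr (Or.inr (Or.inl h)))
  · exact Or.inr (Or.inr (Or.inr (Or.inr (Or.inr h))))

theorem Exc.swap23 {M D1 D2 D3 : ℤ} (h : Exc M D1 D2 D3) : Exc M D1 D3 D2 := by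
  rcases h with ⟨c, h⟩ | ⟨c, h⟩ | ⟨c, h⟩ | h | h | h
  · exact Or.inr (Or.inr (Or.inl ⟨-c - 1, by linear_combination (-1 : ℤ) * h⟩))
  · exact Or.inr (Or.inl ⟨-c - 1, by linear_combination (-1 : ℤ) * h⟩)
  · exact Or.inl ⟨-c - 1, by linear_combination (-1 : ℤ) * h⟩
  · exact Or.inr (Or.inr (Or.inr (Or.inl h)))
  · exact Or.inr (Or.inr (Or.inr (Or.inr (Or.inr h))))
  · exact Or.inr (Or.inr (Or.inr (Or.inr (Or.inl h))))

theorem bez_swap12 {M D1 D2 : ℤ} (hB : ∃ α β γ, α * M + β * D1 + γ * D2 = 1) :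
    ∃ α β γ, α * M + β * D2 + γ * D1 = 1 := by
  obtain ⟨α, β, γ, h⟩ := hB
  exact ⟨α, γ, β, by linarith⟩

theorem bez_swap23 {M D1 D2 D3 : ℤ} (hD : D1 + D2 + D3 = 0)
    (hB : ∃ α β γ, α * M + β * D1 + γ * D2 = 1) :
    ∃ α β γ, α * M + β * D1 + γ * D3 = 1 := by
  obtain ⟨α, β, γ, h⟩ := hB
  exact ⟨α, β - γ, -γ, by linear_combination h - γ * hD⟩

/-- `core'` in terms of `Exc` -/
theorem coreE {M Da Db Dc p q : ℤ} (hM : 14 ≤ M) (hD : Da + Db + Dc = 0)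
    (hB : ∃ α β γ, α * M + β * Da + γ * Dc = 1) (hp : 0 ≤ p) (hq : 0 ≤ q) (hw1 : 1 ≤ p + q)
    (hw : (p + q) * (p + q + 1) ≤ 2 * M) (hrel : M ∣ -p * Da + q * Dc) :
    G M Da Db Dc ∨ Exc M Da Db Dc := by
  obtain ⟨r, hr⟩ := hrel
  rcases core' hM hD hB hp hq hw1 hw (r := r) (by linarith) with h | h | h | h
  · exact Or.inl h
  · exact Or.inr (Or.inr (Or.inr (Or.inl h)))
  · exact Or.inr (Or.inr (Or.inr (Or.inr (Or.inr (Or.inr h)))))
  · exact Or.inr (Or.inr (Or.inr (Or.inr (Or.inl h))))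

theorem pa1 {x y : ℤ} (h : x ≠ 0 ∨ y ≠ 0) (h1 : x ≤ y) (h2 : y ≤ 0) :
    1 ≤ (y - x) + (-y) := by omega
theorem pa2 {x y : ℤ} (h : x ≠ 0 ∨ y ≠ 0) (h1 : x ≤ 0) (h2 : 0 ≤ y) :
    1 ≤ (-x) + y := by omega
theorem pa3 {x y : ℤ} (h : x ≠ 0 ∨ y ≠ 0) (h1 : x ≤ y) (h2 : 0 ≤ x) :
    1 ≤ x + (y - x) := by omega

theorem generic_large {M D1 D2 D3 : ℤ} (hM : 14 ≤ M) (hD : D1 + D2 + D3 = 0)
    (hB : ∃ α β γ, α * M + β * D1 + γ * D2 = 1) : G M D1 D2 D3 ∨ Exc M D1 D2 D3 := by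
  obtain ⟨s, hs, x, y, hxy, x1, x2, y1, y2, z1, z2, hdvd⟩ := pigeon M.toNat (by omega) D1 D2
  have hMc : ((M.toNat : ℕ) : ℤ) = M := Int.toNat_of_nonneg (by omega)
  rw [hMc] at hdvd
  have hs' : (s : ℤ) * (s + 1) ≤ 2 * M := by
    rw [← hMc]; exact_mod_cast hs
  have hs0 : (0 : ℤ) ≤ s := by positivity
  have hww : ∀ w : ℤ, 1 ≤ w → w ≤ s → w * (w + 1) ≤ 2 * M := by
    intro w h0 h1; nlinarith
  have hB13 := bez_swap23 hD hB
  have hB21 := bez_swap12 hB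
  have hB23 := bez_swap23 (D3 := D3) (by linarith) hB21
  have hB31 := bez_swap12 hB13
  have hB32 := bez_swap12 hB23
  have hD132 : D1 + D3 + D2 = 0 := by linarith
  have hD312 : D3 + D1 + D2 = 0 := by linarith
  have hD213 : D2 + D1 + D3 = 0 := by linarith
  have hD231 : D2 + D3 + D1 = 0 := by linarith
  have hD321 : D3 + D2 + D1 = 0 := by linarith
  obtain ⟨k, hk⟩ := hdvd
  clear hs hs' hMc
  -- v = (x, y, 0)
  rcases le_total x y with hxy' | hxy' <;> rcases le_total y 0 with hy | hy <;>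
    rcases le_total x 0 with hx | hx
  · -- x ≤ y ≤ 0 : min 1, mid 2, max 3
    have r1 : M ∣ -(y - x) * D1 + (-y) * D3 := ⟨k, by linear_combination hk - y * hD⟩
    have h1 := pa1 hxy hxy' hy
    exact coreE hM hD hB13 (by linarith) (by linarith) h1 (hww _ h1 (by linarith)) r1
  · -- x = y = 0
    exact absurd (pa3 hxy hxy' hx) (by linarith)
  · -- x ≤ 0 ≤ y : min 1, mid 3, max 2
    have r2 : M ∣ -(-x) * D1 + y * D2 := ⟨k, by linear_combination hk⟩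
    have h1 := pa2 hxy hx hy
    have h := coreE hM hD132 hB (by linarith) (by linarith) h1 (hww _ h1 (by linarith)) r2
    exact h.imp (fun h => h.swap23) (fun h => h.swap23)
  · -- 0 ≤ x ≤ y : min 3, mid 1, max 2
    have r3 : M ∣ -x * D3 + (y - x) * D2 := ⟨k, by linear_combination hk - x * hD⟩
    have h1 := pa3 hxy hxy' hx
    have h := coreE hM hD312 hB32 (by linarith) (by linarith) h1 (hww _ h1 (by linarith)) r3
    exact h.imp (fun h => h.swap12.swap23) (fun h => h.swap12.swap23)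
  · -- y ≤ x, y ≤ 0, x ≤ 0 : min 2, mid 1, max 3
    have r4 : M ∣ -(x - y) * D2 + (-x) * D3 := ⟨k, by linear_combination hk - x * hD⟩
    have h1 := pa1 hxy.symm hxy' hx
    have h := coreE hM hD213 hB23 (by linarith) (by linarith) h1 (hww _ h1 (by linarith)) r4
    exact h.imp (fun h => h.swap12) (fun h => h.swap12)
  · -- y ≤ 0 ≤ x : min 2, mid 3, max 1
    have r5 : M ∣ -(-y) * D2 + x * D1 := ⟨k, by linear_combination hk⟩
    have h1 := pa2 hxy.symm hy hx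
    have h := coreE hM hD231 hB21 (by linarith) (by linarith) h1 (hww _ h1 (by linarith)) r5
    exact h.imp (fun h => h.swap23.swap12) (fun h => h.swap23.swap12)
  · exact absurd (pa3 hxy.symm hxy' hy) (by linarith)
  · -- 0 ≤ y ≤ x : min 3, mid 2, max 1
    have r6 : M ∣ -y * D3 + (x - y) * D1 := ⟨k, by linear_combination hk - y * hD⟩
    have h1 := pa3 hxy.symm hxy' hy
    have h := coreE hM hD321 hB31 (by linarith) (by linarith) h1 (hww _ h1 (by linarith)) r6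
    exact h.imp (fun h => h.swap12.swap23.swap12) (fun h => h.swap12.swap23.swap12)

end H55PW
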