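import Mathlib
import Pool.Agent.H55.PWGen2

namespace H55PW

def chk (M d1 d2 : ℕ) : Bool :=
  (Nat.gcd M (Nat.gcd d1 d2) != 1) ||
  ((List.range M).any fun a' =>
    (M + (2 * M - d1) * (2 * a' + 1)) % (2 * M) + (M + (2 * M - d2) * (2 * a' + 1)) % (2 * M) +
      (M + (d1 + d2) * (2 * a' + 1)) % (2 * M) == M) ||
  ((d1 + 2 * M - d2) % (2 * M) == M) || ((d1 + 2 * d2) % (2 * M) == M) ||
  ((2 * d1 + d2) % (2 * M) == M) || (d1 == 0) || (d2 == 0) || ((d1 + d2) % (2 * M) == 0) ||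
  (M == 7 && ((d1 == 2 && d2 == 4) || (d1 == 4 && d2 == 2) || (d1 == 2 && d2 == 8) ||
    (d1 == 8 && d2 == 2) || (d1 == 4 && d2 == 8) || (d1 == 8 && d2 == 4) ||
    (d1 == 12 && d2 == 10) || (d1 == 10 && d2 == 12) || (d1 == 12 && d2 == 6) ||
    (d1 == 6 && d2 == 12) || (d1 == 10 && d2 == 6) || (d1 == 6 && d2 == 10)))

def allChk : Bool :=
  (List.range 13).all fun M => (List.range (2 * (M + 1))).all fun d1 =>
    (List.range (2 * (M + 1))).all fun d2 => chk (M + 1) d1 d2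

theorem allChk_true : allChk = true := by decide +kernel

theorem chk_true {M d1 d2 : ℕ} (h1 : 1 ≤ M) (h2 : M ≤ 13) (h3 : d1 < 2 * M) (h4 : d2 < 2 * M) :
    chk M d1 d2 = true := by
  have h := allChk_true
  unfold allChk at h
  rw [List.all_eq_true] at h
  have h' := h (M - 1) (List.mem_range.mpr (by omega))
  rw [List.all_eq_true] at h'
  have h'' := h' d1 (List.mem_range.mpr (by omega))
  rw [List.all_eq_true] at h''
  have h3 := h'' d2 (List.mem_range.mpr (by omega))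
  have e : M - 1 + 1 = M := by omega
  rw [e] at h3
  exact h3

/-- the Fano residues -/
def FanoRes (D1 D2 : ℤ) : Prop :=
  (D1 % 14 = 2 ∧ D2 % 14 = 4) ∨ (D1 % 14 = 4 ∧ D2 % 14 = 2) ∨ (D1 % 14 = 2 ∧ D2 % 14 = 8) ∨
  (D1 % 14 = 8 ∧ D2 % 14 = 2) ∨ (D1 % 14 = 4 ∧ D2 % 14 = 8) ∨ (D1 % 14 = 8 ∧ D2 % 14 = 4) ∨
  (D1 % 14 = 12 ∧ D2 % 14 = 10) ∨ (D1 % 14 = 10 ∧ D2 % 14 = 12) ∨
  (D1 % 14 = 12 ∧ D2 % 14 = 6) ∨ (D1 % 14 = 6 ∧ D2 % 14 = 12) ∨
  (D1 % 14 = 10 ∧ D2 % 14 = 6) ∨ (D1 % 14 = 6 ∧ D2 % 14 = 10)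

theorem generic_small {M D1 D2 D3 : ℤ} (hM : 1 ≤ M) (hM13 : M ≤ 13) (hD : D1 + D2 + D3 = 0)
    (hB : ∃ α β γ, α * M + β * D1 + γ * D2 = 1) :
    G M D1 D2 D3 ∨ Exc M D1 D2 D3 ∨ (M = 7 ∧ FanoRes D1 D2) := by
  obtain ⟨m, rfl⟩ : ∃ m : ℕ, M = m := ⟨M.toNat, by omega⟩
  have hm1 : 1 ≤ m := by omega
  have hm13 : m ≤ 13 := by omega
  have hpos : (0 : ℤ) < 2 * m := by omega
  have a0 := Int.emod_nonneg D1 hpos.ne'
  have a1 := Int.emod_lt_of_pos D1 hpos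
  have b0 := Int.emod_nonneg D2 hpos.ne'
  have b1 := Int.emod_lt_of_pos D2 hpos
  have qa := Int.emod_add_mul_ediv D1 (2 * m)
  have qb := Int.emod_add_mul_ediv D2 (2 * m)
  obtain ⟨d1, hd1⟩ : ∃ d : ℕ, D1 % (2 * m) = d := ⟨(D1 % (2 * m)).toNat, by omega⟩
  obtain ⟨d2, hd2⟩ : ∃ d : ℕ, D2 % (2 * m) = d := ⟨(D2 % (2 * m)).toNat, by omega⟩
  rw [hd1] at a0 a1 qa
  rw [hd2] at b0 b1 qb
  set q1 := D1 / (2 * m) with hq1
  set q2 := D2 / (2 * m) with hq2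
  have hd1' : d1 < 2 * m := by exact_mod_cast a1
  have hd2' : d2 < 2 * m := by exact_mod_cast b1
  have h := chk_true hm1 hm13 hd1' hd2'
  have hmod : ∀ x : ℕ, ∃ q : ℤ, (x : ℤ) = ((x % (2 * m) : ℕ) : ℤ) + 2 * m * q := by
    intro x
    refine ⟨((x / (2 * m) : ℕ) : ℤ), ?_⟩
    have := Nat.mod_add_div x (2 * m)
    have h2 : ((x % (2 * m) + 2 * m * (x / (2 * m)) : ℕ) : ℤ) = (x : ℤ) := by rw [this]
    push_cast at h2
    push_cast
    linarith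
  unfold chk at h
  simp only [Bool.or_eq_true, bne_iff_ne, ne_eq, List.any_eq_true, List.mem_range, beq_iff_eq,
    Bool.and_eq_true] at h
  rcases h with (((((((h | h) | h) | h) | h) | h) | h) | h) | h
  · exfalso
    apply h
    obtain ⟨α, β, γ, hB⟩ := hB
    have hg : ((Nat.gcd m (Nat.gcd d1 d2) : ℕ) : ℤ) ∣ 1 := by
      have g1 : ((Nat.gcd m (Nat.gcd d1 d2) : ℕ) : ℤ) ∣ (m : ℤ) := by
        exact_mod_cast Nat.gcd_dvd_left ..
      have g2 : ((Nat.gcd m (Nat.gcd d1 d2) : ℕ) : ℤ) ∣ (d1 : ℤ) := by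
        exact_mod_cast (Nat.gcd_dvd_right _ _).trans (Nat.gcd_dvd_left _ _)
      have g3 : ((Nat.gcd m (Nat.gcd d1 d2) : ℕ) : ℤ) ∣ (d2 : ℤ) := by
        exact_mod_cast (Nat.gcd_dvd_right _ _).trans (Nat.gcd_dvd_right _ _)
      have e : (1 : ℤ) = (α + β * (2 * q1) + γ * (2 * q2)) * m + β * d1 + γ * d2 := by
        linear_combination (-1 : ℤ) * hB - β * qa - γ * qb
      rw [e]
      exact dvd_add (dvd_add (Dvd.dvd.mul_left g1 _) (Dvd.dvd.mul_left g2 _))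
        (Dvd.dvd.mul_left g3 _)
    have h1 := Int.natCast_dvd_natCast.mp (show ((Nat.gcd m (Nat.gcd d1 d2) : ℕ) : ℤ) ∣ ((1 : ℕ) : ℤ) by exact_mod_cast hg)
    exact Nat.dvd_one.mp h1
  · left
    obtain ⟨a', _, ha⟩ := h
    obtain ⟨s1, hs1⟩ := hmod (m + (2 * m - d1) * (2 * a' + 1))
    obtain ⟨s3, hs3⟩ := hmod (m + (d1 + d2) * (2 * a' + 1))
    refine G.mk' hD (2 * a' + 1) (((m + (2 * m - d1) * (2 * a' + 1)) % (2 * m) : ℕ) : ℤ)
      (((m + (2 * m - d2) * (2 * a' + 1)) % (2 * m) : ℕ) : ℤ)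
      (((m + (d1 + d2) * (2 * a' + 1)) % (2 * m) : ℕ) : ℤ) (by omega) (by positivity)
      (by positivity) (by positivity) (by exact_mod_cast ha) ?_ ?_
    · have hc : ((m + (2 * m - d1) * (2 * a' + 1) : ℕ) : ℤ)
          = m + (2 * m - d1) * (2 * a' + 1) := by
        push_cast [Nat.cast_sub hd1'.le]; ring
      rw [hc] at hs1
      exact ⟨(2 * a' + 1) * (1 + q1) - s1, by linear_combination (-1 : ℤ) * hs1 - (2 * a' + 1) * qa⟩
    · have hc : ((m + (d1 + d2) * (2 * a' + 1) : ℕ) : ℤ)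
          = m + (d1 + d2) * (2 * a' + 1) := by
        push_cast; ring
      rw [hc] at hs3
      exact ⟨-(2 * a' + 1) * (q1 + q2) - s3, by
        linear_combination (-1 : ℤ) * hs3 + (2 * a' + 1) * qa + (2 * a' + 1) * qb + (2 * a' + 1) * hD⟩
  · right; left
    obtain ⟨s, hs⟩ := hmod (d1 + 2 * m - d2)
    rw [h, Nat.cast_sub (by omega)] at hs
    push_cast at hs
    exact Or.inl ⟨s - 1 + q1 - q2, by linear_combination hs - qa + qb⟩
  · right; left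
    obtain ⟨s, hs⟩ := hmod (d1 + 2 * d2)
    rw [h] at hs
    push_cast at hs
    exact Or.inr (Or.inl ⟨s + q1 + 2 * q2, by linear_combination hs - qa - 2 * qb - hD⟩)
  · right; left
    obtain ⟨s, hs⟩ := hmod (2 * d1 + d2)
    rw [h] at hs
    push_cast at hs
    exact Or.inr (Or.inr (Or.inl ⟨-(s + 2 * q1 + q2) - 1, by
      linear_combination (-1 : ℤ) * hs + 2 * qa + qb + hD⟩))
  · right; left
    subst h
    exact Or.inr (Or.inr (Or.inr (Or.inl ⟨q1, by push_cast at qa; linear_combination (-1 : ℤ) * qa⟩)))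
  · right; left
    subst h
    exact Or.inr (Or.inr (Or.inr (Or.inr (Or.inl ⟨q2, by push_cast at qb; linear_combination (-1 : ℤ) * qb⟩))))
  · right; left
    obtain ⟨s, hs⟩ := hmod (d1 + d2)
    rw [h] at hs
    push_cast at hs
    exact Or.inr (Or.inr (Or.inr (Or.inr (Or.inr ⟨-(s + q1 + q2), by
      linear_combination (-1 : ℤ) * hs + qa + qb + hD⟩))))
  · right; right
    obtain ⟨h7, h⟩ := h
    subst h7
    refine ⟨by norm_num, ?_⟩
    have e1 : D1 % 14 = d1 := by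
      have : ((2 : ℤ) * ((7 : ℕ) : ℤ)) = 14 := by norm_num
      rw [this] at hd1; exact hd1
    have e2 : D2 % 14 = d2 := by
      have : ((2 : ℤ) * ((7 : ℕ) : ℤ)) = 14 := by norm_num
      rw [this] at hd2; exact hd2
    unfold FanoRes
    rw [e1, e2]
    rcases h with ((((((((((h | h) | h) | h) | h) | h) | h) | h) | h) | h) | h) | h <;>
      obtain ⟨rfl, rfl⟩ := h <;> simp

theorem generic {M D1 D2 D3 : ℤ} (hM : 1 ≤ M) (hD : D1 + D2 + D3 = 0)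
    (hB : ∃ α β γ, α * M + β * D1 + γ * D2 = 1) :
    G M D1 D2 D3 ∨ Exc M D1 D2 D3 ∨ (M = 7 ∧ FanoRes D1 D2) := by
  rcases le_or_gt M 13 with h | h
  · exact generic_small hM h hD hB
  · rcases generic_large (by omega) hD hB with h | h
    · exact Or.inl h
    · exact Or.inr (Or.inl h)

end H55PW
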