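import Mathlib
import Pool.Agent.H55.PWSmall

namespace H55PW

theorem typeII_aux {M t k e n ε α β : ℤ} (hε : ε = 1 ∨ ε = -1) (hB : α * M + β * t = 1)
    (ht : t = (2 * e + 1) * M + ε * (2 * n + 1)) (hn : k ≤ n) (hk : 1 ≤ k) (he : 0 ≤ e)
    (hek : e + 1 ≤ k) : Cert M t (2 * k * M - t) (-(2 * k * M)) := by
  set j := α + β * (2 * e + 1) with hj
  have hjM : j * M = 1 - β * ε * (2 * n + 1) := by
    rw [hj]; rw [ht] at hB; linear_combination hB
  refine Cert.mk' (by ring) (2 * n + 1) (j * n) n n e (k - e - 1) (n - k) (by omega)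
    le_rfl (by omega) he (by omega) (by omega) (by ring) ?_ ?_ ?_
  · exact ⟨-(β * ε * n), by linear_combination n * hjM⟩
  · refine ⟨e - (2 * e + 1) * n * β * ε + j * n * ε, ?_⟩
    rw [ht]
    linear_combination n * (2 * e + 1) * hjM
  · refine ⟨-k + 2 * k * n * β * ε, ?_⟩
    linear_combination (-2 * k * n) * hjM

theorem odd_dist {M t e : ℤ} (h : (M + t) % 2 = 1) (k : ℤ) (hk : 1 ≤ k) :
    (∃ n ε : ℤ, (ε = 1 ∨ ε = -1) ∧ t = (2 * e + 1) * M + ε * (2 * n + 1) ∧ k ≤ n) ∨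
    (-(2 * k - 1) ≤ t - (2 * e + 1) * M ∧ t - (2 * e + 1) * M ≤ 2 * k - 1 ∧
      (t - (2 * e + 1) * M) % 2 = 1) := by
  set x := t - (2 * e + 1) * M with hx
  have hx2 : x % 2 = 1 := by
    have : x = (M + t) - 2 * ((e + 1) * M) := by rw [hx]; ring
    omega
  rcases le_or_gt (2 * k) x with h1 | h1
  · left
    refine ⟨(x - 1) / 2, 1, Or.inl rfl, ?_, by omega⟩
    have : 2 * ((x - 1) / 2) + 1 = x := by omega
    rw [this, hx]; ring
  · rcases le_or_gt x (-(2 * k)) with h2 | h2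
    · left
      refine ⟨(-x - 1) / 2, -1, Or.inr rfl, ?_, by omega⟩
      have : 2 * ((-x - 1) / 2) + 1 = -x := by omega
      rw [this, hx]; ring
    · right
      exact ⟨by omega, by omega, hx2⟩

theorem typeII_M1 {p k : ℤ} (hp : 1 ≤ p) (hpk : p + 1 ≤ k) :
    Cert 1 (2 * p) (2 * k * 1 - 2 * p) (-(2 * k * 1)) := by
  refine Cert.mk' (by ring) (2 * k - 1) k (k - 1) k (k - 1 - p) (p - 1) 0 (by omega)
    (by omega) (by omega) (by omega) (by omega) le_rfl (by ring) ?_ ?_ ?_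
  · exact ⟨0, by ring⟩
  · exact ⟨p, by ring⟩
  · exact ⟨-(k + 1), by ring⟩

theorem typeII {M t k : ℤ} (hM : 1 ≤ M) (hk : 1 ≤ k) (hB : ∃ α β, α * M + β * t = 1)
    (ht : t ≠ 0) (ht2 : t ≠ 2 * k * M) (hpar : ¬ (M % 2 = 1 ∧ t % 2 = 1)) :
    Cert M t (2 * k * M - t) (-(2 * k * M)) ∨ (k = 1 ∧ (t = M + 1 ∨ t = M - 1)) ∨
      (M = 2 ∧ (t = 2 * k + 1 ∨ t = 2 * k - 1)) := by
  obtain ⟨α, β, hB⟩ := hB
  have hodd : (M + t) % 2 = 1 := by
    by_contra hcon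
    have h1 : M % 2 = 0 ∧ t % 2 = 0 := by omega
    obtain ⟨a, ha⟩ : ∃ a, M = 2 * a := ⟨M / 2, by omega⟩
    obtain ⟨b, hb⟩ : ∃ b, t = 2 * b := ⟨t / 2, by omega⟩
    rw [ha, hb] at hB
    have : 2 * (α * a + β * b) = 1 := by linarith
    omega
  rcases odd_dist (e := 0) hodd k hk with ⟨n, ε, hε, h1, h2⟩ | ⟨h1, h2, h3⟩
  · left
    exact typeII_aux hε hB h1 h2 hk le_rfl (by omega)
  rcases odd_dist (e := k - 1) hodd k hk with ⟨n, ε, hε, g1, g2⟩ | ⟨g1, g2, g3⟩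
  · left
    exact typeII_aux hε hB g1 g2 hk (by omega) (by omega)
  have e1 : (2 * (k - 1) + 1) * M = (2 * k - 1) * M := by ring
  rw [e1] at g1 g2 g3
  have e0 : (2 * (0 : ℤ) + 1) * M = M := by ring
  rw [e0] at h1 h2 h3
  rcases eq_or_lt_of_le hk with hk1 | hk1
  · subst hk1
    right; left
    refine ⟨rfl, ?_⟩
    omega
  · have hM3 : M ≤ 3 := by
      by_contra hcon
      push Not at hcon
      nlinarith
    have hMc : M = 1 ∨ M = 2 ∨ M = 3 := by omega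
    rcases hMc with rfl | rfl | rfl
    · -- M = 1
      left
      obtain ⟨p, hp⟩ : ∃ p, t = 2 * p := ⟨t / 2, by omega⟩
      subst hp
      exact typeII_M1 (by omega) (by omega)
    · right; right
      refine ⟨rfl, ?_⟩
      omega
    · exfalso
      have hk2 : k = 2 := by omega
      subst hk2
      have ht6 : t = 6 := by omega
      subst ht6
      omega

theorem typeI_aux1 {M u e n ε α β : ℤ} (hε : ε = 1 ∨ ε = -1) (hB : α * M + β * u = 1)
    (hu : u = M + ε * (2 * n + 1)) (hn : e ≤ n) (he : 1 ≤ e) :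
    Cert M u ((2 * e + 1) * M - 2 * u) (u - (2 * e + 1) * M) := by
  have hjM : (α + β) * M = 1 - β * ε * (2 * n + 1) := by
    rw [hu] at hB; linear_combination hB
  refine Cert.mk' (by ring) (2 * n + 1) ((α + β) * n) n n 0 (e - 1) (n - e) (by omega)
    le_rfl (by omega) le_rfl (by omega) (by omega) (by ring) ?_ ?_ ?_
  · exact ⟨-(β * ε * n), by linear_combination n * hjM⟩
  · refine ⟨-(β * ε * n) + (α + β) * n * ε, ?_⟩
    rw [hu]
    linear_combination n * hjM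
  · refine ⟨-e + 2 * e * n * β * ε + (α + β) * n * ε, ?_⟩
    rw [hu]
    linear_combination (-2 * e * n) * hjM

theorem typeI_aux2 {M u e n ε α β : ℤ} (hε : ε = 1 ∨ ε = -1) (hB : α * M + β * u = 1)
    (hu : u = 2 * e * M + ε * (2 * n + 1)) (hn : e ≤ n) (he : 1 ≤ e) :
    Cert M u ((2 * e + 1) * M - 2 * u) (u - (2 * e + 1) * M) := by
  have hjM : (α + β * (2 * e)) * M = 1 - β * ε * (2 * n + 1) := by
    rw [hu] at hB; linear_combination hB
  refine Cert.mk' (by ring) (2 * n + 1) ((α + β * (2 * e)) * (n + 1)) n (n + 1) (n - e) (e - 1) 0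
    (by omega) (by omega) (by omega) (by omega) (by omega) le_rfl (by ring) ?_ ?_ ?_
  · exact ⟨-(β * ε * (n + 1)), by linear_combination (n + 1) * hjM⟩
  · refine ⟨e - 2 * e * (n + 1) * β * ε + (α + β * (2 * e)) * (n + 1) * ε, ?_⟩
    rw [hu]
    linear_combination (2 * e * (n + 1)) * hjM
  · refine ⟨-1 + (n + 1) * β * ε + (α + β * (2 * e)) * (n + 1) * ε, ?_⟩
    rw [hu]
    linear_combination (-(n + 1)) * hjM

theorem typeI {M u e : ℤ} (hM : 1 ≤ M) (hM2 : M % 2 = 0) (he : 1 ≤ e)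
    (hB : ∃ α β, α * M + β * u = 1) (hb : (2 * e + 1) * M - 2 * u ≠ 0) :
    Cert M u ((2 * e + 1) * M - 2 * u) (u - (2 * e + 1) * M) := by
  obtain ⟨α, β, hB⟩ := hB
  have hodd : u % 2 = 1 := by
    by_contra hcon
    obtain ⟨a, ha⟩ : ∃ a, M = 2 * a := ⟨M / 2, by omega⟩
    obtain ⟨b, hb⟩ : ∃ b, u = 2 * b := ⟨u / 2, by omega⟩
    rw [ha, hb] at hB
    have : 2 * (α * a + β * b) = 1 := by linarith
    omega
  obtain ⟨N, hN⟩ : ∃ N, M = 2 * N := ⟨M / 2, by omega⟩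
  have hx2 : (u - M) % 2 = 1 := by omega
  rcases le_or_gt (2 * e + 1) (u - M) with h1 | h1
  · exact typeI_aux1 (n := (u - M - 1) / 2) (ε := 1) (Or.inl rfl) hB (by omega) (by omega) he
  rcases le_or_gt (u - M) (-(2 * e + 1)) with h2 | h2
  · exact typeI_aux1 (n := (-(u - M) - 1) / 2) (ε := -1) (Or.inr rfl) hB (by omega) (by omega) he
  have hy2 : (u - 2 * e * M) % 2 = 1 := by
    have : u - 2 * e * M = u - 2 * (e * M) := by ring
    omega
  set y := u - 2 * e * M with hy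
  rcases le_or_gt (2 * e + 1) y with h3 | h3
  · refine typeI_aux2 (n := (y - 1) / 2) (ε := 1) (Or.inl rfl) hB ?_ (by omega) he
    have : 2 * ((y - 1) / 2) + 1 = y := by omega
    rw [this, hy]; ring
  rcases le_or_gt y (-(2 * e + 1)) with h4 | h4
  · refine typeI_aux2 (n := (-y - 1) / 2) (ε := -1) (Or.inr rfl) hB ?_ (by omega) he
    have : 2 * ((-y - 1) / 2) + 1 = -y := by omega
    rw [this, hy]; ring
  -- both fail
  exfalso
  have k1 : u - M ≤ 2 * e - 1 := by omega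
  have k2 : -(2 * e - 1) ≤ y := by omega
  have k3 : (2 * e - 1) * M ≤ 2 * (2 * e - 1) := by
    have : (2 * e - 1) * M = (u - M) - y := by rw [hy]; ring
    linarith
  have hMle : M ≤ 2 := by
    by_contra hcon
    push Not at hcon
    nlinarith
  have hM2' : M = 2 := by omega
  subst hM2'
  apply hb
  omega

/-- the Fano case -/
theorem fano {D1 D2 D3 : ℤ} (hD : D1 + D2 + D3 = 0) (h1 : D1 % 14 = 2) (h2 : D2 % 14 = 4)
    (h3 : D3 % 14 = 8) (hne : ¬ (D1 = 2 ∧ D2 = 4)) : Cert 7 D1 D2 D3 := by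
  obtain ⟨a, ha⟩ : ∃ a, D1 = 14 * a + 2 := ⟨D1 / 14, by omega⟩
  obtain ⟨b, hb⟩ : ∃ b, D2 = 14 * b + 4 := ⟨D2 / 14, by omega⟩
  have hc : D3 = -14 * (a + b) - 6 := by omega
  rcases le_or_gt 0 a with ha0 | ha0 <;> rcases le_or_gt 0 b with hb0 | hb0
  · -- D1 > 0, D2 > 0, D3 < 0 : u = 3, σ = 1, E = -D3 - 7
    refine Cert.mk' hD (14 * (-D3 - 7)) (1 * (-D3 - 7) + 1) (7 * (-D3 - 7 - 1)) (7 * (-D3 - 7) + 7)
      (5 * (-D3 - 7) - (7 + D1)) (3 * (-D3 - 7) - (7 + D2)) (-1 * (-D3 - 7) - (7 + D3)) (by omega)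
      (by omega) (by omega) (by omega) (by omega) (by omega) (by linarith) ?_ ?_ ?_
    · exact ⟨0, by ring⟩
    · exact ⟨a, by rw [ha]; ring⟩
    · exact ⟨-(a + b + 1), by rw [hc]; ring⟩
  · -- D1 > 0, D2 < 0
    rcases le_or_gt 0 (-(a + b) - 1) with hd0 | hd0
    · -- D3 > 0: D2 opposite (negative), σ = 1, a = 9, E = -D2 - 7
      refine Cert.mk' hD (14 * (-D2 - 7)) (9 * (-D2 - 7) + 1) (7 * (-D2 - 7 - 1)) (7 * (-D2 - 7) + 7)
        (3 * (-D2 - 7) - (7 + D1)) (-1 * (-D2 - 7) - (7 + D2)) (5 * (-D2 - 7) - (7 + D3)) (by omega)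
        (by omega) (by omega) (by omega) (by omega) (by omega) (by linarith) ?_ ?_ ?_
      · exact ⟨4, by ring⟩
      · exact ⟨9 * a + 1, by rw [ha]; ring⟩
      · exact ⟨-(9 * a + 9 * b) - 4, by rw [hc]; ring⟩
    · -- D3 < 0 : D1 opposite (positive), σ = -1, a = 11, E = D1 - 7
      refine Cert.mk' hD (14 * (D1 - 7)) (11 * (D1 - 7) - 1) (7 * (D1 - 7 - 1)) (7 * (D1 - 7) - 7)
        (-1 * (D1 - 7) - (7 - D1)) (5 * (D1 - 7) - (7 - D2)) (3 * (D1 - 7) - (7 - D3)) (by omega)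
        (by omega) (by omega) (by omega) (by omega) (by omega) (by linarith) ?_ ?_ ?_
      · exact ⟨5, by ring⟩
      · exact ⟨11 * a + 1, by rw [ha]; ring⟩
      · exact ⟨-(11 * a + 11 * b) - 5, by rw [hc]; ring⟩
  · -- D1 < 0, D2 > 0
    rcases le_or_gt 0 (-(a + b) - 1) with hd0 | hd0
    · -- D3 > 0 : D1 opposite (negative), σ = 1, E = -D1 - 7
      refine Cert.mk' hD (14 * (-D1 - 7)) (11 * (-D1 - 7) + 1) (7 * (-D1 - 7 - 1)) (7 * (-D1 - 7) + 7)
        (-1 * (-D1 - 7) - (7 + D1)) (5 * (-D1 - 7) - (7 + D2)) (3 * (-D1 - 7) - (7 + D3)) (by omega)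
        (by omega) (by omega) (by omega) (by omega) (by omega) (by linarith) ?_ ?_ ?_
      · exact ⟨5, by ring⟩
      · exact ⟨11 * a + 1, by rw [ha]; ring⟩
      · exact ⟨-(11 * a + 11 * b) - 5, by rw [hc]; ring⟩
    · -- D3 < 0 : D2 opposite (positive), σ = -1, E = D2 - 7
      refine Cert.mk' hD (14 * (D2 - 7)) (9 * (D2 - 7) - 1) (7 * (D2 - 7 - 1)) (7 * (D2 - 7) - 7)
        (3 * (D2 - 7) - (7 - D1)) (-1 * (D2 - 7) - (7 - D2)) (5 * (D2 - 7) - (7 - D3)) (by omega)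
        (by omega) (by omega) (by omega) (by omega) (by omega) (by linarith) ?_ ?_ ?_
      · exact ⟨4, by ring⟩
      · exact ⟨9 * a + 1, by rw [ha]; ring⟩
      · exact ⟨-(9 * a + 9 * b) - 4, by rw [hc]; ring⟩
  · -- D1 < 0, D2 < 0 : D3 > 0, σ = -1, E = D3 - 7
    refine Cert.mk' hD (14 * (D3 - 7)) (1 * (D3 - 7) - 1) (7 * (D3 - 7 - 1)) (7 * (D3 - 7) - 7)
      (5 * (D3 - 7) - (7 - D1)) (3 * (D3 - 7) - (7 - D2)) (-1 * (D3 - 7) - (7 - D3)) (by omega)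
      (by omega) (by omega) (by omega) (by omega) (by omega) (by linarith) ?_ ?_ ?_
    · exact ⟨0, by ring⟩
    · exact ⟨a, by rw [ha]; ring⟩
    · exact ⟨-(a + b + 1), by rw [hc]; ring⟩

end H55PW
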