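import Mathlib
import Pool.Agent.H55.PWTypes

namespace H55PW

def Bad0 (M D1 D2 D3 : ℤ) : Prop :=
  (M % 2 = 0 ∧ D1 - D2 = M) ∨ (D1 = M + 1 ∧ D2 = M - 1 ∧ D3 = -(2 * M)) ∨
    (M = 7 ∧ D1 = 2 ∧ D2 = 4 ∧ D3 = -6)

def BadP (M D1 D2 D3 : ℤ) : Prop :=
  Bad0 M D1 D2 D3 ∨ Bad0 M D1 D3 D2 ∨ Bad0 M D2 D1 D3 ∨ Bad0 M D2 D3 D1 ∨ Bad0 M D3 D1 D2 ∨
    Bad0 M D3 D2 D1

def BadS (M D1 D2 D3 : ℤ) : Prop := BadP M D1 D2 D3 ∨ BadP M (-D1) (-D2) (-D3)

theorem BadP.swap12 {M D1 D2 D3 : ℤ} (h : BadP M D1 D2 D3) : BadP M D2 D1 D3 := by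
  unfold BadP at *; tauto
theorem BadP.swap23 {M D1 D2 D3 : ℤ} (h : BadP M D1 D2 D3) : BadP M D1 D3 D2 := by
  unfold BadP at *; tauto
theorem BadS.swap12 {M D1 D2 D3 : ℤ} (h : BadS M D1 D2 D3) : BadS M D2 D1 D3 :=
  h.imp BadP.swap12 BadP.swap12
theorem BadS.swap23 {M D1 D2 D3 : ℤ} (h : BadS M D1 D2 D3) : BadS M D1 D3 D2 :=
  h.imp BadP.swap23 BadP.swap23
theorem BadS.neg {M D1 D2 D3 : ℤ} (h : BadS M (-D1) (-D2) (-D3)) : BadS M D1 D2 D3 := by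
  rcases h with h | h
  · exact Or.inr h
  · left
    simpa using h

def CB (M D1 D2 D3 : ℤ) : Prop := Cert M D1 D2 D3 ∨ BadS M D1 D2 D3

theorem CB.swap12 {M D1 D2 D3 : ℤ} (h : CB M D1 D2 D3) : CB M D2 D1 D3 :=
  h.imp Cert.swap12 BadS.swap12
theorem CB.swap23 {M D1 D2 D3 : ℤ} (h : CB M D1 D2 D3) : CB M D1 D3 D2 :=
  h.imp Cert.swap23 BadS.swap23
theorem CB.neg {M D1 D2 D3 : ℤ} (h : CB M (-D1) (-D2) (-D3)) : CB M D1 D2 D3 :=
  h.imp Cert.neg BadS.neg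

/-- parity certificate -/
theorem parity_cert {M D1 D2 D3 : ℤ} (hD : D1 + D2 + D3 = 0) (hM : M % 2 = 1)
    (h : D1 % 2 = 1 ∨ D2 % 2 = 1) : Cert M D1 D2 D3 := by
  have hM' : ∃ k, 1 * M - 1 = 2 * k := ⟨(M - 1) / 2, by omega⟩
  rcases Int.emod_two_eq_zero_or_one D1 with h1 | h1 <;>
    rcases Int.emod_two_eq_zero_or_one D2 with h2 | h2
  · omega
  · refine Cert.mk' hD 2 1 1 1 1 0 0 (by omega) le_rfl (by omega) (by omega) le_rfl le_rfl
      (by omega) hM' ⟨D1 / 2, by omega⟩ ⟨(D3 - 1) / 2, by omega⟩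
  · refine Cert.mk' hD 2 1 1 1 0 1 0 (by omega) le_rfl (by omega) (by omega) (by omega) le_rfl
      (by omega) hM' ⟨(D1 - 1) / 2, by omega⟩ ⟨(D3 - 1) / 2, by omega⟩
  · refine Cert.mk' hD 2 1 1 1 0 0 1 (by omega) le_rfl (by omega) (by omega) (by omega) (by omega)
      (by omega) hM' ⟨(D1 - 1) / 2, by omega⟩ ⟨D3 / 2, by omega⟩

/-- type II with `D3 = - 2 k M`, `k ≥ 1` -/
theorem type2_pos {M D1 D2 D3 k : ℤ} (hM : 1 ≤ M) (hD : D1 + D2 + D3 = 0) (hk : 1 ≤ k)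
    (h3 : D3 = -(2 * k * M)) (hB : ∃ α β γ, α * M + β * D1 + γ * D2 = 1) (h1 : D1 ≠ 0)
    (h2 : D2 ≠ 0) : CB M D1 D2 D3 := by
  have h2' : D2 = 2 * k * M - D1 := by linarith
  by_cases hp : M % 2 = 1 ∧ D1 % 2 = 1
  · exact Or.inl (parity_cert hD hp.1 (Or.inl hp.2))
  have hB' : ∃ α β, α * M + β * D1 = 1 := by
    obtain ⟨α, β, γ, hB⟩ := hB
    exact ⟨α + 2 * k * γ, β - γ, by rw [h2'] at hB; linarith⟩
  rcases typeII hM hk hB' h1 (by intro h; apply h2; rw [h2', h]; ring) hp with h | ⟨rfl, h⟩ | ⟨rfl, h⟩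
  · left; rw [h2', h3]; exact h
  · right
    left
    unfold BadP Bad0
    rcases h with h | h
    · left; right; left
      omega
    · right; right; left; right; left
      omega
  · right
    left
    unfold BadP Bad0
    rcases h with h | h
    · left; left
      omega
    · right; right; left; left
      omega

theorem type2 {M D1 D2 D3 c : ℤ} (hM : 1 ≤ M) (hD : D1 + D2 + D3 = 0)
    (h3 : D3 = 2 * c * M) (hB : ∃ α β γ, α * M + β * D1 + γ * D2 = 1) (h1 : D1 ≠ 0)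
    (h2 : D2 ≠ 0) (h30 : D3 ≠ 0) : CB M D1 D2 D3 := by
  rcases lt_trichotomy c 0 with hc | hc | hc
  · exact type2_pos (k := -c) hM hD (by omega) (by rw [h3]; ring) hB h1 h2
  · exfalso; apply h30; rw [h3, hc]; ring
  · apply CB.neg
    refine type2_pos (k := c) hM (by linarith) (by omega) (by rw [h3]) ?_ (by omega) (by omega)
    obtain ⟨α, β, γ, hB⟩ := hB
    exact ⟨α, -β, -γ, by linarith⟩

/-- type I with `D1 - D3 = (2 e + 1) M`, `e ≥ 0` -/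
theorem type1_pos {M D1 D2 D3 e : ℤ} (hM : 1 ≤ M) (hM2 : M % 2 = 0) (hD : D1 + D2 + D3 = 0)
    (he : 0 ≤ e) (h : D1 - D3 = (2 * e + 1) * M)
    (hB : ∃ α β γ, α * M + β * D1 + γ * D2 = 1) (h2 : D2 ≠ 0) : CB M D1 D2 D3 := by
  rcases eq_or_lt_of_le he with he0 | he0
  · subst he0
    right; left
    right; left; left
    exact ⟨hM2, by linarith⟩
  · have e3 : D3 = D1 - (2 * e + 1) * M := by linarith
    have e2 : D2 = (2 * e + 1) * M - 2 * D1 := by linarith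
    left
    rw [e3, e2]
    refine typeI hM hM2 (by omega) ?_ (by rw [← e2]; exact h2)
    obtain ⟨α, β, γ, hB⟩ := hB
    exact ⟨α + (2 * e + 1) * γ, β - 2 * γ, by rw [e2] at hB; linarith⟩

theorem type1 {M D1 D2 D3 c : ℤ} (hM : 1 ≤ M) (hD : D1 + D2 + D3 = 0)
    (h : D1 - D3 = (2 * c + 1) * M)
    (hB : ∃ α β γ, α * M + β * D1 + γ * D2 = 1) (h2 : D2 ≠ 0) : CB M D1 D2 D3 := by
  rcases Int.emod_two_eq_zero_or_one M with hM2 | hM2
  · rcases le_or_gt 0 c with hc | hc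
    · exact type1_pos hM hM2 hD hc h hB h2
    · have h' : D3 - D1 = (2 * (-c - 1) + 1) * M := by linarith
      have := type1_pos (D1 := D3) (D2 := D2) (D3 := D1) hM hM2 (by linarith) (by omega) h' (by
        obtain ⟨α, β, γ, hB⟩ := hB
        exact ⟨α, -β, γ - β, by linear_combination hB - β * hD⟩) h2
      exact this.swap12.swap23.swap12
  · -- M odd
    left
    have h13 : (D1 - D3) % 2 = 1 := by
      obtain ⟨m, rfl⟩ : ∃ m, M = 2 * m + 1 := ⟨M / 2, by omega⟩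
      have : D1 - D3 = 2 * (2 * c * m + c + m) + 1 := by rw [h]; ring
      omega
    exact parity_cert hD hM2 (by omega)

theorem fano_cb {D1 D2 D3 : ℤ} (hD : D1 + D2 + D3 = 0) (h1 : D1 % 14 = 2) (h2 : D2 % 14 = 4) :
    CB 7 D1 D2 D3 := by
  by_cases hne : D1 = 2 ∧ D2 = 4
  · right; left; left; right; right
    omega
  · exact Or.inl (fano hD h1 h2 (by omega) hne)

theorem fano_res {D1 D2 D3 : ℤ} (hD : D1 + D2 + D3 = 0) (h : FanoRes D1 D2) :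
    CB 7 D1 D2 D3 := by
  rcases h with ⟨h1, h2⟩ | ⟨h1, h2⟩ | ⟨h1, h2⟩ | ⟨h1, h2⟩ | ⟨h1, h2⟩ | ⟨h1, h2⟩ | ⟨h1, h2⟩ |
    ⟨h1, h2⟩ | ⟨h1, h2⟩ | ⟨h1, h2⟩ | ⟨h1, h2⟩ | ⟨h1, h2⟩
  · exact fano_cb hD h1 h2
  · exact (fano_cb (D1 := D2) (D2 := D1) (D3 := D3) (by linarith) h2 h1).swap12
  · -- D1 = 2, D2 = 8, D3 = 4
    exact (fano_cb (D1 := D1) (D2 := D3) (D3 := D2) (by linarith) h1 (by omega)).swap23
  · -- D1 = 8, D2 = 2, D3 = 4
    exact (fano_cb (D1 := D2) (D2 := D3) (D3 := D1) (by linarith) h2 (by omega)).swap23.swap12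
  · -- D1 = 4, D2 = 8, D3 = 2
    exact (fano_cb (D1 := D3) (D2 := D1) (D3 := D2) (by linarith) (by omega) h1).swap12.swap23
  · -- D1 = 8, D2 = 4, D3 = 2
    exact (fano_cb (D1 := D3) (D2 := D2) (D3 := D1) (by linarith) (by omega) h2).swap12.swap23.swap12
  · apply CB.neg
    exact fano_cb (by linarith) (by omega) (by omega)
  · apply CB.neg
    exact (fano_cb (D1 := -D2) (D2 := -D1) (D3 := -D3) (by linarith) (by omega) (by omega)).swap12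
  · apply CB.neg
    exact (fano_cb (D1 := -D1) (D2 := -D3) (D3 := -D2) (by linarith) (by omega) (by omega)).swap23
  · apply CB.neg
    exact (fano_cb (D1 := -D2) (D2 := -D3) (D3 := -D1) (by linarith) (by omega)
      (by omega)).swap23.swap12
  · apply CB.neg
    exact (fano_cb (D1 := -D3) (D2 := -D1) (D3 := -D2) (by linarith) (by omega)
      (by omega)).swap12.swap23
  · apply CB.neg
    exact (fano_cb (D1 := -D3) (D2 := -D2) (D3 := -D1) (by linarith) (by omega)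
      (by omega)).swap12.swap23.swap12

theorem cb_main {M D1 D2 D3 : ℤ} (hM : 1 ≤ M) (hD : D1 + D2 + D3 = 0)
    (hB : ∃ α β γ, α * M + β * D1 + γ * D2 = 1) (h1 : D1 ≠ 0) (h2 : D2 ≠ 0) (h3 : D3 ≠ 0) :
    CB M D1 D2 D3 := by
  have hB13 := bez_swap23 hD hB
  have hB21 := bez_swap12 hB
  have hB23 := bez_swap23 (D3 := D3) (by linarith) hB21
  have hB31 := bez_swap12 hB13
  have hB32 := bez_swap12 hB23
  rcases generic hM hD hB with h | h | ⟨h7, h⟩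
  · exact Or.inl (h.cert (by omega))
  · rcases h with ⟨c, h⟩ | ⟨c, h⟩ | ⟨c, h⟩ | ⟨c, h⟩ | ⟨c, h⟩ | ⟨c, h⟩
    · -- D1 - D2
      exact (type1 (D1 := D1) (D2 := D3) (D3 := D2) hM (by linarith) h hB13 h3).swap23
    · -- D2 - D3
      exact (type1 (D1 := D2) (D2 := D1) (D3 := D3) hM (by linarith) h hB21 h1).swap12
    · -- D3 - D1
      exact (type1 (D1 := D3) (D2 := D2) (D3 := D1) hM (by linarith) h hB32 h2).swap12.swap23.swap12
    · -- D1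
      exact (type2 (D1 := D2) (D2 := D3) (D3 := D1) hM (by linarith) h hB23 h2 h3 h1).swap23.swap12
    · exact (type2 (D1 := D1) (D2 := D3) (D3 := D2) hM (by linarith) h hB13 h1 h3 h2).swap23
    · exact type2 hM hD h hB h1 h2 h3
  · subst h7
    exact fano_res hD h

/-- the exceptional triples in the coprime case -/
def TriC (M N1 N2 : ℤ) : Prop :=
  (M % 2 = 0 ∧ (M + N1 = N2 ∨ M + N2 = N1 ∨ M = 2 * N1 + N2 ∨ M = N1 + 2 * N2)) ∨
  (N1 = M + 1 ∧ N2 = M - 1) ∨ (N1 = M - 1 ∧ N2 = M + 1) ∨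
  (M = 7 ∧ N1 = 2 ∧ N2 = 4) ∨ (M = 7 ∧ N1 = 4 ∧ N2 = 2)

theorem av_or_tri {M N1 N2 : ℤ} (hM : 1 ≤ M) (h1 : 1 ≤ N1) (h2 : 1 ≤ N2)
    (hB : ∃ α β γ, α * M + β * N1 + γ * N2 = 1) : Av M N1 N2 ∨ TriC M N1 N2 := by
  have hD : N1 + N2 + (-(N1 + N2)) = 0 := by ring
  rcases cb_main hM hD hB (by omega) (by omega) (by omega) with h | h
  · exact Or.inl (cert_av hD h)
  · right
    clear hB hD
    rcases h with h | h <;> rcases h with h | h | h | h | h | h <;>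
      rcases h with ⟨ha, hb⟩ | ⟨ha, hb, hc⟩ | ⟨ha, hb, hc, hd⟩ <;> unfold TriC <;> omega

end H55PW
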