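import Mathlib
import Pool.Agent.H55.PWCert

namespace H55PW

theorem U1_aux {u u' : ℤ} (hu : u % 2 = 1) (P : ℤ → Prop)
    (hA : ∀ x, P x → ¬ P (x + (u + u'))) (hB : ∀ x, P x ∨ P (x + u) ∨ P (x + u'))
    (x : ℤ) (h1 : P x) (h2 : P (x - u)) : False := by
  have hU : ∀ x, P x → P (x - u) ∨ P (x - u') := by
    intro x hx
    rcases hB (x - (u + u')) with h | h | h
    · exact absurd hx (by
        have := hA _ h
        rwa [show x - (u + u') + (u + u') = x by ring] at this)
    · right; rwa [show x - (u + u') + u = x - u' by ring] at h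
    · left; rwa [show x - (u + u') + u' = x - u by ring] at h
  have c1 : ∀ x, P x ∧ P (x - u) → P (x - u) ∧ P (x - u - u) := by
    rintro x ⟨h1, h2⟩
    refine ⟨h2, ?_⟩
    rcases hU _ h2 with h | h
    · exact h
    · exact absurd h1 (by
        have := hA _ h
        rwa [show x - u - u' + (u + u') = x by ring] at this)
  have c2 : ∀ x, P x ∧ P (x - u) → P (x + 2 * u') ∧ P (x + 2 * u' - u) := by
    rintro x ⟨h1, h2⟩
    have n1 : ¬ P (x + u') := by
      have := hA _ h2
      rwa [show x - u + (u + u') = x + u' by ring] at this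
    have n2 : ¬ P (x + (u + u')) := hA _ h1
    have p1 : P (x + 2 * u') := by
      rcases hB (x + u') with h | h | h
      · exact absurd h n1
      · exact absurd h (by rwa [show x + u' + u = x + (u + u') by ring])
      · rwa [show x + u' + u' = x + 2 * u' by ring] at h
    refine ⟨p1, ?_⟩
    rcases hU _ p1 with h | h
    · exact h
    · exact absurd h (by rwa [show x + 2 * u' - u' = x + u' by ring])
  have d1 : ∀ i : ℕ, ∀ x, P x ∧ P (x - u) → P (x - i * u) ∧ P (x - i * u - u) := by
    intro i
    induction i with
    | zero => intro x h; simpa using h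
    | succ i ih =>
      intro x h
      have := c1 _ (ih x h)
      rw [show x - ((i + 1 : ℕ) : ℤ) * u = x - i * u - u by push_cast; ring]
      exact this
  have d2 : ∀ j : ℕ, ∀ x, P x ∧ P (x - u) → P (x + 2 * j * u') ∧ P (x + 2 * j * u' - u) := by
    intro j
    induction j with
    | zero => intro x h; simpa using h
    | succ j ih =>
      intro x h
      have := c2 _ (ih x h)
      rw [show x + 2 * ((j + 1 : ℕ) : ℤ) * u' = x + 2 * j * u' + 2 * u' by push_cast; ring]
      exact this
  obtain ⟨a, ha⟩ : ∃ a, u = 2 * a + 1 := ⟨u / 2, by omega⟩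
  -- z = x - i u + 2 j u', z' = x - i' u + 2 j' u', z' = z + u'
  have hz := d2 a.toNat _ (d1 u'.toNat x ⟨h1, h2⟩)
  have hz' := d2 (-a).toNat _ (d1 (-u').toNat x ⟨h1, h2⟩)
  have e1 : ((u'.toNat : ℕ) : ℤ) - (((-u').toNat : ℕ) : ℤ) = u' := by omega
  have e2 : ((a.toNat : ℕ) : ℤ) - (((-a).toNat : ℕ) : ℤ) = a := by omega
  have n1 := hA _ hz.2
  apply n1
  have : x - ↑u'.toNat * u + 2 * ↑a.toNat * u' - u + (u + u')
      = x - ↑(-u').toNat * u + 2 * ↑(-a).toNat * u' := by
    have e1' : ((u'.toNat : ℕ) : ℤ) = u' + (((-u').toNat : ℕ) : ℤ) := by linarith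
    have e2' : ((a.toNat : ℕ) : ℤ) = a + (((-a).toNat : ℕ) : ℤ) := by linarith
    rw [e1', e2', ha]
    ring
  rw [this]
  exact hz'.1

theorem U1 {u u' : ℤ} (hu : u % 2 = 1) (hu' : u' % 2 = 1) (P : ℤ → Prop)
    (hA : ∀ x, P x → ¬ P (x + (u + u'))) (hB : ∀ x, P x ∨ P (x + u) ∨ P (x + u')) : False := by
  have key : ∀ x, ¬ P x := by
    intro x hx
    rcases hB (x - (u + u')) with h | h | h
    · have := hA _ h
      rw [show x - (u + u') + (u + u') = x by ring] at this
      exact this hx
    · rw [show x - (u + u') + u = x - u' by ring] at h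
      exact U1_aux hu' P (u := u') (u' := u) (fun x hx => by rw [add_comm u' u]; exact hA x hx)
        (fun x => (hB x).imp id Or.symm) x hx h
    · rw [show x - (u + u') + u' = x - u by ring] at h
      exact U1_aux hu P hA hB x hx h
  rcases hB 0 with h | h | h <;> exact key _ h

theorem U2 {M s k : ℤ} (hs : M = k * s) (P : ℤ → Prop) (hA : ∀ x, P x → ¬ P (x + M))
    (hB : ∀ x, P (x - M) ∨ P (x + M) ∨ P (x + s)) : False := by
  have step : ∀ x, P x → P (x + s) := by
    intro x hx
    rcases hB x with h | h | h
    · exact absurd hx (by have := hA _ h; rwa [show x - M + M = x by ring] at this)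
    · exact absurd h (hA _ hx)
    · exact h
  have iter : ∀ n : ℕ, ∀ x, P x → P (x + n * s) := by
    intro n
    induction n with
    | zero => intro x hx; simpa using hx
    | succ n ih =>
      intro x hx
      have := step _ (ih x hx)
      rw [show x + ((n + 1 : ℕ) : ℤ) * s = x + n * s + s by push_cast; ring]
      exact this
  have key : ∀ x, ¬ P x := by
    intro x hx
    rcases le_total 0 k with hk | hk
    · have := iter k.toNat x hx
      rw [show ((k.toNat : ℕ) : ℤ) = k by omega, ← hs] at this
      exact hA _ hx this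
    · have := iter (-k).toNat x hx
      rw [show (((-k).toNat : ℕ) : ℤ) = -k by omega, show x + -k * s = x - M by rw [hs]; ring]
        at this
      have h2 := hA _ this
      rw [show x - M + M = x by ring] at h2
      exact h2 hx
  rcases hB 0 with h | h | h <;> exact key _ h

/-- `k = 1`, `l = 3` : recentred set `{-M, -2, -1, M}` with `M` even (positive) -/
theorem U3 {j : ℕ} (P : ℤ → Prop) (hA : ∀ x, P x → ¬ P (x + 2 * j))
    (hB : ∀ x, P (x - 2 * j) ∨ P (x - 2) ∨ P (x - 1) ∨ P (x + 2 * j)) : False := by
  have key : ∀ x, ¬ P x := by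
    intro x hx
    have s1 : ∀ y, P y → P (y - 2) ∨ P (y - 1) := by
      intro y hy
      rcases hB y with h | h | h | h
      · exact absurd hy (by have := hA _ h; rwa [show y - 2 * j + 2 * j = y by ring] at this)
      · exact Or.inl h
      · exact Or.inr h
      · exact absurd h (hA _ hy)
    -- Q k := P (x - k)
    have s2 : ∀ k : ℕ, P (x - k) ∨ P (x - k - 1) := by
      intro k
      induction k with
      | zero => left; simpa using hx
      | succ k ih =>
        rw [show x - ((k + 1 : ℕ) : ℤ) = x - k - 1 by push_cast; ring]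
        by_cases h : P (x - k - 1)
        · exact Or.inl h
        · right
          have h0 : P (x - k) := ih.resolve_right h
          rcases s1 _ h0 with h' | h'
          · rwa [show x - (k : ℤ) - 1 - 1 = x - k - 2 by ring]
          · exact absurd h' h
    have s3 : ∀ k : ℕ, P (x - k) → ¬ P (x - (k + 2 * j : ℕ)) := by
      intro k hk hk'
      have := hA _ hk'
      rw [show x - ((k + 2 * j : ℕ) : ℤ) + 2 * j = x - k by push_cast; ring] at this
      exact this hk
    have s4 : ∀ k : ℕ, P (x - k) → ¬ P (x - k - 1) := by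
      intro k h1 h2
      have n1 := s3 k h1
      have n2 := s3 (k + 1) (by rwa [show x - ((k + 1 : ℕ) : ℤ) = x - k - 1 by push_cast; ring])
      rcases s2 (k + 2 * j) with h | h
      · exact n1 h
      · apply n2
        rwa [show x - ((k + 1 + 2 * j : ℕ) : ℤ) = x - ((k + 2 * j : ℕ) : ℤ) - 1 by push_cast; ring]
    have s5 : ∀ k : ℕ, P (x - k) → P (x - k - 2) := by
      intro k hk
      rcases s1 _ hk with h | h
      · exact h
      · exact absurd h (s4 k hk)
    have s6 : ∀ i : ℕ, P (x - (2 * i : ℕ)) := by
      intro i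
      induction i with
      | zero => simpa using hx
      | succ i ih =>
        have := s5 _ ih
        rwa [show x - ((2 * (i + 1) : ℕ) : ℤ) = x - ((2 * i : ℕ) : ℤ) - 2 by push_cast; ring]
    have := s6 j
    have h0 := s3 0 (by simpa using hx)
    rw [Nat.zero_add] at h0
    exact h0 this
  rcases hB 0 with h | h | h | h <;> exact key _ h

/-! ### the Fano triple -/

def okB (b : Bool) (l : List Bool) : Bool :=
  if b then !(l[6]? == some true) else !(l[5]? == some false && l[3]? == some false)

def dead : ℕ → List Bool → Bool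
  | 0, _ => false
  | k + 1, l => (!okB true l || dead k (true :: l)) && (!okB false l || dead k (false :: l))

theorem dead_nil : dead 20 [] = true := by decide +kernel

theorem dead_sound (f : ℤ → Bool) (hA : ∀ x, f x = true → f (x + 7) = false)
    (hB : ∀ x, f x = true ∨ f (x + 2) = true ∨ f (x + 6) = true) :
    ∀ (k : ℕ) (l : List Bool) (n : ℤ), dead k l = true →
      (∀ i : ℕ, ∀ b, l[i]? = some b → f (n - 1 - i) = b) → False := by
  intro k
  induction k with
  | zero => intro l n h _; simp [dead] at h
  | succ k ih =>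
    intro l n h hl
    rw [dead] at h
    simp only [Bool.and_eq_true, Bool.or_eq_true, Bool.not_eq_eq_eq_not, Bool.not_true] at h
    have hext : ∀ i : ℕ, ∀ b, (f n :: l)[i]? = some b → f (n + 1 - 1 - i) = b := by
      intro i b hb
      cases i with
      | zero => simpa using hb
      | succ i =>
        rw [List.getElem?_cons_succ] at hb
        have := hl i b hb
        rw [show n + 1 - 1 - ((i + 1 : ℕ) : ℤ) = n - 1 - i by push_cast; ring]
        exact this
    cases hfn : f n with
    | true =>
      rw [hfn] at hext
      rcases h.1 with h1 | h1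
      · unfold okB at h1
        simp at h1
        have := hl 6 true h1
        have h2 := hA _ this
        rw [show n - 1 - ((6 : ℕ) : ℤ) + 7 = n by push_cast; ring] at h2
        rw [h2] at hfn
        exact absurd hfn (by simp)
      · exact ih _ _ h1 hext
    | false =>
      rw [hfn] at hext
      rcases h.2 with h1 | h1
      · unfold okB at h1
        simp at h1
        have a5 := hl 5 false h1.1
        have a3 := hl 3 false h1.2
        rcases hB (n - 6) with h2 | h2 | h2
        · rw [show n - 1 - ((5 : ℕ) : ℤ) = n - 6 by push_cast; ring] at a5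
          rw [a5] at h2; exact absurd h2 (by simp)
        · rw [show n - 1 - ((3 : ℕ) : ℤ) = n - 6 + 2 by push_cast; ring] at a3
          rw [a3] at h2; exact absurd h2 (by simp)
        · rw [show n - 6 + 6 = n by ring, hfn] at h2
          exact absurd h2 (by simp)
      · exact ih _ _ h1 hext

theorem UFano (P : ℤ → Prop) (hA : ∀ x, P x → ¬ P (x + 7))
    (hB : ∀ x, P x ∨ P (x + 2) ∨ P (x + 6)) : False := by
  classical
  refine dead_sound (fun x => decide (P x)) ?_ ?_ 20 [] 0 dead_nil ?_
  · intro x hx
    simp only [decide_eq_true_eq] at hx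
    simpa using hA x hx
  · intro x
    simpa using hB x
  · intro i b h
    simp at h

end H55PW
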