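import Mathlib
import Pool.Agent.H55.PWTri
import Pool.Agent.H55.PWUnav

namespace H55PW

theorem av_scale_up {g M D D' : ℤ} (hg : 1 ≤ g) (h : Av M D D') :
    Av (g * M) (g * D) (g * D') := by
  obtain ⟨P, hA, hB⟩ := h
  have e : ∀ x y : ℤ, (x + g * y) / g = x / g + y := by
    intro x y
    rw [Int.add_mul_ediv_left _ _ (by omega)]
  refine ⟨fun x => P (x / g), ?_, ?_⟩
  · intro x hx
    beta_reduce
    rw [e]
    exact hA _ hx
  · intro x
    beta_reduce
    rw [e, show x + g * D + g * D' = x + g * (D + D') by ring, e, ← add_assoc]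
    exact hB _

theorem av_scale_down {g M D D' : ℤ} (h : Av (g * M) (g * D) (g * D')) :
    Av M D D' := by
  obtain ⟨P, hA, hB⟩ := h
  refine ⟨fun x => P (g * x), ?_, ?_⟩
  · intro x hx
    have := hA _ hx
    rwa [show g * x + g * M = g * (x + M) by ring] at this
  · intro x
    have := hB (g * x)
    rwa [show g * x + g * D = g * (x + D) by ring, show g * (x + D) + g * D' = g * (x + D + D')
      by ring] at this

/-- reduced exceptional triples -/
def TriO (M N1 N2 : ℤ) : Prop :=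
  (N1 % 2 = 1 ∧ N2 % 2 = 1 ∧ (M + N1 = N2 ∨ M + N2 = N1)) ∨
  (N1 % 2 = 1 ∧ N2 % 2 = 0 ∧ M = 2 * N1 + N2) ∨
  (N1 % 2 = 0 ∧ N2 % 2 = 1 ∧ M = N1 + 2 * N2) ∨
  (N1 = M + 1 ∧ N2 = M - 1) ∨ (N1 = M - 1 ∧ N2 = M + 1) ∨
  (M = 7 ∧ N1 = 2 ∧ N2 = 4) ∨ (M = 7 ∧ N1 = 4 ∧ N2 = 2)

/-- exceptional triples up to scaling -/
def Tri (M N1 N2 : ℤ) : Prop :=
  ∃ g M' N1' N2' : ℤ, 1 ≤ g ∧ M = g * M' ∧ N1 = g * N1' ∧ N2 = g * N2' ∧ TriO M' N1' N2'

theorem triO_not_av {M N1 N2 : ℤ} (h : TriO M N1 N2) : ¬ Av M N1 N2 := by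
  rintro ⟨P, hA, hB⟩
  rcases h with ⟨h1, h2, h | h⟩ | ⟨h1, h2, h⟩ | ⟨h1, h2, h⟩ | ⟨h1, h2⟩ | ⟨h1, h2⟩ | ⟨h0, h1, h2⟩ |
    ⟨h0, h1, h2⟩
  · -- M + N1 = N2 : vertex N1, u = -N1, u' = N2
    refine U1 (u := -N1) (u' := N2) (by omega) (by omega) P ?_ ?_
    · intro x hx
      rw [show -N1 + N2 = M by linarith]
      exact hA x hx
    · intro x
      rcases hB (x - N1) with h | h | h
      · right; left; rwa [show x + -N1 = x - N1 by ring]
      · left; rwa [show x - N1 + N1 = x by ring] at h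
      · right; right; rwa [show x - N1 + N1 + N2 = x + N2 by ring] at h
  · -- M + N2 = N1 : vertex N1, differences -N1, N2, sum = -M
    refine U1 (u := -N1) (u' := N2) (by omega) (by omega) P ?_ ?_
    · intro x hx hx'
      have := hA _ hx'
      rw [show x + (-N1 + N2) + M = x by linarith] at this
      exact this hx
    · intro x
      rcases hB (x - N1) with h | h | h
      · right; left; rwa [show x + -N1 = x - N1 by ring]
      · left; rwa [show x - N1 + N1 = x by ring] at h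
      · right; right; rwa [show x - N1 + N1 + N2 = x + N2 by ring] at h
  · -- M = 2 N1 + N2 : vertex 0, u = N1, u' = N1 + N2
    refine U1 (u := N1) (u' := N1 + N2) (by omega) (by omega) P ?_ ?_
    · intro x hx
      rw [show N1 + (N1 + N2) = M by linarith]
      exact hA x hx
    · intro x
      have := hB x
      rwa [add_assoc] at this
  · -- M = N1 + 2 N2 : vertex N1 + N2, u = -N2, u' = -(N1+N2)
    refine U1 (u := -N2) (u' := -(N1 + N2)) (by omega) (by omega) P ?_ ?_
    · intro x hx hx'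
      have := hA _ hx'
      rw [show x + (-N2 + -(N1 + N2)) + M = x by linarith] at this
      exact this hx
    · intro x
      rcases hB (x - (N1 + N2)) with h | h | h
      · right; right; rwa [show x + -(N1 + N2) = x - (N1 + N2) by ring]
      · right; left; rwa [show x - (N1 + N2) + N1 = x + -N2 by ring] at h
      · left; rwa [show x - (N1 + N2) + N1 + N2 = x by ring] at h
  · -- N1 = M + 1, N2 = M - 1
    refine U2 (M := M) (s := 1) (k := M) (by ring) P hA ?_
    intro x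
    rcases hB (x - M) with h | h | h
    · exact Or.inl h
    · right; right; rwa [show x - M + N1 = x + 1 by linarith] at h
    · right; left; rwa [show x - M + N1 + N2 = x + M by linarith] at h
  · -- N1 = M - 1, N2 = M + 1
    refine U2 (M := M) (s := -1) (k := -M) (by ring) P hA ?_
    intro x
    rcases hB (x - M) with h | h | h
    · exact Or.inl h
    · right; right; rwa [show x - M + N1 = x + -1 by linarith] at h
    · right; left; rwa [show x - M + N1 + N2 = x + M by linarith] at h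
  · subst h0 h1 h2
    refine UFano P hA ?_
    intro x
    have := hB x
    rwa [show x + 2 + 4 = x + 6 by ring] at this
  · subst h0 h1 h2
    -- reflect
    refine UFano (fun x => P (-x)) ?_ ?_
    · intro x hx hx'
      have := hA _ hx'
      rw [show -(x + 7) + 7 = -x by ring] at this
      exact this hx
    · intro x
      rcases hB (-x - 6) with h | h | h
      · right; right; rwa [show -x - 6 = -(x + 6) by ring] at h
      · right; left; rwa [show -x - 6 + 4 = -(x + 2) by ring] at h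
      · left; rwa [show -x - 6 + 4 + 2 = -x by ring] at h

theorem tri_not_av {M N1 N2 : ℤ} (h : Tri M N1 N2) : ¬ Av M N1 N2 := by
  obtain ⟨g, M', N1', N2', hg, rfl, rfl, rfl, h⟩ := h
  intro h'
  exact triO_not_av h (av_scale_down h')

theorem bez_gcd (M N1 N2 : ℤ) (hM : 1 ≤ M) : ∃ g M' N1' N2' : ℤ, 1 ≤ g ∧ M = g * M' ∧
    N1 = g * N1' ∧ N2 = g * N2' ∧ ∃ α β γ, α * M' + β * N1' + γ * N2' = 1 := by
  set d : ℤ := ((Int.gcd N1 N2 : ℕ) : ℤ) with hd
  set g : ℤ := ((Int.gcd M d : ℕ) : ℤ) with hgdef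
  have hgM : g ∣ M := Int.gcd_dvd_left ..
  have hgd : g ∣ d := Int.gcd_dvd_right ..
  have hg1 : g ∣ N1 := hgd.trans (Int.gcd_dvd_left ..)
  have hg2 : g ∣ N2 := hgd.trans (Int.gcd_dvd_right ..)
  have hg0 : 0 < g := by
    have : (0 : ℤ) ≤ g := by positivity
    rcases this.lt_or_eq with h | h
    · exact h
    · exfalso
      rw [← h] at hgM
      have := zero_dvd_iff.mp hgM
      omega
  obtain ⟨M', hM'⟩ := hgM
  obtain ⟨N1', h1'⟩ := hg1
  obtain ⟨N2', h2'⟩ := hg2
  have bez1 := Int.gcd_eq_gcd_ab N1 N2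
  have bez2 := Int.gcd_eq_gcd_ab M d
  rw [← hd] at bez1
  rw [← hgdef] at bez2
  refine ⟨g, M', N1', N2', by omega, hM', h1', h2', Int.gcdA M d,
    Int.gcdA N1 N2 * Int.gcdB M d, Int.gcdB N1 N2 * Int.gcdB M d, ?_⟩
  have : g * (Int.gcdA M d * M' + Int.gcdA N1 N2 * Int.gcdB M d * N1'
      + Int.gcdB N1 N2 * Int.gcdB M d * N2') = g * 1 := by
    linear_combination (-(Int.gcdA M d)) * hM' - Int.gcdA N1 N2 * Int.gcdB M d * h1'
      - Int.gcdB N1 N2 * Int.gcdB M d * h2' - bez2 - Int.gcdB M d * bez1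
  exact mul_left_cancel₀ hg0.ne' this

theorem triC_triO {M N1 N2 : ℤ} (hB : ∃ α β γ, α * M + β * N1 + γ * N2 = 1)
    (h : TriC M N1 N2) : TriO M N1 N2 := by
  have hodd : M % 2 = 1 ∨ N1 % 2 = 1 ∨ N2 % 2 = 1 := by
    by_contra hcon
    obtain ⟨α, β, γ, hB⟩ := hB
    obtain ⟨a, ha⟩ : ∃ a, M = 2 * a := ⟨M / 2, by omega⟩
    obtain ⟨b, hb⟩ : ∃ b, N1 = 2 * b := ⟨N1 / 2, by omega⟩
    obtain ⟨c, hc⟩ : ∃ c, N2 = 2 * c := ⟨N2 / 2, by omega⟩
    rw [ha, hb, hc] at hB
    have : 2 * (α * a + β * b + γ * c) = 1 := by linarith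
    omega
  clear hB
  rcases h with ⟨h0, h | h | h | h⟩ | ⟨h1, h2⟩ | ⟨h1, h2⟩ | ⟨h0, h1, h2⟩ | ⟨h0, h1, h2⟩
  · left; omega
  · left; omega
  · right; left; omega
  · right; right; left; omega
  · right; right; right; left; exact ⟨h1, h2⟩
  · right; right; right; right; left; exact ⟨h1, h2⟩
  · right; right; right; right; right; left; exact ⟨h0, h1, h2⟩
  · right; right; right; right; right; right; exact ⟨h0, h1, h2⟩

/-- The classification of the case `k = 1`, `l = 2`. -/
theorem not_av_iff {M N1 N2 : ℤ} (hM : 1 ≤ M) (h1 : 1 ≤ N1) (h2 : 1 ≤ N2) :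
    ¬ Av M N1 N2 ↔ Tri M N1 N2 := by
  constructor
  · intro h
    obtain ⟨g, M', N1', N2', hg, rfl, rfl, rfl, hB⟩ := bez_gcd M N1 N2 hM
    have hM' : 1 ≤ M' := by
      by_contra hcon; push Not at hcon; nlinarith
    have h1' : 1 ≤ N1' := by
      by_contra hcon; push Not at hcon; nlinarith
    have h2' : 1 ≤ N2' := by
      by_contra hcon; push Not at hcon; nlinarith
    rcases av_or_tri hM' h1' h2' hB with h' | h'
    · exact absurd (av_scale_up hg h') h
    · exact ⟨g, M', N1', N2', hg, rfl, rfl, rfl, triC_triO hB h'⟩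
  · exact tri_not_av

end H55PW
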