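import Mathlib
import Pool.Agent.H55.PWScale

namespace H55PW

def Weak (M x y : ℤ) : Prop :=
  (M + x = y ∧ M % 2 = 0 ∧ x % 2 = y % 2) ∨ (M + y = x ∧ M % 2 = 0 ∧ x % 2 = y % 2) ∨
  (M = 2 * x + y ∧ y % 2 = 0) ∨ (M = x + 2 * y ∧ x % 2 = 0) ∨
  (x + y = 2 * M ∧ x ≠ y ∧ 2 * (x - M) ≤ M ∧ 2 * (M - x) ≤ M) ∨
  (7 * x = 2 * M ∧ 7 * y = 4 * M) ∨ (7 * x = 4 * M ∧ 7 * y = 2 * M)

theorem even_mul' {g x : ℤ} (h : x % 2 = 0) : (g * x) % 2 = 0 := by
  rw [Int.mul_emod, h]; simp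

theorem odd_mul' {g x : ℤ} (h : x % 2 = 1) : (g * x) % 2 = g % 2 := by
  rw [Int.mul_emod, h]; simp

theorem tri_weak {M x y : ℤ} (hx : 1 ≤ x) (hy : 1 ≤ y) (h : Tri M x y) : Weak M x y := by
  obtain ⟨g, M', x', y', hg, rfl, rfl, rfl, h⟩ := h
  have hx' : 1 ≤ x' := by
    by_contra hcon; push Not at hcon; nlinarith
  have hy' : 1 ≤ y' := by
    by_contra hcon; push Not at hcon; nlinarith
  rcases h with ⟨h1, h2, h | h⟩ | ⟨h1, h2, h⟩ | ⟨h1, h2, h⟩ | ⟨h1, h2⟩ | ⟨h1, h2⟩ | ⟨h0, h1, h2⟩ |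
    ⟨h0, h1, h2⟩
  · left
    refine ⟨by rw [← h]; ring, even_mul' (by omega), ?_⟩
    rw [odd_mul' h1, odd_mul' h2]
  · right; left
    refine ⟨by rw [← h]; ring, even_mul' (by omega), ?_⟩
    rw [odd_mul' h1, odd_mul' h2]
  · right; right; left
    exact ⟨by rw [h]; ring, even_mul' h2⟩
  · right; right; right; left
    exact ⟨by rw [h]; ring, even_mul' h1⟩
  · right; right; right; right; left
    subst h1 h2
    refine ⟨by ring, ?_, ?_, ?_⟩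
    · intro h; nlinarith
    · nlinarith
    · nlinarith
  · right; right; right; right; left
    subst h1 h2
    refine ⟨by ring, ?_, ?_, ?_⟩
    · intro h; nlinarith
    · nlinarith
    · nlinarith
  · right; right; right; right; right; left
    subst h0 h1 h2
    exact ⟨by ring, by ring⟩
  · right; right; right; right; right; right
    subst h0 h1 h2
    exact ⟨by ring, by ring⟩

theorem tri_half {M x y : ℤ} (hM : 1 ≤ M) (hx : 1 ≤ x) (hy : 1 ≤ y)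
    (h : Tri (2 * M) (2 * x) (2 * y)) : Tri M x y := by
  rw [← not_av_iff hM hx hy]
  intro h'
  exact tri_not_av h (av_scale_up (by norm_num) h')

theorem quad_weak {M a b c : ℤ} (hM : 1 ≤ M) (ha : 1 ≤ a) (hb : 1 ≤ b) (hc : 1 ≤ c)
    (hodd : ¬ (M % 2 = 0 ∧ a % 2 = 0 ∧ b % 2 = 0 ∧ c % 2 = 0))
    (h1 : Weak M a b) (h2 : Weak M b c) (h3 : Weak M (a + b) c) (h4 : Weak M a (b + c)) :
    (a = M - 2 * b ∧ c = M + b) ∨ (a = M + b ∧ c = M - 2 * b) := by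
  rcases h1 with h1 | h1 | h1 | h1 | h1 | h1 | h1 <;>
  rcases h2 with h2 | h2 | h2 | h2 | h2 | h2 | h2 <;>
  rcases h3 with h3 | h3 | h3 | h3 | h3 | h3 | h3 <;>
  first
  | (exfalso; clear h4; omega)
  | (rcases h4 with h4 | h4 | h4 | h4 | h4 | h4 | h4 <;> omega)

theorem two_weak {M1 M2 N1 N2 : ℤ} (hM1 : 1 ≤ M1) (hM2 : 1 ≤ M2) (hN1 : 1 ≤ N1) (hN2 : 1 ≤ N2)
    (hodd : ¬ (M1 % 2 = 0 ∧ M2 % 2 = 0 ∧ N1 % 2 = 0 ∧ N2 % 2 = 0))
    (h1 : Weak M1 N1 N2) (h2 : Weak M2 N1 N2) (h3 : Weak (M1 + M2) N1 N2)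
    (k1 : Weak N1 M1 M2) (k2 : Weak N2 M1 M2) : False := by
  rcases h1 with h1 | h1 | h1 | h1 | h1 | h1 | h1 <;>
  rcases h2 with h2 | h2 | h2 | h2 | h2 | h2 | h2 <;>
  first
  | (exfalso; clear h3 k1 k2; omega)
  | (rcases h3 with h3 | h3 | h3 | h3 | h3 | h3 | h3 <;>
      first
      | (exfalso; clear k1 k2; omega)
      | (rcases k1 with k1 | k1 | k1 | k1 | k1 | k1 | k1 <;>
          first
          | (exfalso; clear k2; omega)
          | (rcases k2 with k2 | k2 | k2 | k2 | k2 | k2 | k2 <;> omega)))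

theorem triO_symm {M x y : ℤ} (h : TriO M x y) : TriO M y x := by
  rcases h with ⟨h1, h2, h | h⟩ | ⟨h1, h2, h⟩ | ⟨h1, h2, h⟩ | ⟨h1, h2⟩ | ⟨h1, h2⟩ | ⟨h0, h1, h2⟩ |
    ⟨h0, h1, h2⟩
  · exact Or.inl ⟨h2, h1, Or.inr h⟩
  · exact Or.inl ⟨h2, h1, Or.inl h⟩
  · right; right; left; exact ⟨h2, h1, by linarith⟩
  · right; left; exact ⟨h2, h1, by linarith⟩
  · right; right; right; right; left; exact ⟨h2, h1⟩
  · right; right; right; left; exact ⟨h2, h1⟩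
  · right; right; right; right; right; right; exact ⟨h0, h2, h1⟩
  · right; right; right; right; right; left; exact ⟨h0, h2, h1⟩

theorem tri_symm {M x y : ℤ} (h : Tri M x y) : Tri M y x := by
  obtain ⟨g, M', x', y', hg, h0, h1, h2, h⟩ := h
  exact ⟨g, M', y', x', hg, h0, h2, h1, triO_symm h⟩

theorem dvd_of_tri {M b : ℤ} (hb : 1 ≤ b) (hM : 1 ≤ M - 2 * b) (h : Tri M (M - 2 * b) (M + 2 * b)) :
    ∃ j, M = 2 * b * j := by
  obtain ⟨g, M', x', y', hg, e0, e1, e2, h⟩ := h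
  rcases h with ⟨h1, h2, h | h⟩ | ⟨h1, h2, h⟩ | ⟨h1, h2, h⟩ | ⟨h1, h2⟩ | ⟨h1, h2⟩ | ⟨h0, h1, h2⟩ |
    ⟨h0, h1, h2⟩
  · refine ⟨2, ?_⟩
    have : M + (M - 2 * b) = M + 2 * b := by rw [e1, e2, ← h, e0]; ring
    linarith
  · exfalso
    have : M + (M + 2 * b) = M - 2 * b := by rw [e1, e2, ← h, e0]; ring
    linarith
  · exfalso
    have : M = 2 * (M - 2 * b) + (M + 2 * b) := by rw [e1, e2, e0, h]; ring
    linarith
  · exfalso
    have : M = (M - 2 * b) + 2 * (M + 2 * b) := by rw [e1, e2, e0, h]; ring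
    linarith
  · exfalso
    have : M - 2 * b = M + g := by rw [e1, e0, h1]; ring
    linarith
  · have : M - 2 * b = M - g := by rw [e1, e0, h1]; ring
    refine ⟨M', ?_⟩
    have hg2 : g = 2 * b := by linarith
    rw [← hg2]; exact e0
  · exfalso
    have h3 : M + 2 * b - (M - 2 * b) = 2 * g := by rw [e1, e2, h1, h2]; ring
    have h4 : M + 2 * b + (M - 2 * b) = 6 * g := by rw [e1, e2, h1, h2]; ring
    rw [h0] at e0
    linarith
  · exfalso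
    have h4 : M + 2 * b + (M - 2 * b) = 6 * g := by rw [e1, e2, h1, h2]; ring
    rw [h0] at e0
    linarith

/-- exceptional quadruples -/
def Quad (M a b c : ℤ) : Prop :=
  ∃ g j : ℤ, 1 ≤ g ∧ 2 ≤ j ∧ M = g * (2 * j) ∧ b = g ∧
    ((a = g * (2 * j - 2) ∧ c = g * (2 * j + 1)) ∨ (a = g * (2 * j + 1) ∧ c = g * (2 * j - 2)))

theorem quad_form : ∀ n : ℕ, ∀ M a b c : ℤ, M.toNat ≤ n → 1 ≤ M → 1 ≤ a → 1 ≤ b → 1 ≤ c →
    Tri M a b → Tri M b c → Tri M (a + b) c → Tri M a (b + c) →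
    (a = M - 2 * b ∧ c = M + b) ∨ (a = M + b ∧ c = M - 2 * b) := by
  intro n
  induction n with
  | zero => intro M a b c h hM; omega
  | succ n ih =>
    intro M a b c hn hM ha hb hc h1 h2 h3 h4
    by_cases hev : M % 2 = 0 ∧ a % 2 = 0 ∧ b % 2 = 0 ∧ c % 2 = 0
    · obtain ⟨M', rfl⟩ : ∃ x, M = 2 * x := ⟨M / 2, by omega⟩
      obtain ⟨a', rfl⟩ : ∃ x, a = 2 * x := ⟨a / 2, by omega⟩
      obtain ⟨b', rfl⟩ : ∃ x, b = 2 * x := ⟨b / 2, by omega⟩
      obtain ⟨c', rfl⟩ : ∃ x, c = 2 * x := ⟨c / 2, by omega⟩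
      have := ih M' a' b' c' (by omega) (by omega) (by omega) (by omega) (by omega)
        (tri_half (by omega) (by omega) (by omega) h1)
        (tri_half (by omega) (by omega) (by omega) h2)
        (tri_half (by omega) (by omega) (by omega) (by rwa [mul_add]))
        (tri_half (by omega) (by omega) (by omega) (by rwa [mul_add]))
      omega
    · exact quad_weak hM ha hb hc hev (tri_weak ha hb h1) (tri_weak hb hc h2)
        (tri_weak (by omega) hc h3) (tri_weak ha (by omega) h4)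

theorem quad_red {M a b c : ℤ} (hM : 1 ≤ M) (ha : 1 ≤ a) (hb : 1 ≤ b) (hc : 1 ≤ c)
    (h1 : Tri M a b) (h2 : Tri M b c) (h3 : Tri M (a + b) c) (h4 : Tri M a (b + c)) :
    Quad M a b c := by
  rcases quad_form M.toNat M a b c le_rfl hM ha hb hc h1 h2 h3 h4 with ⟨e1, e2⟩ | ⟨e1, e2⟩
  · have h4' : Tri M (M - 2 * b) (M + 2 * b) := by
      rw [← e1]; rwa [show b + c = M + 2 * b by omega] at h4
    obtain ⟨j, hj⟩ := dvd_of_tri hb (by omega) h4'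
    refine ⟨b, j, hb, ?_, by rw [hj]; ring, rfl, Or.inl ⟨?_, ?_⟩⟩
    · by_contra hcon
      push Not at hcon
      nlinarith
    · rw [e1, hj]; ring
    · rw [e2, hj]; ring
  · have h3' : Tri M (M - 2 * b) (M + 2 * b) := by
      apply tri_symm
      rw [← e2]; rwa [show a + b = M + 2 * b by omega] at h3
    obtain ⟨j, hj⟩ := dvd_of_tri hb (by omega) h3'
    refine ⟨b, j, hb, ?_, by rw [hj]; ring, rfl, Or.inr ⟨?_, ?_⟩⟩
    · by_contra hcon
      push Not at hcon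
      nlinarith
    · rw [e1, hj]; ring
    · rw [e2, hj]; ring

theorem two_red : ∀ n : ℕ, ∀ M1 M2 N1 N2 : ℤ, M1.toNat ≤ n → 1 ≤ M1 → 1 ≤ M2 → 1 ≤ N1 → 1 ≤ N2 →
    Tri M1 N1 N2 → Tri M2 N1 N2 → Tri (M1 + M2) N1 N2 →
    Tri N1 M1 M2 → Tri N2 M1 M2 → False := by
  intro n
  induction n with
  | zero => intro M a b c h hM; omega
  | succ n ih =>
    intro M1 M2 N1 N2 hn hM1 hM2 hN1 hN2 h1 h2 h3 k1 k2
    by_cases hev : M1 % 2 = 0 ∧ M2 % 2 = 0 ∧ N1 % 2 = 0 ∧ N2 % 2 = 0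
    · obtain ⟨M', rfl⟩ : ∃ x, M1 = 2 * x := ⟨M1 / 2, by omega⟩
      obtain ⟨a', rfl⟩ : ∃ x, M2 = 2 * x := ⟨M2 / 2, by omega⟩
      obtain ⟨b', rfl⟩ : ∃ x, N1 = 2 * x := ⟨N1 / 2, by omega⟩
      obtain ⟨c', rfl⟩ : ∃ x, N2 = 2 * x := ⟨N2 / 2, by omega⟩
      exact ih M' a' b' c' (by omega) (by omega) (by omega) (by omega) (by omega)
        (tri_half (by omega) (by omega) (by omega) h1)
        (tri_half (by omega) (by omega) (by omega) h2)
        (tri_half (by omega) (by omega) (by omega) (by rwa [mul_add]))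
        (tri_half (by omega) (by omega) (by omega) k1)
        (tri_half (by omega) (by omega) (by omega) k2)
    · exact two_weak hM1 hM2 hN1 hN2 hev (tri_weak hN1 hN2 h1) (tri_weak hN1 hN2 h2)
        (tri_weak hN1 hN2 h3) (tri_weak hM1 hM2 k1) (tri_weak hM1 hM2 k2)

end H55PW
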