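import Mathlib
import Pool.Agent.H55.PWComb

namespace H55PW

def Occ (P : ℤ → Prop) : ℤ → List ℕ → Prop
  | x, [] => P x
  | x, d :: ds => P x ∧ Occ P (x + (d + 1)) ds

def UnavL (m n : List ℕ) : Prop :=
  ∀ P : ℤ → Prop, (∃ x, Occ P x m) ∨ (∃ x, Occ (fun z => ¬ P z) x n)

theorem UnavL.symm {m n : List ℕ} (h : UnavL m n) : UnavL n m := by
  intro P
  have := h (fun z => ¬ P z)
  simp only [not_not] at this
  exact this.symm

theorem UnavL.mono {m n m' n' : List ℕ} (h : UnavL m n)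
    (hm : ∀ (P : ℤ → Prop) (x : ℤ), Occ P x m → ∃ y, Occ P y m')
    (hn : ∀ (P : ℤ → Prop) (x : ℤ), Occ P x n → ∃ y, Occ P y n') : UnavL m' n' := by
  intro P
  rcases h P with ⟨x, hx⟩ | ⟨x, hx⟩
  · exact Or.inl (hm P x hx)
  · exact Or.inr (hn _ x hx)

theorem occ_head {P : ℤ → Prop} {x : ℤ} {l : List ℕ} (h : Occ P x l) : P x := by
  cases l with
  | nil => exact h
  | cons a l => exact h.1

theorem occ_append {P : ℤ → Prop} {l l' : List ℕ} : ∀ {x : ℤ}, Occ P x (l ++ l') → Occ P x l := by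
  induction l with
  | nil => intro x h; exact occ_head h
  | cons a l ih => intro x h; exact ⟨h.1, ih h.2⟩

theorem unavL_12 {a b c : ℕ} : UnavL [a] [b, c] ↔ Tri ((a : ℤ) + 1) ((b : ℤ) + 1) ((c : ℤ) + 1) := by
  rw [← not_av_iff (by omega) (by omega) (by omega)]
  unfold UnavL Av
  simp only [Occ]
  constructor
  · rintro h ⟨P, hA, hB⟩
    rcases h P with ⟨x, h1, h2⟩ | ⟨x, h1, h2, h3⟩
    · exact hA x h1 h2
    · rcases hB x with h | h | h
      · exact h1 h
      · exact h2 h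
      · exact h3 h
  · intro h P
    by_contra hcon
    apply h
    refine ⟨P, ?_, ?_⟩
    · intro x h1 h2
      exact hcon (Or.inl ⟨x, h1, h2⟩)
    · intro x
      by_contra hx
      apply hcon
      right
      refine ⟨x, fun h => hx (Or.inl h), fun h => hx (Or.inr (Or.inl h)),
        fun h => hx (Or.inr (Or.inr h))⟩

/-- `k = l = 1` -/
theorem unavL_11 {a b : ℕ} : UnavL [a] [b] ↔
    ∃ g M N : ℕ, a + 1 = g * M ∧ b + 1 = g * N ∧ (M + N) % 2 = 1 := by
  constructor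
  · intro h
    -- let g = gcd
    set g := Nat.gcd (a + 1) (b + 1) with hg
    have hg0 : 0 < g := Nat.gcd_pos_of_pos_left _ (Nat.succ_pos a)
    obtain ⟨M, hM⟩ : g ∣ a + 1 := Nat.gcd_dvd_left ..
    obtain ⟨N, hN⟩ : g ∣ b + 1 := Nat.gcd_dvd_right ..
    refine ⟨g, M, N, hM, hN, ?_⟩
    by_contra hcon
    have hcop : Nat.gcd M N = 1 := by
      have : g * Nat.gcd M N = g * 1 := by
        rw [← Nat.gcd_mul_left, ← hM, ← hN, mul_one]
      exact Nat.eq_of_mul_eq_mul_left hg0 this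
    have hodd : M % 2 = 1 ∧ N % 2 = 1 := by
      by_contra hne
      have h0 : M % 2 = 0 ∧ N % 2 = 0 := by omega
      have : 2 ∣ Nat.gcd M N := Nat.dvd_gcd (Nat.dvd_of_mod_eq_zero h0.1)
        (Nat.dvd_of_mod_eq_zero h0.2)
      rw [hcop] at this
      omega
    have hgz : (0 : ℤ) < g := by exact_mod_cast hg0
    have hMz : (a : ℤ) + 1 = g * M := by exact_mod_cast hM
    have hNz : (b : ℤ) + 1 = g * N := by exact_mod_cast hN
    have e : ∀ x y : ℤ, (x + g * y) / g = x / g + y := by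
      intro x y
      rw [Int.add_mul_ediv_left _ _ (by omega)]
    have := h (fun x => (x / (g : ℤ)) % 2 = 0)
    simp only [Occ] at this
    rcases this with ⟨x, h1, h2⟩ | ⟨x, h1, h2⟩
    · rw [hMz, e] at h2
      omega
    · rw [hNz, e] at h2
      omega
  · rintro ⟨g, M, N, hM, hN, hodd⟩ P
    by_contra hcon
    simp only [Occ] at hcon
    have hMz : (a : ℤ) + 1 = g * M := by exact_mod_cast hM
    have hNz : (b : ℤ) + 1 = g * N := by exact_mod_cast hN
    rw [hMz, hNz] at hcon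
    have hA : ∀ x, P x → ¬ P (x + g * M) := fun x h1 h2 => hcon (Or.inl ⟨x, h1, h2⟩)
    have hB : ∀ x, ¬ P x → P (x + g * N) := fun x h1 => by
      by_contra h2
      exact hcon (Or.inr ⟨x, h1, h2⟩)
    have hA' : ∀ x, P x → ¬ P (x - g * M) := fun x h1 h2 => by
      have := hA _ h2
      rw [sub_add_cancel] at this
      exact this h1
    have hB' : ∀ x, ¬ P x → P (x - g * N) := fun x h1 => by
      by_contra h2
      have := hB _ h2
      rw [sub_add_cancel] at this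
      exact h1 this
    -- P (x + gM) ↔ ¬ P x
    have fM : ∀ x, ¬ P x → P (x + g * M) := by
      intro x hx
      have h1 := hB _ hx
      have h2 := hA _ h1
      have h3 := hB' _ h2
      rwa [show x + g * N + g * M - g * N = x + g * M by ring] at h3
    have fN : ∀ x, P x → ¬ P (x + g * N) := by
      intro x hx
      have h1 := hA _ hx
      have h2 := hB _ h1
      have h3 := hA' _ h2
      rwa [show x + g * M + g * N - g * M = x + g * N by ring] at h3
    have iM : ∀ x, P (x + g * M) ↔ ¬ P x := fun x => ⟨fun h h' => hA _ h' h, fM x⟩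
    have iN : ∀ x, P (x + g * N) ↔ ¬ P x := fun x => ⟨fun h h' => fN _ h' h, hB x⟩
    have jM : ∀ (k : ℕ) (x : ℤ), P (x + k * (g * M)) ↔ (P x ↔ k % 2 = 0) := by
      intro k
      induction k with
      | zero => intro x; simp
      | succ k ih =>
        intro x
        rw [show x + ((k + 1 : ℕ) : ℤ) * (g * M) = (x + k * (g * M)) + g * M by push_cast; ring,
          iM, ih]
        rcases Nat.mod_two_eq_zero_or_one k with h | h
        · have h' : (k + 1) % 2 = 1 := by omega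
          simp [h, h']
        · have h' : (k + 1) % 2 = 0 := by omega
          simp [h, h']
    have jN : ∀ (k : ℕ) (x : ℤ), P (x + k * (g * N)) ↔ (P x ↔ k % 2 = 0) := by
      intro k
      induction k with
      | zero => intro x; simp
      | succ k ih =>
        intro x
        rw [show x + ((k + 1 : ℕ) : ℤ) * (g * N) = (x + k * (g * N)) + g * N by push_cast; ring,
          iN, ih]
        rcases Nat.mod_two_eq_zero_or_one k with h | h
        · have h' : (k + 1) % 2 = 1 := by omega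
          simp [h, h']
        · have h' : (k + 1) % 2 = 0 := by omega
          simp [h, h']
    have h1 := jM N 0
    have h2 := jN M 0
    rw [show (0 : ℤ) + N * (g * M) = 0 + M * (g * N) by ring, h2] at h1
    have hc : (M % 2 = 0 ∧ N % 2 = 1) ∨ (M % 2 = 1 ∧ N % 2 = 0) := by omega
    rcases hc with ⟨m1, m2⟩ | ⟨m1, m2⟩
    · simp [m1, m2] at h1
    · simp [m1, m2] at h1

theorem quad_unavL {a b c d : ℕ}
    (h : Quad ((a : ℤ) + 1) ((b : ℤ) + 1) ((c : ℤ) + 1) ((d : ℤ) + 1)) : UnavL [a] [b, c, d] := by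
  intro P
  by_contra hcon
  simp only [Occ] at hcon
  obtain ⟨g, j, hg, hj, e0, e2, ⟨e1, e3⟩ | ⟨e1, e3⟩⟩ := h
  · rw [e0, e1, e2, e3] at hcon
    refine U3 (j := j.toNat) (fun y => P (g * y)) ?_ ?_
    · intro x h1 h2
      apply hcon
      refine Or.inl ⟨g * x, h1, ?_⟩
      rwa [show g * x + g * (2 * j) = g * (x + 2 * ((j.toNat : ℕ) : ℤ)) by
        rw [Int.toNat_of_nonneg (by omega)]; ring]
    · intro x
      by_contra hx
      push Not at hx
      obtain ⟨n1, n2, n3, n4⟩ := hx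
      rw [Int.toNat_of_nonneg (by omega)] at n1 n4
      apply hcon
      refine Or.inr ⟨g * (x - 2 * j), n1, ?_, ?_, ?_⟩
      · rwa [show g * (x - 2 * j) + g * (2 * j - 2) = g * (x - 2) by ring]
      · rwa [show g * (x - 2 * j) + g * (2 * j - 2) + g = g * (x - 1) by ring]
      · rwa [show g * (x - 2 * j) + g * (2 * j - 2) + g + g * (2 * j + 1) = g * (x + 2 * j) by ring]
  · rw [e0, e1, e2, e3] at hcon
    refine U3 (j := j.toNat) (fun y => P (-(g * y))) ?_ ?_
    · intro x h1 h2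
      apply hcon
      refine Or.inl ⟨-(g * (x + 2 * ((j.toNat : ℕ) : ℤ))), h2, ?_⟩
      rwa [show -(g * (x + 2 * ((j.toNat : ℕ) : ℤ))) + g * (2 * j) = -(g * x) by
        rw [Int.toNat_of_nonneg (by omega)]; ring]
    · intro x
      by_contra hx
      push Not at hx
      obtain ⟨n1, n2, n3, n4⟩ := hx
      rw [Int.toNat_of_nonneg (by omega)] at n1 n4
      apply hcon
      refine Or.inr ⟨-(g * (x + 2 * j)), n4, ?_, ?_, ?_⟩
      · rwa [show -(g * (x + 2 * j)) + g * (2 * j + 1) = -(g * (x - 1)) by ring]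
      · rwa [show -(g * (x + 2 * j)) + g * (2 * j + 1) + g = -(g * (x - 2)) by ring]
      · rwa [show -(g * (x + 2 * j)) + g * (2 * j + 1) + g + g * (2 * j - 2) = -(g * (x - 2 * j))
          by ring]

theorem unavL_13 {a b c d : ℕ} : UnavL [a] [b, c, d] ↔
    Quad ((a : ℤ) + 1) ((b : ℤ) + 1) ((c : ℤ) + 1) ((d : ℤ) + 1) := by
  constructor
  · intro h
    have h1 : UnavL [a] [b, c] := h.mono (fun P x hx => ⟨x, hx⟩)
      (fun P x hx => ⟨x, hx.1, hx.2.1, hx.2.2.1⟩)
    have h2 : UnavL [a] [c, d] := h.mono (fun P x hx => ⟨x, hx⟩)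
      (fun P x hx => ⟨x + (b + 1), hx.2⟩)
    have h3 : UnavL [a] [b + c + 1, d] := h.mono (fun P x hx => ⟨x, hx⟩)
      (fun P x hx => ⟨x, hx.1, by
        have := hx.2.2
        rwa [show x + ((b : ℤ) + 1) + ((c : ℤ) + 1) = x + (((b + c + 1 : ℕ) : ℤ) + 1) by
          push_cast; ring] at this⟩)
    have h4 : UnavL [a] [b, c + d + 1] := h.mono (fun P x hx => ⟨x, hx⟩)
      (fun P x hx => ⟨x, hx.1, hx.2.1, by
        have := hx.2.2.2
        simp only [Occ] at this ⊢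
        rwa [show x + ((b : ℤ) + 1) + ((c : ℤ) + 1) + ((d : ℤ) + 1)
          = x + ((b : ℤ) + 1) + (((c + d + 1 : ℕ) : ℤ) + 1) by push_cast; ring] at this⟩)
    rw [unavL_12] at h1 h2 h3 h4
    refine quad_red (by omega) (by omega) (by omega) (by omega) h1 h2 ?_ ?_
    · rwa [show (((b + c + 1 : ℕ) : ℤ) + 1) = (b : ℤ) + 1 + ((c : ℤ) + 1) by push_cast; ring] at h3
    · rwa [show (((c + d + 1 : ℕ) : ℤ) + 1) = (c : ℤ) + 1 + ((d : ℤ) + 1) by push_cast; ring] at h4
  · exact quad_unavL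

theorem not_unavL_14 {a b c d e : ℕ} {l : List ℕ} : ¬ UnavL [a] (b :: c :: d :: e :: l) := by
  intro h
  have h1 : UnavL [a] [b, c, d] := h.mono (fun P x hx => ⟨x, hx⟩)
    (fun P x hx => ⟨x, hx.1, hx.2.1, hx.2.2.1, occ_head hx.2.2.2⟩)
  have h2 : UnavL [a] [b, c, d + e + 1] := h.mono (fun P x hx => ⟨x, hx⟩)
    (fun P x hx => ⟨x, hx.1, hx.2.1, hx.2.2.1, by
      have := occ_head hx.2.2.2.2
      simp only [Occ]
      rwa [show x + ((b : ℤ) + 1) + ((c : ℤ) + 1) + ((d : ℤ) + 1) + ((e : ℤ) + 1)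
        = x + ((b : ℤ) + 1) + ((c : ℤ) + 1) + (((d + e + 1 : ℕ) : ℤ) + 1) by push_cast; ring]
        at this⟩)
  rw [unavL_13] at h1 h2
  obtain ⟨g, j, hg, hj, e0, e2, h3⟩ := h1
  obtain ⟨g', j', hg', hj', e0', e2', h3'⟩ := h2
  push_cast at h3'
  have s1 : ((b : ℤ) + 1) + ((c : ℤ) + 1) + ((d : ℤ) + 1) = 2 * ((a : ℤ) + 1) := by
    rcases h3 with ⟨h, h'⟩ | ⟨h, h'⟩ <;> rw [h, h', e0, e2] <;> ring
  have s2 : ((b : ℤ) + 1) + ((c : ℤ) + 1) + ((d : ℤ) + e + 1 + 1) = 2 * ((a : ℤ) + 1) := by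
    rcases h3' with ⟨h, h'⟩ | ⟨h, h'⟩ <;> rw [h, h', e0', e2'] <;> ring
  omega

theorem not_unavL_22 {a a' b b' : ℕ} {l l' : List ℕ} :
    ¬ UnavL (a :: a' :: l) (b :: b' :: l') := by
  intro h
  have key : ∀ {u v : ℕ} {w : List ℕ} (P : ℤ → Prop) (x : ℤ), Occ P x (u :: v :: w) →
      (∃ y, Occ P y [u]) ∧ (∃ y, Occ P y [v]) ∧ (∃ y, Occ P y [u + v + 1]) ∧
      (∃ y, Occ P y [u, v]) := by
    intro u v w P x hx
    refine ⟨⟨x, hx.1, hx.2.1⟩, ⟨x + (u + 1), hx.2.1, occ_head hx.2.2⟩, ⟨x, hx.1, ?_⟩,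
      ⟨x, hx.1, hx.2.1, occ_head hx.2.2⟩⟩
    have := occ_head hx.2.2
    simp only [Occ]
    rwa [show x + ((u : ℤ) + 1) + ((v : ℤ) + 1) = x + (((u + v + 1 : ℕ) : ℤ) + 1) by
      push_cast; ring] at this
  have h1 : UnavL [a] [b, b'] := h.mono (fun P x hx => (key P x hx).1)
    (fun P x hx => (key P x hx).2.2.2)
  have h2 : UnavL [a'] [b, b'] := h.mono (fun P x hx => (key P x hx).2.1)
    (fun P x hx => (key P x hx).2.2.2)
  have h3 : UnavL [a + a' + 1] [b, b'] := h.mono (fun P x hx => (key P x hx).2.2.1)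
    (fun P x hx => (key P x hx).2.2.2)
  have k1 : UnavL [b] [a, a'] := (h.mono (fun P x hx => (key P x hx).2.2.2)
    (fun P x hx => (key P x hx).1)).symm
  have k2 : UnavL [b'] [a, a'] := (h.mono (fun P x hx => (key P x hx).2.2.2)
    (fun P x hx => (key P x hx).2.1)).symm
  rw [unavL_12] at h1 h2 h3 k1 k2
  refine two_red _ ((a : ℤ) + 1) ((a' : ℤ) + 1) ((b : ℤ) + 1) ((b' : ℤ) + 1) le_rfl (by omega)
    (by omega) (by omega) (by omega) h1 h2 ?_ k1 k2
  rwa [show (((a + a' + 1 : ℕ) : ℤ) + 1) = (a : ℤ) + 1 + ((a' : ℤ) + 1) by push_cast; ring] at h3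

end H55PW
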